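import Pool.Agent.ANL.Stmts

/-!
# Module ANL_CURV (MP_98e313_an)
-/

set_option autoImplicit false

namespace Pool.Agent.ANL

open MeasureTheory Set

namespace CURV

theorem cu_nonneg (x y z : ℂ) : 0 ≤ cu x y z := by
  unfold cu
  positivity

theorem cu_rot (x y z : ℂ) : cu y z x = cu x y z := by
  have e : crs (z - y) (x - y) = crs (y - x) (z - x) := by
    simp only [crs, Complex.sub_re, Complex.sub_im]
    ring
  unfold cu
  rw [e]
  congr 1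
  ring

open Classical in
/-- the summand of `T1` -/
noncomputable def h (m : ℂ → ℝ) (ε : ℝ) (x z y : ℂ) : ℝ :=
  if ε ≤ ‖z - x‖ ∧ ‖z - x‖ ≤ ‖y - x‖ ∧ ‖z - x‖ ≤ ‖y - z‖ then m x * m z * m y * cu x z y else 0

open Classical in
/-- the summand of `T3` -/
noncomputable def g (m : ℂ → ℝ) (ε : ℝ) (x y z : ℂ) : ℝ :=
  if ε ≤ ‖x - y‖ ∧ ε ≤ ‖y - z‖ ∧ ε ≤ ‖z - x‖ then m x * m y * m z * cu x y z else 0

theorem T1_eq (X : Finset ℂ) (m : ℂ → ℝ) (ε : ℝ) :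
    T1 X m ε = ∑ x ∈ X, ∑ z ∈ X, ∑ y ∈ X, h m ε x z y := rfl

theorem T3_eq (X : Finset ℂ) (m : ℂ → ℝ) (ε : ℝ) :
    T3 X m ε = ∑ x ∈ X, ∑ y ∈ X, ∑ z ∈ X, g m ε x y z := rfl

theorem h_nonneg (m : ℂ → ℝ) (ε : ℝ) (x z y : ℂ) (hx : 0 ≤ m x) (hz : 0 ≤ m z) (hy : 0 ≤ m y) :
    0 ≤ h m ε x z y := by
  unfold h
  split_ifs
  · exact mul_nonneg (mul_nonneg (mul_nonneg hx hz) hy) (cu_nonneg _ _ _)
  · exact le_rfl

theorem g_le (m : ℂ → ℝ) (ε : ℝ) (x y z : ℂ) (hx : 0 ≤ m x) (hy : 0 ≤ m y) (hz : 0 ≤ m z) :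
    g m ε x y z ≤ h m ε x y z + h m ε y z x + h m ε z x y := by
  have n1 := h_nonneg m ε x y z hx hy hz
  have n2 := h_nonneg m ε y z x hy hz hx
  have n3 := h_nonneg m ε z x y hz hx hy
  by_cases hc : ε ≤ ‖x - y‖ ∧ ε ≤ ‖y - z‖ ∧ ε ≤ ‖z - x‖
  · have eg : g m ε x y z = m x * m y * m z * cu x y z := if_pos hc
    have s1 : ‖x - y‖ = ‖y - x‖ := norm_sub_rev _ _
    have s2 : ‖y - z‖ = ‖z - y‖ := norm_sub_rev _ _
    have s3 : ‖z - x‖ = ‖x - z‖ := norm_sub_rev _ _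
    obtain ⟨c1, c2, c3⟩ := hc
    rcases le_total ‖y - x‖ ‖z - y‖ with h1 | h1
    · rcases le_total ‖y - x‖ ‖z - x‖ with h2 | h2
      · have e1 : h m ε x y z = m x * m y * m z * cu x y z :=
          if_pos ⟨by rw [← s1]; exact c1, h2, h1⟩
        rw [eg, e1]
        linarith
      · have e1 : h m ε z x y = m z * m x * m y * cu z x y :=
          if_pos ⟨by rw [← s3]; exact c3, by rw [← s3, s2]; exact h2.trans h1,
            by rw [← s3]; exact h2⟩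
        have e2 : cu z x y = cu x y z := by rw [← cu_rot z x y]
        rw [eg, e1, e2]
        have e3 : m z * m x * m y * cu x y z = m x * m y * m z * cu x y z := by ring
        linarith
    · rcases le_total ‖z - y‖ ‖z - x‖ with h2 | h2
      · have e1 : h m ε y z x = m y * m z * m x * cu y z x :=
          if_pos ⟨by rw [← s2]; exact c2, by rw [s1]; exact h1, by rw [← s3]; exact h2⟩
        have e3 : m y * m z * m x * cu y z x = m x * m y * m z * cu x y z := by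
          rw [cu_rot]
          ring
        rw [eg, e1]
        linarith
      · have e1 : h m ε z x y = m z * m x * m y * cu z x y :=
          if_pos ⟨by rw [← s3]; exact c3, by rw [← s3, s2]; exact h2,
            by rw [← s3]; exact h2.trans h1⟩
        have e2 : cu z x y = cu x y z := by rw [← cu_rot z x y]
        rw [eg, e1, e2]
        have e3 : m z * m x * m y * cu x y z = m x * m y * m z * cu x y z := by ring
        linarith
  · have eg : g m ε x y z = 0 := if_neg hc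
    rw [eg]
    linarith

theorem T3_le (X : Finset ℂ) (m : ℂ → ℝ) (ε : ℝ) (hm : ∀ x ∈ X, 0 ≤ m x) :
    T3 X m ε ≤ 3 * T1 X m ε := by
  have e1 : ∑ x ∈ X, ∑ y ∈ X, ∑ z ∈ X, h m ε y z x = T1 X m ε := by
    rw [T1_eq, Finset.sum_comm]
    refine Finset.sum_congr rfl fun y _ => ?_
    rw [Finset.sum_comm]
  have e2 : ∑ x ∈ X, ∑ y ∈ X, ∑ z ∈ X, h m ε z x y = T1 X m ε := by
    rw [T1_eq]
    have : ∀ x ∈ X, ∑ y ∈ X, ∑ z ∈ X, h m ε z x y = ∑ z ∈ X, ∑ y ∈ X, h m ε z x y := by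
      intro x _
      rw [Finset.sum_comm]
    rw [Finset.sum_congr rfl this, Finset.sum_comm]
  calc T3 X m ε = ∑ x ∈ X, ∑ y ∈ X, ∑ z ∈ X, g m ε x y z := T3_eq X m ε
    _ ≤ ∑ x ∈ X, ∑ y ∈ X, ∑ z ∈ X, (h m ε x y z + h m ε y z x + h m ε z x y) := by
        refine Finset.sum_le_sum fun x hx => Finset.sum_le_sum fun y hy =>
          Finset.sum_le_sum fun z hz => ?_
        exact g_le m ε x y z (hm x hx) (hm y hy) (hm z hz)
    _ = T1 X m ε + T1 X m ε + T1 X m ε := by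
        simp only [Finset.sum_add_distrib]
        rw [e1, e2, ← T1_eq]
    _ = 3 * T1 X m ε := by ring

theorem sum3 (X Y : Finset ℂ) (hYX : Y ⊆ X) (G : ℂ → ℂ → ℂ → ℝ)
    (h1 : ∀ x ∈ X, x ∉ Y → ∀ y z, G x y z = 0) (h2 : ∀ y ∈ X, y ∉ Y → ∀ x z, G x y z = 0)
    (h3 : ∀ z ∈ X, z ∉ Y → ∀ x y, G x y z = 0) :
    ∑ x ∈ X, ∑ y ∈ X, ∑ z ∈ X, G x y z = ∑ x ∈ Y, ∑ y ∈ Y, ∑ z ∈ Y, G x y z := by
  have a1 : ∀ x y, ∑ z ∈ Y, G x y z = ∑ z ∈ X, G x y z := fun x y =>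
    Finset.sum_subset hYX fun z hz hz' => h3 z hz hz' x y
  have a2 : ∀ x, ∑ y ∈ Y, ∑ z ∈ X, G x y z = ∑ y ∈ X, ∑ z ∈ X, G x y z := fun x =>
    Finset.sum_subset hYX fun y hy hy' => Finset.sum_eq_zero fun z _ => h2 y hy hy' x z
  have a3 : ∑ x ∈ Y, ∑ y ∈ X, ∑ z ∈ X, G x y z = ∑ x ∈ X, ∑ y ∈ X, ∑ z ∈ X, G x y z :=
    Finset.sum_subset hYX fun x hx hx' => Finset.sum_eq_zero fun y _ =>
      Finset.sum_eq_zero fun z _ => h1 x hx hx' y z
  rw [← a3]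
  refine Finset.sum_congr rfl fun x _ => ?_
  rw [← a2]
  exact Finset.sum_congr rfl fun y _ => (a1 x y).symm

theorem exists_K (X : Finset ℂ) : ∃ K : ℕ, ∀ x ∈ X, ∀ y ∈ X, 1024 * ‖y - x‖ ≤ 2 ^ K := by
  obtain ⟨K, hK⟩ := pow_unbounded_of_one_lt (∑ x ∈ X, ∑ y ∈ X, 1024 * ‖y - x‖)
    (by norm_num : (1 : ℝ) < 2)
  refine ⟨K, fun x hx y hy => le_trans ?_ hK.le⟩
  have h1 : (1024 : ℝ) * ‖y - x‖ ≤ ∑ y ∈ X, 1024 * ‖y - x‖ :=
    Finset.single_le_sum (f := fun y => 1024 * ‖y - x‖) (fun y _ => by positivity) hy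
  have h2 : ∑ y ∈ X, 1024 * ‖y - x‖ ≤ ∑ x ∈ X, ∑ y ∈ X, 1024 * ‖y - x‖ :=
    Finset.single_le_sum (f := fun x => ∑ y ∈ X, 1024 * ‖y - x‖)
      (fun x _ => Finset.sum_nonneg fun y _ => by positivity) hx
  exact h1.trans h2

end CURV

open CURV in
/-- module ANL_CURV -/
theorem CURV_thm : Stmt_TSUM → Stmt_FSUM → Stmt_CURV := by
  classical
  intro hT hF
  obtain ⟨C0, hC0, hF⟩ := hF
  refine ⟨3 * (16 * 24 * 768 * C0), by positivity, ?_⟩
  intro N lab κ X m ε hN hε hG hO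
  obtain ⟨hm, hgr⟩ := hG
  obtain ⟨hκ, hO⟩ := hO
  set Y : Finset ℂ := X.filter (fun x => 0 < m x) with hY
  have hYX : Y ⊆ X := Finset.filter_subset _ _
  have hz : ∀ x ∈ X, x ∉ Y → m x = 0 := by
    intro x hx hx'
    by_contra hne
    exact hx' (Finset.mem_filter.2 ⟨hx, lt_of_le_of_ne (hm x hx) (Ne.symm hne)⟩)
  have hpos : ∀ x ∈ Y, 0 < m x := fun x hx => (Finset.mem_filter.1 hx).2
  have hsum : ∑ x ∈ Y, m x = ∑ x ∈ X, m x := Finset.sum_subset hYX hz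
  have hT3 : T3 X m ε = T3 Y m ε := by
    rw [T3_eq, T3_eq]
    refine sum3 X Y hYX _ ?_ ?_ ?_
    · intro x hx hx' y z
      have := hz x hx hx'
      simp only [g, this, zero_mul, ite_self]
    · intro y hy hy' x z
      have := hz y hy hy'
      simp only [g, this, zero_mul, mul_zero, ite_self]
    · intro z hz1 hz' x y
      have := hz z hz1 hz'
      simp only [g, this, zero_mul, mul_zero, ite_self]
  have hG' : Grow Y m ε := by
    refine ⟨fun x hx => (hpos x hx).le, fun z r hr => le_trans ?_ (hgr z r hr)⟩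
    refine Finset.sum_le_sum_of_subset_of_nonneg ?_ ?_
    · exact Finset.filter_subset_filter _ hYX
    · intro x hx _
      exact hm x (Finset.mem_filter.1 hx).1
  have hO' : OnG Y lab κ := ⟨hκ, fun x hx y hy z hz => hO x (hYX hx) y (hYX hy) z (hYX hz)⟩
  obtain ⟨K, hK⟩ := exists_K Y
  obtain ⟨B0, B1, J, hb⟩ := hT N lab κ Y m ε K hε hpos hG' hO' hK
  have hf := hF N lab κ Y m K hN hκ hpos B0 B1 J
  rw [hT3, ← hsum]
  calc T3 Y m ε ≤ 3 * T1 Y m ε := T3_le Y m ε fun x hx => (hpos x hx).le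
    _ ≤ 3 * (16 * 24 * 768 * (C0 * (1 + Real.log N) * ∑ x ∈ Y, m x)) := by
        refine mul_le_mul_of_nonneg_left (hb.trans ?_) (by norm_num)
        exact mul_le_mul_of_nonneg_left hf (by norm_num)
    _ = 3 * (16 * 24 * 768 * C0) * (1 + Real.log N) * ∑ x ∈ Y, m x := by ring

end Pool.Agent.ANL
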