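import Pool.Agent.ANL.Stmts
import Pool.Agent.FCC.MAXP

/-!
# Analytic capacity and few lines: the main theorem from the module statements (MP_98e313_an)
-/

set_option autoImplicit false

namespace Pool.Agent.ANL

open MeasureTheory Set

/-- The capacity is nonnegative. -/
lemma gam_nonneg {E : Set ℂ} (hE : IsCompact E) : 0 ≤ FCC.gam E := by
  apply le_csSup (FCC.MAXP.bdd E hE)
  refine ⟨fun _ => 0, 0, differentiableOn_const 0, fun z _ => by simp, tendsto_const_nhds, ?_,
    by simp⟩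
  simp

/-- The capacity is monotone. -/
lemma gam_mono {F E : Set ℂ} (hE : IsCompact E) (h : F ⊆ E) : FCC.gam F ≤ FCC.gam E := by
  apply csSup_le_csSup (FCC.MAXP.bdd E hE)
  · refine ⟨0, fun _ => 0, 0, differentiableOn_const 0, fun z _ => by simp, tendsto_const_nhds,
      ?_, by simp⟩
    simp
  · rintro r ⟨f, a, h1, h2, h3, h4, rfl⟩
    exact ⟨f, a, h1.mono (compl_subset_compl.mpr h), fun z hz => h2 z (fun hzF => hz (h hzF)),
      h3, h4, rfl⟩

/-- A submeasure has linear growth. -/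
lemma Grow.sub {X : Finset ℂ} {m w : ℂ → ℝ} {ε : ℝ} (h : Grow X m ε) (h0 : ∀ x ∈ X, 0 ≤ w x)
    (h1 : ∀ x ∈ X, w x ≤ m x) : Grow X w ε := by
  refine ⟨h0, fun z r hr => le_trans ?_ (h.2 z r hr)⟩
  exact Finset.sum_le_sum fun x hx => h1 x (Finset.mem_filter.mp hx).1

/-- The core: capacity of a set on `N` pieces. -/
theorem core (hT : Stmt_TEST) (hM : Stmt_MASS) (hX : Stmt_MAXM) (hL : Stmt_LIM)
    (hF : Stmt_FROST) : ∃ C : ℝ, 0 < C ∧ ∀ (N : ℕ), 1 ≤ N → ∀ (F : Set ℂ) (G : Fin N → Set ℂ)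
      (κ : Fin N → ℝ), IsCompact F → F ⊆ ⋃ i, G i → (∀ i, 0 ≤ κ i) →
      (∀ i, ∀ x ∈ G i, ∀ y ∈ G i, ∀ z ∈ G i,
        |crs (y - x) (z - x)| ≤ κ i * ‖y - x‖ * ‖z - x‖ * ‖y - z‖ ∧ κ i * ‖y - x‖ ≤ 1) →
      ∀ η : ℝ, (∀ R, Cov F R → η ≤ R) → η ≤ C * √(1 + Real.log N) * FCC.gam F := by
  obtain ⟨C0, hC0, hT⟩ := hT
  refine ⟨192 * (√(192 * C0) + 8), by positivity, ?_⟩
  intro N hN F G κ hFc hFG hκ hG η hη
  have hN0 : 0 < N := hN
  have hlog : 0 ≤ Real.log N := Real.log_natCast_nonneg N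
  set M : ℝ := C0 * (1 + Real.log N) with hMdef
  have hMpos : 0 < M := by positivity
  set B : ℝ := √(192 * M) + 8 with hB
  have hBpos : 0 < B := by positivity
  obtain ⟨R1, hR1⟩ := hFc.isBounded.subset_closedBall (0 : ℂ)
  set W : ℝ := max R1 1 with hW
  have key : (η / 24 / 8) / B ≤ FCC.gam F := by
    apply hL F (η / 24 / 8) W B hFc hBpos
    intro δ hδ
    set ε : ℝ := min δ 1 with hε
    have hεpos : 0 < ε := lt_min hδ one_pos
    obtain ⟨X, m, hXF, hgrow, hmass⟩ := hF F η hFc hη ε hεpos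
    -- labels
    have hex : ∀ x : ℂ, ∃ i : Fin N, x ∈ F → x ∈ G i := by
      intro x
      by_cases hx : x ∈ F
      · obtain ⟨i, hi⟩ := mem_iUnion.mp (hFG hx)
        exact ⟨i, fun _ => hi⟩
      · exact ⟨⟨0, hN0⟩, fun h => absurd h hx⟩
    choose lab hlab using hex
    have hOn : OnG X lab κ := by
      refine ⟨hκ, fun x hx y hy z hz hyx hzx => ?_⟩
      have h1 : x ∈ G (lab x) := hlab x (hXF x hx)
      have h2 : y ∈ G (lab x) := hyx ▸ hlab y (hXF y hy)
      have h3 : z ∈ G (lab x) := hzx ▸ hlab z (hXF z hz)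
      exact hG (lab x) x h1 y h2 z h3
    -- the density
    have hker : ∀ z : ℂ, ker ε (-z) = - ker ε z := by
      intro z
      unfold ker
      rw [norm_neg, map_neg, neg_div]
    obtain ⟨h, hh, hhm, hhC⟩ := hM X (fun i => m i) (fun i j => ker ε ((i : ℂ) - j)) M hMpos
      (fun i => hgrow.1 i i.2) (fun i j => by
        rw [← hker, neg_sub]) (by
        intro g hg
        classical
        set w : ℂ → ℝ := fun x => if hx : x ∈ X then m x * g ⟨x, hx⟩ else 0 with hw
        have hw0 : ∀ x ∈ X, 0 ≤ w x := by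
          intro x hx
          simp only [hw, dif_pos hx]
          exact mul_nonneg (hgrow.1 x hx) (hg _).1
        have hw1 : ∀ x ∈ X, w x ≤ m x := by
          intro x hx
          simp only [hw, dif_pos hx]
          exact mul_le_of_le_one_right (hgrow.1 x hx) (hg _).2
        have := hT N lab κ X w ε hN hεpos (hgrow.sub hw0 hw1) hOn
        have e1 : ∀ i : X, w i = m i * g i := by
          intro i
          simp [hw]
        have e2 : ∑ x ∈ X, w x = ∑ i : X, m i * g i := by
          rw [← Finset.sum_coe_sort X w]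
          exact Finset.sum_congr rfl fun i _ => e1 i
        have e3 : ∀ x : ℂ, Cw X w ε x = ∑ j : X, ((m j * g j : ℝ) : ℂ) * ker ε (x - j) := by
          intro x
          unfold Cw
          rw [← Finset.sum_coe_sort X (fun y => (w y : ℂ) * ker ε (x - y))]
          exact Finset.sum_congr rfl fun i _ => by rw [e1 i]
        rw [e2, ← Finset.sum_coe_sort X (fun x => w x * ‖Cw X w ε x‖ ^ 2)] at this
        refine le_trans (le_of_eq ?_) this
        refine Finset.sum_congr rfl fun i _ => ?_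
        rw [e1 i, e3])
    classical
    set w : ℂ → ℝ := fun x => if hx : x ∈ X then m x * h ⟨x, hx⟩ else 0 with hw
    have hw0 : ∀ x ∈ X, 0 ≤ w x := by
      intro x hx
      simp only [hw, dif_pos hx]
      exact mul_nonneg (hgrow.1 x hx) (hh _).1
    have hw1 : ∀ x ∈ X, w x ≤ m x := by
      intro x hx
      simp only [hw, dif_pos hx]
      exact mul_le_of_le_one_right (hgrow.1 x hx) ((hh _).2.trans (by norm_num))
    have e1 : ∀ i : X, w i = m i * h i := by
      intro i
      simp [hw]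
    have e2 : ∑ x ∈ X, w x = ∑ i : X, m i * h i := by
      rw [← Finset.sum_coe_sort X w]
      exact Finset.sum_congr rfl fun i _ => e1 i
    have e3 : ∀ x : ℂ, Cw X w ε x = ∑ j : X, ((m j * h j : ℝ) : ℂ) * ker ε (x - j) := by
      intro x
      unfold Cw
      rw [← Finset.sum_coe_sort X (fun y => (w y : ℂ) * ker ε (x - y))]
      exact Finset.sum_congr rfl fun i _ => by rw [e1 i]
    refine ⟨X, w, hXF, hw0, ?_, ?_, ?_⟩
    · rw [e2]
      refine le_trans ?_ hhm
      rw [Finset.sum_coe_sort X m]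
      linarith
    · have h1 := hgrow.2 0 W ((min_le_right _ _).trans (le_max_right _ _))
      have h2 : X.filter (fun x => ‖x - 0‖ ≤ W) = X := by
        apply Finset.filter_true_of_mem
        intro x hx
        have := hR1 (hXF x hx)
        rw [Metric.mem_closedBall, dist_zero_right] at this
        rw [sub_zero]
        exact this.trans (le_max_left _ _)
      rw [h2] at h1
      exact (Finset.sum_le_sum hw1).trans h1
    · intro z hz
      apply hX X w ε (√(192 * M)) hεpos (Real.sqrt_nonneg _) (hgrow.sub hw0 hw1)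
      · intro x hx hwx
        have hhx : 0 < h ⟨x, hx⟩ := by
          simp only [hw, dif_pos hx] at hwx
          by_contra hcon
          have : h ⟨x, hx⟩ = 0 := le_antisymm (not_lt.mp hcon) (hh _).1
          rw [this, mul_zero] at hwx
          exact lt_irrefl _ hwx
        have := hhC ⟨x, hx⟩ hhx
        rw [e3]
        exact Real.le_sqrt_of_sq_le this
      · intro x hx
        exact (min_le_left _ _).trans_lt (hz x (hXF x hx))
  have hgam := gam_nonneg hFc
  rw [div_le_iff₀ hBpos] at key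
  have hBle : B ≤ (√(192 * C0) + 8) * √(1 + Real.log N) := by
    have h1 : √(192 * M) = √(192 * C0) * √(1 + Real.log N) := by
      rw [hMdef, ← mul_assoc, Real.sqrt_mul (by positivity)]
    have h2 : 1 ≤ √(1 + Real.log N) := by
      rw [Real.one_le_sqrt]
      linarith
    rw [hB, h1]
    nlinarith [Real.sqrt_nonneg (192 * C0)]
  have h3 : FCC.gam F * B ≤ FCC.gam F * ((√(192 * C0) + 8) * √(1 + Real.log N)) :=
    mul_le_mul_of_nonneg_left hBle hgam
  nlinarith

/-- Points of a segment are collinear. -/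
lemma crs_segment {p q x y z : ℂ} (hx : x ∈ segment ℝ p q) (hy : y ∈ segment ℝ p q)
    (hz : z ∈ segment ℝ p q) : crs (y - x) (z - x) = 0 := by
  rw [segment_eq_image'] at hx hy hz
  obtain ⟨a, -, rfl⟩ := hx
  obtain ⟨b, -, rfl⟩ := hy
  obtain ⟨c, -, rfl⟩ := hz
  simp [crs]
  ring

lemma segment_compact (p q : ℂ) : IsCompact (segment ℝ p q) := by
  rw [segment_eq_image]
  apply isCompact_Icc.image
  fun_prop

/-- The main theorem. -/
theorem main (hT : Stmt_TEST) (hM : Stmt_MASS) (hX : Stmt_MAXM) (hL : Stmt_LIM)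
    (hF : Stmt_FROST) (hC : Stmt_CHORD) (hV : Stmt_FAVC) :
    ∃ c : ℝ, 0 < c ∧ ∀ (N : ℕ), 1 ≤ N → ∀ (E E0 : Set ℂ) (G K : Fin N → Set ℂ) (κ : Fin N → ℝ),
      IsCompact E0 → (∀ i, IsCompact (K i)) → (∀ i, Convex ℝ (K i)) → E0 ⊆ ⋃ i, G i →
      (∀ i, 0 ≤ κ i) →
      (∀ i, ∀ x ∈ G i, ∀ y ∈ G i, ∀ z ∈ G i,
        |crs (y - x) (z - x)| ≤ κ i * ‖y - x‖ * ‖z - x‖ * ‖y - z‖ ∧ κ i * ‖y - x‖ ≤ 1) →
      E = E0 ∪ ⋃ i, K i →
      c * cont1 E ≤ √(1 + Real.log N) * FCC.gam E ∧
        c * FCC.Fav E ≤ √(1 + Real.log N) * FCC.gam E := by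
  obtain ⟨C, hCpos, hcore⟩ := core hT hM hX hL hF
  refine ⟨1 / (2 * C * (38 * Real.pi)), by positivity, ?_⟩
  intro N hN E E0 G K κ hE0 hKc hKv hE0G hκ hG hE
  have hEc : IsCompact E := by
    rw [hE]
    exact hE0.union (isCompact_iUnion hKc)
  have hlog : 0 ≤ Real.log N := Real.log_natCast_nonneg N
  -- the empty set
  rcases E.eq_empty_or_nonempty with hemp | ⟨e, he⟩
  · have hcov : Cov E 0 := ⟨0, Fin.elim0, Fin.elim0, fun i => i.elim0, by rw [hemp]; simp, by simp⟩
    obtain ⟨h1, h2⟩ := hV E 0 hcov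
    have hg := gam_nonneg hEc
    have hc : 0 ≤ 1 / (2 * C * (38 * Real.pi)) := by positivity
    constructor
    · nlinarith [Real.sqrt_nonneg (1 + Real.log N), mul_nonneg (Real.sqrt_nonneg (1 + Real.log N)) hg]
    · nlinarith [Real.sqrt_nonneg (1 + Real.log N), mul_nonneg (Real.sqrt_nonneg (1 + Real.log N)) hg]
  -- nonempty convex sets
  classical
  set K' : Fin N → Set ℂ := fun i => if (K i).Nonempty then K i else {e} with hK'
  have hK'c : ∀ i, IsCompact (K' i) := by
    intro i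
    simp only [hK']
    split_ifs
    · exact hKc i
    · exact isCompact_singleton
  have hK'v : ∀ i, Convex ℝ (K' i) := by
    intro i
    simp only [hK']
    split_ifs
    · exact hKv i
    · exact convex_singleton e
  have hK'n : ∀ i, (K' i).Nonempty := by
    intro i
    simp only [hK']
    split_ifs with h
    · exact h
    · exact singleton_nonempty e
  have hK'E : ∀ i, K' i ⊆ E := by
    intro i
    simp only [hK']
    split_ifs
    · rw [hE]
      exact (subset_iUnion K i).trans subset_union_right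
    · exact singleton_subset_iff.mpr he
  have hEK' : E = E0 ∪ ⋃ i, K' i := by
    apply Subset.antisymm
    · nth_rewrite 1 [hE]
      apply union_subset_union_right
      apply iUnion_mono
      intro i x hx
      have : (K i).Nonempty := ⟨x, hx⟩
      simp only [hK', if_pos this]
      exact hx
    · apply union_subset
      · rw [hE]
        exact subset_union_left
      · exact iUnion_subset hK'E
  -- diameters
  have hdiam : ∀ i, ∃ pq : ℂ × ℂ, pq.1 ∈ K' i ∧ pq.2 ∈ K' i ∧
      ∀ u ∈ K' i, ∀ v ∈ K' i, ‖u - v‖ ≤ ‖pq.1 - pq.2‖ := by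
    intro i
    obtain ⟨a, ha⟩ := hK'n i
    obtain ⟨pq, hpq, hmax⟩ := ((hK'c i).prod (hK'c i)).exists_isMaxOn ⟨(a, a), ha, ha⟩
      (f := fun pq : ℂ × ℂ => ‖pq.1 - pq.2‖) (by fun_prop)
    refine ⟨pq, hpq.1, hpq.2, fun u hu v hv => ?_⟩
    exact hmax (show (u, v) ∈ K' i ×ˢ K' i from ⟨hu, hv⟩)
  choose pq hp hq hpq using hdiam
  set F : Set ℂ := E0 ∪ ⋃ i, segment ℝ (pq i).1 (pq i).2 with hFdef
  have hFc : IsCompact F := hE0.union (isCompact_iUnion fun i => segment_compact _ _)
  have hFE : F ⊆ E := by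
    rw [hEK']
    apply union_subset_union_right
    apply iUnion_mono
    intro i
    exact (hK'v i).segment_subset (hp i) (hq i)
  -- the pieces
  set G' : Fin (N + N) → Set ℂ := fun i =>
    Sum.elim G (fun i => segment ℝ (pq i).1 (pq i).2) (finSumFinEquiv.symm i) with hG'
  set κ' : Fin (N + N) → ℝ := fun i => Sum.elim κ (fun _ => 0) (finSumFinEquiv.symm i) with hκ'
  have hFG' : F ⊆ ⋃ i, G' i := by
    intro x hx
    rcases hx with hx | hx
    · obtain ⟨i, hi⟩ := mem_iUnion.mp (hE0G hx)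
      refine mem_iUnion.mpr ⟨finSumFinEquiv (Sum.inl i), ?_⟩
      simpa [hG'] using hi
    · obtain ⟨i, hi⟩ := mem_iUnion.mp hx
      refine mem_iUnion.mpr ⟨finSumFinEquiv (Sum.inr i), ?_⟩
      simpa only [hG', Equiv.symm_apply_apply, Sum.elim_inr] using hi
  have hκ'0 : ∀ i, 0 ≤ κ' i := by
    intro i
    simp only [hκ']
    rcases finSumFinEquiv.symm i with j | j
    · exact hκ j
    · exact le_refl _
  have hG'p : ∀ i, ∀ x ∈ G' i, ∀ y ∈ G' i, ∀ z ∈ G' i,
      |crs (y - x) (z - x)| ≤ κ' i * ‖y - x‖ * ‖z - x‖ * ‖y - z‖ ∧ κ' i * ‖y - x‖ ≤ 1 := by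
    intro i x hx y hy z hz
    simp only [hG', hκ'] at hx hy hz ⊢
    generalize finSumFinEquiv.symm i = s at hx hy hz ⊢
    rcases s with j | j
    · exact hG j x hx y hy z hz
    · simp only [Sum.elim_inr] at hx hy hz ⊢
      rw [crs_segment hx hy hz]
      simp
  have hN2 : 1 ≤ N + N := by omega
  have hγ : FCC.gam F ≤ FCC.gam E := gam_mono hEc hFE
  have hg0 : 0 ≤ FCC.gam F := gam_nonneg hFc
  have hsq : √(1 + Real.log ((N + N : ℕ) : ℝ)) ≤ 2 * √(1 + Real.log N) := by
    have hNpos : (0 : ℝ) < N := by exact_mod_cast hN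
    have h1 : Real.log ((N + N : ℕ) : ℝ) = Real.log 2 + Real.log N := by
      rw [← Real.log_mul (by norm_num) hNpos.ne']
      congr 1
      push_cast
      ring
    have h2 : Real.log 2 < 1 := by
      have := Real.log_two_lt_d9
      linarith
    rw [Real.sqrt_le_left (by positivity), mul_pow, Real.sq_sqrt (by positivity), h1]
    linarith
  have hcovE : ∀ R, Cov F R → FCC.Fav E ≤ 2 * Real.pi * (19 * R) ∧ cont1 E ≤ 2 * (19 * R) := by
    intro R hR
    have := hC N E0 K' (fun i => (pq i).1) (fun i => (pq i).2)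
      (fun i => ⟨hp i, hq i, hpq i⟩) R hR
    rw [← hEK'] at this
    exact hV E _ this
  have hfin : ∀ η : ℝ, (∀ R, Cov F R → η ≤ R) →
      η ≤ 2 * C * (√(1 + Real.log N) * FCC.gam E) := by
    intro η hη
    have h1 := hcore (N + N) hN2 F G' κ' hFc hFG' hκ'0 hG'p η hη
    have h2 : C * √(1 + Real.log ((N + N : ℕ) : ℝ)) * FCC.gam F ≤
        C * (2 * √(1 + Real.log N)) * FCC.gam E := by
      apply mul_le_mul _ hγ hg0 (by positivity)
      exact mul_le_mul_of_nonneg_left hsq hCpos.le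
    calc η ≤ _ := h1
      _ ≤ _ := h2
      _ = 2 * C * (√(1 + Real.log N) * FCC.gam E) := by ring
  have hpi : (1 : ℝ) ≤ Real.pi := by linarith [Real.pi_gt_three]
  constructor
  · have h1 := hfin (cont1 E / 38) (by
      intro R hR
      have := (hcovE R hR).2
      linarith)
    have hP : 0 ≤ √(1 + Real.log N) * FCC.gam E :=
      mul_nonneg (Real.sqrt_nonneg _) (gam_nonneg hEc)
    rw [one_div, inv_mul_le_iff₀ (by positivity)]
    have h2 : cont1 E ≤ 38 * (2 * C * (√(1 + Real.log N) * FCC.gam E)) := by linarith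
    have h3 : (2 * C * 38) * (√(1 + Real.log N) * FCC.gam E) ≤
        (2 * C * 38) * (√(1 + Real.log N) * FCC.gam E) * Real.pi :=
      le_mul_of_one_le_right (by positivity) hpi
    nlinarith
  · have h1 := hfin (FCC.Fav E / (38 * Real.pi)) (by
      intro R hR
      have := (hcovE R hR).1
      rw [div_le_iff₀ (by positivity)]
      linarith)
    rw [div_le_iff₀ (by positivity)] at h1
    rw [one_div, inv_mul_le_iff₀ (by positivity)]
    linarith

end Pool.Agent.ANL
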