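import Pool.Agent.ANL.Stmts

/-!
# Analytic capacity and few lines: the testing inequality (MP_98e313_an, module TEST)
-/

set_option autoImplicit false

namespace Pool.Agent.ANL

open MeasureTheory Set

namespace TEST

theorem ker_far {ε : ℝ} (hε : 0 < ε) {z : ℂ} (hz : ε ≤ ‖z‖) : ker ε z = 1 / z := by
  unfold ker
  rw [max_eq_left hz]
  have hz0 : z ≠ 0 := by
    rintro rfl
    simp at hz
    linarith
  have hn : ((‖z‖ : ℝ) : ℂ) ^ 2 = z * (starRingEnd ℂ) z := by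
    rw [Complex.mul_conj, Complex.normSq_eq_norm_sq]
    push_cast
    rfl
  rw [hn]
  have hc : (starRingEnd ℂ) z ≠ 0 := by
    simpa using hz0
  field_simp

theorem ker_near {ε : ℝ} (hε : 0 < ε) {z : ℂ} (hz : ‖z‖ < ε) : ‖ker ε z‖ ≤ 1 / ε := by
  unfold ker
  rw [max_eq_right hz.le, norm_div, norm_pow, Complex.norm_real, Real.norm_eq_abs,
    abs_of_pos hε, RCLike.norm_conj, div_le_div_iff₀ (by positivity) hε]
  nlinarith [norm_nonneg z]

open Classical in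
/-- The truncated Cauchy transform. -/
noncomputable def Ct (X : Finset ℂ) (w : ℂ → ℝ) (ε : ℝ) (x : ℂ) : ℂ :=
  ∑ y ∈ X, if ε ≤ ‖x - y‖ then (w y : ℂ) / (x - y) else 0

open Classical in
theorem near_mass {X : Finset ℂ} {w : ℂ → ℝ} {ε : ℝ} (hG : Grow X w ε) (x : ℂ) :
    ∑ y ∈ X, (if ‖x - y‖ < ε then w y else 0) ≤ ε := by
  rw [← Finset.sum_filter]
  refine le_trans ?_ (hG.2 x ε le_rfl)
  refine Finset.sum_le_sum_of_subset_of_nonneg ?_ ?_
  · intro y hy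
    simp only [Finset.mem_filter] at hy ⊢
    exact ⟨hy.1, by rw [norm_sub_rev]; exact hy.2.le⟩
  · intro y hy _
    exact hG.1 y (Finset.mem_filter.mp hy).1

theorem diff_le {X : Finset ℂ} {w : ℂ → ℝ} {ε : ℝ} (hε : 0 < ε) (hG : Grow X w ε) (x : ℂ) :
    ‖Cw X w ε x - Ct X w ε x‖ ≤ 1 := by
  classical
  unfold Cw Ct
  rw [← Finset.sum_sub_distrib]
  refine (norm_sum_le _ _).trans ?_
  have h : ∀ y ∈ X, ‖(w y : ℂ) * ker ε (x - y) -
      (if ε ≤ ‖x - y‖ then (w y : ℂ) / (x - y) else 0)‖ ≤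
      (if ‖x - y‖ < ε then w y else 0) * (1 / ε) := by
    intro y hy
    by_cases h : ε ≤ ‖x - y‖
    · rw [if_pos h, if_neg (not_lt.mpr h), ker_far hε h, mul_one_div, sub_self, norm_zero,
        zero_mul]
    · rw [if_neg h, if_pos (not_le.mp h), sub_zero, norm_mul, Complex.norm_real,
        Real.norm_eq_abs, abs_of_nonneg (hG.1 y hy)]
      exact mul_le_mul_of_nonneg_left (ker_near hε (not_le.mp h)) (hG.1 y hy)
  refine (Finset.sum_le_sum h).trans ?_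
  rw [← Finset.sum_mul, mul_one_div, div_le_one hε]
  exact near_mass hG x

open Classical in
theorem sq_expand (X : Finset ℂ) (w : ℂ → ℝ) (ε : ℝ) (x : ℂ) :
    ‖Ct X w ε x‖ ^ 2 = ∑ y ∈ X, ∑ z ∈ X, (if ε ≤ ‖x - y‖ ∧ ε ≤ ‖x - z‖ then
      w y * w z * (1 / ((x - y) * (starRingEnd ℂ) (x - z))).re else 0) := by
  have h1 : ‖Ct X w ε x‖ ^ 2 = (Ct X w ε x * (starRingEnd ℂ) (Ct X w ε x)).re := by
    rw [Complex.mul_conj, Complex.normSq_eq_norm_sq, Complex.ofReal_re]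
  rw [h1]
  unfold Ct
  rw [map_sum, Finset.sum_mul_sum, Complex.re_sum]
  refine Finset.sum_congr rfl fun y _ => ?_
  rw [Complex.re_sum]
  refine Finset.sum_congr rfl fun z _ => ?_
  by_cases h1 : ε ≤ ‖x - y‖
  · by_cases h2 : ε ≤ ‖x - z‖
    · rw [if_pos h1, if_pos h2, if_pos ⟨h1, h2⟩, map_div₀, Complex.conj_ofReal]
      have : (w y : ℂ) / (x - y) * ((w z : ℂ) / (starRingEnd ℂ) (x - z)) =
          ((w y * w z : ℝ) : ℂ) * (1 / ((x - y) * (starRingEnd ℂ) (x - z))) := by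
        push_cast
        rw [div_mul_div_comm, mul_one_div]
      rw [this, Complex.re_ofReal_mul]
    · simp [h2]
  · simp [h1]

open Classical in
theorem pointwise {X : Finset ℂ} {w : ℂ → ℝ} {ε : ℝ} (hε : 0 < ε) (hw : ∀ x ∈ X, 0 ≤ w x)
    {x y z : ℂ} (hx : x ∈ X) (hy : y ∈ X) (hz : z ∈ X) :
    w x * (if ε ≤ ‖x - y‖ ∧ ε ≤ ‖x - z‖ then
      w y * w z * (1 / ((x - y) * (starRingEnd ℂ) (x - z))).re else 0) ≤
    (if ε ≤ ‖x - y‖ ∧ ε ≤ ‖y - z‖ ∧ ε ≤ ‖z - x‖ then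
      w x * w y * w z * (1 / ((x - y) * (starRingEnd ℂ) (x - z))).re else 0) +
    w x * ((if ε ≤ ‖y - x‖ then w y / ‖y - x‖ ^ 2 else 0) *
      (2 * (if ‖y - z‖ < ε then w z else 0))) := by
  have hwx := hw x hx
  have hwy := hw y hy
  have hwz := hw z hz
  have hxz : ‖z - x‖ = ‖x - z‖ := norm_sub_rev _ _
  have hxy : ‖y - x‖ = ‖x - y‖ := norm_sub_rev _ _
  rw [hxz, hxy]
  by_cases h1 : ε ≤ ‖x - y‖
  swap
  · rw [if_neg (fun h => h1 h.1), if_neg (fun h => h1 h.1), if_neg h1]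
    simp
  by_cases h2 : ε ≤ ‖x - z‖
  swap
  · rw [if_neg (fun h => h2 h.2), if_neg (fun h => h2 h.2.2)]
    have : 0 ≤ (if ε ≤ ‖x - y‖ then w y / ‖x - y‖ ^ 2 else 0) := by
      split_ifs <;> positivity
    have h' : 0 ≤ (if ‖y - z‖ < ε then w z else 0) := by
      split_ifs
      · exact hwz
      · exact le_rfl
    have := mul_nonneg hwx (mul_nonneg this (mul_nonneg (by norm_num : (0 : ℝ) ≤ 2) h'))
    linarith
  by_cases h3 : ε ≤ ‖y - z‖
  · rw [if_pos ⟨h1, h2⟩, if_pos ⟨h1, h3, h2⟩, if_neg (not_lt.mpr h3)]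
    simp only [mul_zero, add_zero]
    apply le_of_eq
    ring
  · rw [if_pos ⟨h1, h2⟩, if_neg (fun h => h3 h.2.1), if_pos h1, if_pos (not_le.mp h3), zero_add]
    have h3' := not_le.mp h3
    have hpos : 0 < ‖x - y‖ := hε.trans_le h1
    have hpos2 : 0 < ‖x - z‖ := hε.trans_le h2
    have htri : ‖x - y‖ ≤ ‖x - z‖ + ‖y - z‖ := by
      have := norm_sub_le (x - z) (y - z)
      have e : (x - z) - (y - z) = x - y := by ring
      rwa [e] at this
    have hb : ‖x - y‖ ≤ 2 * ‖x - z‖ := by linarith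
    have hre : (1 / ((x - y) * (starRingEnd ℂ) (x - z))).re ≤ 2 / ‖x - y‖ ^ 2 := by
      refine (Complex.re_le_norm _).trans ?_
      rw [norm_div, norm_mul, norm_one, RCLike.norm_conj,
        div_le_div_iff₀ (by positivity) (by positivity)]
      nlinarith
    have : w y * w z * (1 / ((x - y) * (starRingEnd ℂ) (x - z))).re ≤
        w y / ‖x - y‖ ^ 2 * (2 * w z) := by
      refine (mul_le_mul_of_nonneg_left hre (mul_nonneg hwy hwz)).trans (le_of_eq ?_)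
      ring
    exact mul_le_mul_of_nonneg_left this hwx

open Classical in
theorem inner_bound (hT : Stmt_TAIL) {X : Finset ℂ} {w : ℂ → ℝ} {ε : ℝ} (hε : 0 < ε)
    (hG : Grow X w ε) (x : ℂ) :
    ∑ y ∈ X, ∑ z ∈ X, ((if ε ≤ ‖y - x‖ then w y / ‖y - x‖ ^ 2 else 0) *
      (2 * (if ‖y - z‖ < ε then w z else 0))) ≤ 8 := by
  have h1 : ∀ y ∈ X, ∑ z ∈ X, ((if ε ≤ ‖y - x‖ then w y / ‖y - x‖ ^ 2 else 0) *
      (2 * (if ‖y - z‖ < ε then w z else 0))) ≤
      (if ε ≤ ‖y - x‖ then w y / ‖y - x‖ ^ 2 else 0) * (2 * ε) := by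
    intro y hy
    rw [← Finset.mul_sum, ← Finset.mul_sum]
    have h0 : 0 ≤ (if ε ≤ ‖y - x‖ then w y / ‖y - x‖ ^ 2 else 0) := by
      have := hG.1 y hy
      split_ifs <;> positivity
    exact mul_le_mul_of_nonneg_left
      (mul_le_mul_of_nonneg_left (near_mass hG y) (by norm_num)) h0
  refine (Finset.sum_le_sum h1).trans ?_
  rw [← Finset.sum_mul, ← Finset.sum_filter]
  have h2 := hT X w ε hε hG x ε le_rfl
  have h3 : ∑ y ∈ X.filter (fun y => ε ≤ ‖y - x‖), w y / ‖y - x‖ ^ 2 * (2 * ε) ≤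
      4 / ε * (2 * ε) := by
    rw [← Finset.sum_mul]
    exact mul_le_mul_of_nonneg_right h2 (by positivity)
  rw [← Finset.sum_mul] at h3
  refine h3.trans (le_of_eq ?_)
  field_simp
  norm_num

end TEST

open TEST in
/-- The testing inequality. -/
theorem TEST_thm : Stmt_CURV → Stmt_SYM → Stmt_TAIL → Stmt_TEST := by
  classical
  rintro ⟨C, hC, hcurv⟩ hS hT
  refine ⟨C / 3 + 18, by positivity, ?_⟩
  intro N lab κ X w ε hN hε hG hO
  have hw := hG.1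
  have hW : 0 ≤ ∑ x ∈ X, w x := Finset.sum_nonneg hw
  have hlog : 0 ≤ Real.log N := Real.log_nonneg (by exact_mod_cast hN)
  have hT3 := hcurv N lab κ X w ε hN hε hG hO
  have hA : ∑ x ∈ X, w x * ‖Ct X w ε x‖ ^ 2 ≤ T3 X w ε / 6 + 8 * ∑ x ∈ X, w x := by
    have e1 : ∀ x ∈ X, w x * ‖Ct X w ε x‖ ^ 2 ≤
        (∑ y ∈ X, ∑ z ∈ X, (if ε ≤ ‖x - y‖ ∧ ε ≤ ‖y - z‖ ∧ ε ≤ ‖z - x‖ then
          w x * w y * w z * (1 / ((x - y) * (starRingEnd ℂ) (x - z))).re else 0)) +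
        8 * w x := by
      intro x hx
      rw [sq_expand, Finset.mul_sum]
      have e2 : ∀ y ∈ X, w x * ∑ z ∈ X, (if ε ≤ ‖x - y‖ ∧ ε ≤ ‖x - z‖ then
          w y * w z * (1 / ((x - y) * (starRingEnd ℂ) (x - z))).re else 0) ≤
          (∑ z ∈ X, (if ε ≤ ‖x - y‖ ∧ ε ≤ ‖y - z‖ ∧ ε ≤ ‖z - x‖ then
            w x * w y * w z * (1 / ((x - y) * (starRingEnd ℂ) (x - z))).re else 0)) +
          w x * ∑ z ∈ X, ((if ε ≤ ‖y - x‖ then w y / ‖y - x‖ ^ 2 else 0) *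
            (2 * (if ‖y - z‖ < ε then w z else 0))) := by
        intro y hy
        rw [Finset.mul_sum, Finset.mul_sum, ← Finset.sum_add_distrib]
        exact Finset.sum_le_sum fun z hz => pointwise hε hw hx hy hz
      refine (Finset.sum_le_sum e2).trans ?_
      rw [Finset.sum_add_distrib, ← Finset.mul_sum]
      have e3 := mul_le_mul_of_nonneg_left (inner_bound hT hε hG x) (hw x hx)
      linarith
    refine (Finset.sum_le_sum e1).trans ?_
    rw [Finset.sum_add_distrib, ← Finset.mul_sum, hS X w ε hε]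
  have hB : ∑ x ∈ X, w x * ‖Cw X w ε x‖ ^ 2 ≤
      2 * ∑ x ∈ X, w x * ‖Ct X w ε x‖ ^ 2 + 2 * ∑ x ∈ X, w x := by
    rw [Finset.mul_sum, Finset.mul_sum, ← Finset.sum_add_distrib]
    refine Finset.sum_le_sum fun x hx => ?_
    have h1 := diff_le hε hG x
    have h2 : ‖Cw X w ε x‖ ≤ ‖Ct X w ε x‖ + 1 := by
      have := norm_add_le (Cw X w ε x - Ct X w ε x) (Ct X w ε x)
      rw [sub_add_cancel] at this
      linarith
    have h3 : ‖Cw X w ε x‖ ^ 2 ≤ 2 * ‖Ct X w ε x‖ ^ 2 + 2 := by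
      have h4 : ‖Cw X w ε x‖ ^ 2 ≤ (‖Ct X w ε x‖ + 1) ^ 2 :=
        pow_le_pow_left₀ (norm_nonneg _) h2 2
      nlinarith [sq_nonneg (‖Ct X w ε x‖ - 1)]
    have := mul_le_mul_of_nonneg_left h3 (hw x hx)
    linarith
  have hfin : (18 : ℝ) * ∑ x ∈ X, w x ≤ 18 * (1 + Real.log N) * ∑ x ∈ X, w x := by
    nlinarith [mul_nonneg hlog hW]
  calc ∑ x ∈ X, w x * ‖Cw X w ε x‖ ^ 2
      ≤ T3 X w ε / 3 + 18 * ∑ x ∈ X, w x := by linarith
    _ ≤ C * (1 + Real.log N) * (∑ x ∈ X, w x) / 3 +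
        18 * (1 + Real.log N) * ∑ x ∈ X, w x := by linarith
    _ = (C / 3 + 18) * (1 + Real.log N) * ∑ x ∈ X, w x := by ring

end Pool.Agent.ANL
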