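import Pool.Agent.ANL.Stmts

/-!
# TSUM: the sum over all triples with shortest first side (MP_98e313_an)
-/

set_option autoImplicit false

namespace Pool.Agent.ANL

open MeasureTheory Set

namespace TSUM

theorem swap3 {ι : Type*} (s : Finset ι) (X : Finset ℂ) (f : ι → ℂ → ℂ → ℂ → ℝ) :
    ∑ x ∈ X, ∑ z ∈ X, ∑ y ∈ X, ∑ i ∈ s, f i x z y =
      ∑ i ∈ s, ∑ x ∈ X, ∑ z ∈ X, ∑ y ∈ X, f i x z y := by
  have h1 : ∀ x z : ℂ, ∑ y ∈ X, ∑ i ∈ s, f i x z y = ∑ i ∈ s, ∑ y ∈ X, f i x z y :=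
    fun x z => Finset.sum_comm
  have h2 : ∀ x : ℂ, ∑ z ∈ X, ∑ i ∈ s, ∑ y ∈ X, f i x z y =
      ∑ i ∈ s, ∑ z ∈ X, ∑ y ∈ X, f i x z y := fun x => Finset.sum_comm
  calc ∑ x ∈ X, ∑ z ∈ X, ∑ y ∈ X, ∑ i ∈ s, f i x z y
      = ∑ x ∈ X, ∑ z ∈ X, ∑ i ∈ s, ∑ y ∈ X, f i x z y :=
        Finset.sum_congr rfl fun x _ => Finset.sum_congr rfl fun z _ => h1 x z
    _ = ∑ x ∈ X, ∑ i ∈ s, ∑ z ∈ X, ∑ y ∈ X, f i x z y :=
        Finset.sum_congr rfl fun x _ => h2 x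
    _ = ∑ i ∈ s, ∑ x ∈ X, ∑ z ∈ X, ∑ y ∈ X, f i x z y := Finset.sum_comm

/-- A nonnegative term is at most the iterated sum. -/
theorem le_five (B0 B1 : ℤ) (J : ℕ)
    (F : ℤ → ℤ → ℕ → Bool × Bool → Bool × Bool → ℝ) (hF : ∀ d b j w' w, 0 ≤ F d b j w' w)
    {d b : ℤ} {j : ℕ} (hd : d ∈ Finset.Icc B0 B1) (hb : b ∈ Finset.Icc B0 d)
    (hj : j ∈ Finset.range J) (w' w : Bool × Bool) :
    F d b j w' w ≤ ∑ d ∈ Finset.Icc B0 B1, ∑ b ∈ Finset.Icc B0 d, ∑ j ∈ Finset.range J,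
      ∑ w' : Bool × Bool, ∑ w : Bool × Bool, F d b j w' w := by
  have h1 : F d b j w' w ≤ ∑ w : Bool × Bool, F d b j w' w :=
    Finset.single_le_sum (f := fun w => F d b j w' w) (fun w _ => hF _ _ _ _ _)
      (Finset.mem_univ w)
  have h2 : ∑ w : Bool × Bool, F d b j w' w ≤
      ∑ w' : Bool × Bool, ∑ w : Bool × Bool, F d b j w' w :=
    Finset.single_le_sum (f := fun w' => ∑ w : Bool × Bool, F d b j w' w)
      (fun w' _ => Finset.sum_nonneg fun w _ => hF _ _ _ _ _) (Finset.mem_univ w')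
  have h3 : ∑ w' : Bool × Bool, ∑ w : Bool × Bool, F d b j w' w ≤
      ∑ j ∈ Finset.range J, ∑ w' : Bool × Bool, ∑ w : Bool × Bool, F d b j w' w :=
    Finset.single_le_sum (f := fun j => ∑ w' : Bool × Bool, ∑ w : Bool × Bool, F d b j w' w)
      (fun j _ => Finset.sum_nonneg fun w' _ => Finset.sum_nonneg fun w _ => hF _ _ _ _ _) hj
  have h4 : ∑ j ∈ Finset.range J, ∑ w' : Bool × Bool, ∑ w : Bool × Bool, F d b j w' w ≤
      ∑ b ∈ Finset.Icc B0 d, ∑ j ∈ Finset.range J, ∑ w' : Bool × Bool, ∑ w : Bool × Bool,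
        F d b j w' w :=
    Finset.single_le_sum (f := fun b => ∑ j ∈ Finset.range J, ∑ w' : Bool × Bool,
        ∑ w : Bool × Bool, F d b j w' w)
      (fun b _ => Finset.sum_nonneg fun j _ => Finset.sum_nonneg fun w' _ =>
        Finset.sum_nonneg fun w _ => hF _ _ _ _ _) hb
  have h5 : ∑ b ∈ Finset.Icc B0 d, ∑ j ∈ Finset.range J, ∑ w' : Bool × Bool,
      ∑ w : Bool × Bool, F d b j w' w ≤ ∑ d ∈ Finset.Icc B0 B1, ∑ b ∈ Finset.Icc B0 d,
        ∑ j ∈ Finset.range J, ∑ w' : Bool × Bool, ∑ w : Bool × Bool, F d b j w' w :=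
    Finset.single_le_sum (f := fun d => ∑ b ∈ Finset.Icc B0 d, ∑ j ∈ Finset.range J,
        ∑ w' : Bool × Bool, ∑ w : Bool × Bool, F d b j w' w)
      (fun d _ => Finset.sum_nonneg fun b _ => Finset.sum_nonneg fun j _ =>
        Finset.sum_nonneg fun w' _ => Finset.sum_nonneg fun w _ => hF _ _ _ _ _) hd
  exact h1.trans (h2.trans (h3.trans (h4.trans h5)))

/-- The mass of a cell. -/
theorem cell_mass (hC : Stmt_CELL) (X : Finset ℂ) (m : ℂ → ℝ) (ε : ℝ) (hG : Grow X m ε)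
    (u : ℂ) (k : ℤ) (R : ℝ) (hR : 3 / 2 * (2 : ℝ) ^ (-k) ≤ R) (hε : ε ≤ R) (w : ℂ) :
    Mc X m (cell u k) w ≤ R := by
  classical
  refine le_trans ?_ (hG.2 w R hε)
  unfold Mc
  refine Finset.sum_le_sum_of_subset_of_nonneg ?_ ?_
  · intro y hy
    rw [Finset.mem_filter] at hy ⊢
    exact ⟨hy.1, (hC.2.1 u k y w hy.2).trans hR⟩
  · intro y hy _
    exact hG.1 y (Finset.mem_filter.mp hy).1

open Classical in
/-- The bound for one type. -/
theorem one_type (hC : Stmt_CELL) (hH : Stmt_HSUM) {N : ℕ} (lab : ℂ → Fin N) (κ : Fin N → ℝ)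
    (X : Finset ℂ) (m : ℂ → ℝ) (ε : ℝ) (K : ℕ) (hm : ∀ x ∈ X, 0 < m x) (hG : Grow X m ε)
    (b d : ℤ) (j : ℕ) (w' w : Bool × Bool) (hb : ε ≤ 2 * (2 : ℝ) ^ b)
    (hd : ε ≤ 2 * (2 : ℝ) ^ d) :
    ∑ x ∈ X, ∑ z ∈ X, ∑ y ∈ X, 16 * (1 / 4) ^ j / (4 : ℝ) ^ d *
      (if Pr X lab (cell (sh K w') (-b - 4)) (cell (sh K w') (-b - 4 + (j + 14 : ℕ)))
        (cell (sh K w) (-d - 9)) (cell (sh K w) (-d - 9 + (j + 14 : ℕ))) (ex κ d j) x z y
        then m x * m z * m y else 0) ≤ 16 * 24 * 768 * Wt X m lab κ K b d j w' w := by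
  have h2b : (0 : ℝ) < (2 : ℝ) ^ b := zpow_pos (by norm_num) _
  have h2d : (0 : ℝ) < (2 : ℝ) ^ d := zpow_pos (by norm_num) _
  have hA : ∀ v ∈ X, Mc X m (cell (sh K w') (-b - 4)) v ≤ 24 * (2 : ℝ) ^ b := by
    intro v _
    refine cell_mass hC X m ε hG _ _ _ ?_ (by linarith) v
    have h1 : -(-b - 4) = b + 4 := by ring
    rw [h1, zpow_add₀ (by norm_num : (2 : ℝ) ≠ 0)]
    norm_num
    linarith
  have hB : ∀ v ∈ X, Mc X m (cell (sh K w) (-d - 9)) v ≤ 768 * (2 : ℝ) ^ d := by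
    intro v _
    refine cell_mass hC X m ε hG _ _ _ ?_ (by linarith) v
    have h1 : -(-d - 9) = d + 9 := by ring
    rw [h1, zpow_add₀ (by norm_num : (2 : ℝ) ≠ 0)]
    norm_num
    linarith
  have h1 := hH N X m lab (cell (sh K w') (-b - 4)) (cell (sh K w') (-b - 4 + (j + 14 : ℕ)))
    (cell (sh K w) (-d - 9)) (cell (sh K w) (-d - 9 + (j + 14 : ℕ))) (ex κ d j)
    (24 * (2 : ℝ) ^ b) (768 * (2 : ℝ) ^ d) hm hA hB
  have h4 : (4 : ℝ) ^ d = (2 : ℝ) ^ d * (2 : ℝ) ^ d := by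
    rw [← mul_zpow]
    norm_num
  have hc : 0 ≤ 16 * (1 / 4) ^ j / (4 : ℝ) ^ d := by positivity
  have h5 := mul_le_mul_of_nonneg_left h1 hc
  rw [Finset.mul_sum] at h5
  simp only [Finset.mul_sum] at h5 ⊢
  refine le_trans h5 (le_of_eq ?_)
  unfold Wt
  rw [h4]
  field_simp

end TSUM

open Classical in
theorem TSUM_thm : Stmt_CELL → Stmt_TRI → Stmt_HSUM → Stmt_TSUM := by
  intro hC hT hH N lab κ X m ε K hε hm hG hO hK
  have hex : ∀ t : ℂ × ℂ × ℂ, ∃ J : ℕ, crs (t.2.1 - t.1) (t.2.2 - t.1) ≠ 0 →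
      (1 / 2 : ℝ) ^ J * ((2 : ℝ) ^ K) ^ 2 < |crs (t.2.1 - t.1) (t.2.2 - t.1)| := by
    intro t
    by_cases h : crs (t.2.1 - t.1) (t.2.2 - t.1) = 0
    · exact ⟨0, fun h' => absurd h h'⟩
    · have h1 : 0 < |crs (t.2.1 - t.1) (t.2.2 - t.1)| := abs_pos.mpr h
      have h2 : (0 : ℝ) < ((2 : ℝ) ^ K) ^ 2 := by positivity
      obtain ⟨n, hn⟩ := exists_pow_lt_of_lt_one (div_pos h1 h2)
        (by norm_num : (1 / 2 : ℝ) < 1)
      exact ⟨n, fun _ => (lt_div_iff₀ h2).mp hn⟩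
  choose Jt hJt using hex
  refine ⟨Int.log 2 ε, K, (X ×ˢ X ×ˢ X).sup Jt + 1, ?_⟩
  set B0 := Int.log 2 ε with hB0
  set J := (X ×ˢ X ×ˢ X).sup Jt + 1 with hJ
  have hlo : (2 : ℝ) ^ B0 ≤ ε := by
    have h := Int.zpow_log_le_self (b := 2) (r := ε) (by norm_num) hε
    simpa using h
  have hhi : ε < (2 : ℝ) ^ (B0 + 1) := by
    have h := Int.lt_zpow_succ_log_self (b := 2) (by norm_num) ε
    simpa using h
  -- the type sums
  have key : ∀ x ∈ X, ∀ z ∈ X, ∀ y ∈ X,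
      (if ε ≤ ‖z - x‖ ∧ ‖z - x‖ ≤ ‖y - x‖ ∧ ‖z - x‖ ≤ ‖y - z‖ then
        m x * m z * m y * cu x z y else 0) ≤
      ∑ d ∈ Finset.Icc B0 (K : ℤ), ∑ b ∈ Finset.Icc B0 d, ∑ j ∈ Finset.range J,
        ∑ w' : Bool × Bool, ∑ w : Bool × Bool, 16 * (1 / 4) ^ j / (4 : ℝ) ^ d *
        (if Pr X lab (cell (sh K w') (-b - 4)) (cell (sh K w') (-b - 4 + (j + 14 : ℕ)))
          (cell (sh K w) (-d - 9)) (cell (sh K w) (-d - 9 + (j + 14 : ℕ))) (ex κ d j) x z y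
          then m x * m z * m y else 0) := by
    intro x hx z hz y hy
    have hmm : 0 < m x * m z * m y := mul_pos (mul_pos (hm x hx) (hm z hz)) (hm y hy)
    have hF : ∀ (d b : ℤ) (j : ℕ) (w' w : Bool × Bool), 0 ≤ 16 * (1 / 4) ^ j / (4 : ℝ) ^ d *
        (if Pr X lab (cell (sh K w') (-b - 4)) (cell (sh K w') (-b - 4 + (j + 14 : ℕ)))
          (cell (sh K w) (-d - 9)) (cell (sh K w) (-d - 9 + (j + 14 : ℕ))) (ex κ d j) x z y
          then m x * m z * m y else 0) := by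
      intro d b j w' w
      refine mul_nonneg (by positivity) ?_
      split_ifs
      · exact hmm.le
      · exact le_rfl
    have hnn : (0 : ℝ) ≤ ∑ d ∈ Finset.Icc B0 (K : ℤ), ∑ b ∈ Finset.Icc B0 d,
        ∑ j ∈ Finset.range J, ∑ w' : Bool × Bool, ∑ w : Bool × Bool,
        16 * (1 / 4) ^ j / (4 : ℝ) ^ d *
        (if Pr X lab (cell (sh K w') (-b - 4)) (cell (sh K w') (-b - 4 + (j + 14 : ℕ)))
          (cell (sh K w) (-d - 9)) (cell (sh K w) (-d - 9 + (j + 14 : ℕ))) (ex κ d j) x z y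
          then m x * m z * m y else 0) :=
      Finset.sum_nonneg fun d _ => Finset.sum_nonneg fun b _ => Finset.sum_nonneg fun j _ =>
        Finset.sum_nonneg fun w' _ => Finset.sum_nonneg fun w _ => hF d b j w' w
    split_ifs with hcond
    · by_cases hcr : crs (z - x) (y - x) = 0
      · have h0 : cu x z y = 0 := by
          unfold cu
          rw [hcr]
          simp
        rw [h0, mul_zero]
        exact hnn
      · obtain ⟨h1, h2, h3⟩ := hcond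
        have hpos : 0 < ‖z - x‖ := lt_of_lt_of_le hε h1
        obtain ⟨b, d, j, w', w, hbd, hb1, hb2, hd1, hd2, hcj, hcu, hPr⟩ :=
          hT N lab κ X K hO x hx z hz y hy hpos h2 h3 (hK x hx y hy) hcr
        have hbB : B0 ≤ b := by
          have h4 : (2 : ℝ) ^ B0 < (2 : ℝ) ^ (b + 1) := lt_of_le_of_lt (hlo.trans h1) hb2
          have h5 := (zpow_lt_zpow_iff_right₀ (by norm_num : (1 : ℝ) < 2)).mp h4
          omega
        have hyK : ‖y - x‖ ≤ (2 : ℝ) ^ K := by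
          have h4 := hK x hx y hy
          have h5 := norm_nonneg (y - x)
          linarith
        have hdB : d ≤ (K : ℤ) := by
          have h4 : (2 : ℝ) ^ d ≤ (2 : ℝ) ^ (K : ℤ) := by
            rw [zpow_natCast]
            exact hd1.trans hyK
          exact (zpow_le_zpow_iff_right₀ (by norm_num : (1 : ℝ) < 2)).mp h4
        have hjJ : j < J := by
          by_contra hcon
          have hcon' : J ≤ j := not_lt.mp hcon
          have hmem : (x, z, y) ∈ X ×ˢ X ×ˢ X :=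
            Finset.mk_mem_product hx (Finset.mk_mem_product hz hy)
          have h4 : Jt (x, z, y) ≤ (X ×ˢ X ×ˢ X).sup Jt := Finset.le_sup hmem
          have h5 : Jt (x, z, y) ≤ j := by omega
          have h6 := hJt (x, z, y) hcr
          have h7 : (1 / 2 : ℝ) ^ j ≤ (1 / 2 : ℝ) ^ Jt (x, z, y) :=
            pow_le_pow_of_le_one (by norm_num) (by norm_num) h5
          have h8 : ‖z - x‖ * ‖y - x‖ ≤ ((2 : ℝ) ^ K) ^ 2 := by
            rw [sq]
            exact mul_le_mul (h2.trans hyK) hyK (norm_nonneg _) (by positivity)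
          have h9 : (1 / 2 : ℝ) ^ j * (‖z - x‖ * ‖y - x‖) ≤
              (1 / 2 : ℝ) ^ Jt (x, z, y) * ((2 : ℝ) ^ K) ^ 2 :=
            mul_le_mul h7 h8 (by positivity) (by positivity)
          exact absurd (lt_of_le_of_lt (hcj.trans h9) h6) (lt_irrefl _)
        have hle := TSUM.le_five B0 (K : ℤ) J (fun d b j w' w => 16 * (1 / 4) ^ j / (4 : ℝ) ^ d *
          (if Pr X lab (cell (sh K w') (-b - 4)) (cell (sh K w') (-b - 4 + (j + 14 : ℕ)))
            (cell (sh K w) (-d - 9)) (cell (sh K w) (-d - 9 + (j + 14 : ℕ))) (ex κ d j) x z y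
            then m x * m z * m y else 0)) hF
          (Finset.mem_Icc.mpr ⟨hbB.trans hbd, hdB⟩) (Finset.mem_Icc.mpr ⟨hbB, hbd⟩)
          (Finset.mem_range.mpr hjJ) w' w
        refine le_trans ?_ hle
        rw [if_pos hPr, mul_comm]
        exact mul_le_mul_of_nonneg_right hcu hmm.le
    · exact hnn
  unfold T1
  refine le_trans (Finset.sum_le_sum fun x hx => Finset.sum_le_sum fun z hz =>
    Finset.sum_le_sum fun y hy => key x hx z hz y hy) ?_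
  rw [TSUM.swap3, Finset.mul_sum]
  refine Finset.sum_le_sum fun d hd => ?_
  rw [TSUM.swap3, Finset.mul_sum]
  refine Finset.sum_le_sum fun b hb => ?_
  rw [TSUM.swap3, Finset.mul_sum]
  refine Finset.sum_le_sum fun j hj => ?_
  rw [TSUM.swap3, Finset.mul_sum]
  refine Finset.sum_le_sum fun w' _ => ?_
  rw [TSUM.swap3, Finset.mul_sum]
  refine Finset.sum_le_sum fun w _ => ?_
  have hstep : ∀ c : ℤ, B0 ≤ c → ε ≤ 2 * (2 : ℝ) ^ c := by
    intro c hc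
    have h1 : (2 : ℝ) ^ (B0 + 1) ≤ (2 : ℝ) ^ (c + 1) :=
      zpow_le_zpow_right₀ (by norm_num) (by omega)
    have h2 : (2 : ℝ) ^ (c + 1) = 2 * (2 : ℝ) ^ c := by
      rw [zpow_add₀ (by norm_num : (2 : ℝ) ≠ 0)]
      ring
    rw [← h2]
    exact (hhi.le).trans h1
  exact TSUM.one_type hC hH lab κ X m ε K hm hG b d j w' w
    (hstep b (Finset.mem_Icc.mp hb).1) (hstep d (Finset.mem_Icc.mp hd).1)

end Pool.Agent.ANL
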