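import Pool.Agent.ANL.Stmts

set_option autoImplicit false

namespace Pool.Agent.ANL

open MeasureTheory Set

namespace TRI

theorem crs_le (u v : ℂ) : |crs u v| ≤ ‖u‖ * ‖v‖ := by
  have hu : ‖u‖ ^ 2 = u.re ^ 2 + u.im ^ 2 := by
    rw [← Complex.normSq_eq_norm_sq, Complex.normSq_apply]; ring
  have hv : ‖v‖ ^ 2 = v.re ^ 2 + v.im ^ 2 := by
    rw [← Complex.normSq_eq_norm_sq, Complex.normSq_apply]; ring
  apply abs_le_of_sq_le_sq _ (by positivity)
  unfold crs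
  rw [mul_pow, hu, hv]
  nlinarith [sq_nonneg (u.re * v.re + u.im * v.im)]

theorem zp1 (b : ℤ) : (2 : ℝ) ^ (b + 1) = 2 * 2 ^ b := by
  rw [zpow_add₀ (by norm_num)]; norm_num; ring

theorem zp6 (b : ℤ) : (2 : ℝ) ^ (b + 6) = 64 * 2 ^ b := by
  rw [zpow_add₀ (by norm_num)]; norm_num; ring

theorem zpk4 (b : ℤ) : (2 : ℝ) ^ (-b - 4) * 2 ^ (b + 1) = 1 / 8 := by
  rw [← zpow_add₀ (by norm_num)]
  have : -b - 4 + (b + 1) = -3 := by ring
  rw [this]; norm_num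

theorem zpk9 (d : ℤ) : (2 : ℝ) ^ (-d - 9) * 2 ^ (d + 6) = 1 / 8 := by
  rw [← zpow_add₀ (by norm_num)]
  have : -d - 9 + (d + 6) = -3 := by ring
  rw [this]; norm_num

theorem zpn4 (b : ℤ) : (2 : ℝ) ^ (-(-b - 4)) = 16 * 2 ^ b := by
  have : -(-b - 4) = b + 4 := by ring
  rw [this, zpow_add₀ (by norm_num)]; norm_num; ring

theorem zpf4 (b : ℤ) (j : ℕ) :
    (2 : ℝ) ^ (-(-b - 4 + ((j + 14 : ℕ) : ℤ))) = 2 ^ b * (1 / 1024) * (1 / 2) ^ j := by
  have : -(-b - 4 + ((j + 14 : ℕ) : ℤ)) = b + (-10) + (-(j : ℤ)) := by push_cast; ring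
  rw [this, zpow_add₀ (by norm_num), zpow_add₀ (by norm_num), zpow_neg 2 (j : ℤ), zpow_natCast,
    one_div_pow, one_div ((2 : ℝ) ^ j)]
  norm_num

theorem zpf9 (d : ℤ) (j : ℕ) :
    (2 : ℝ) ^ (-(-d - 9 + ((j + 14 : ℕ) : ℤ))) = 2 ^ d * (1 / 32) * (1 / 2) ^ j := by
  have : -(-d - 9 + ((j + 14 : ℕ) : ℤ)) = d + (-5) + (-(j : ℤ)) := by push_cast; ring
  rw [this, zpow_add₀ (by norm_num), zpow_add₀ (by norm_num), zpow_neg 2 (j : ℤ), zpow_natCast,
    one_div_pow, one_div ((2 : ℝ) ^ j)]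
  norm_num

/-- the real number inequality of the last item -/
theorem last {s r q η κ a b c Dd C C' : ℝ} (hs : 0 < s) (hsr : s ≤ r) (hq : 0 < q)
    (hη : η = 3 / 64 * q) (hq1 : q ≤ 1) (hκ : 0 ≤ κ) (hDd : Dd ≤ r) (hDd2 : r < 2 * Dd)
    (_ha0 : 0 ≤ a) (_hb0 : 0 ≤ b) (hc0 : 0 ≤ c)
    (ha : a ≤ s + 2 * (η * s)) (hb : b ≤ r + η * r + η * s) (hb' : r ≤ b + η * r + η * s)
    (hc : c ≤ 2 * r + η * r + η * s)
    (hC : q / 2 * (s * r) < C) (hG : C ≤ C' + 8 * η * s * r) (hO : C' ≤ κ * a * b * c)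
    (hO2 : κ * b ≤ 1) : q < 48 * κ * Dd ∧ κ * Dd ≤ 2 := by
  have hr : 0 < r := hs.trans_le hsr
  have hη0 : 0 < η := by rw [hη]; positivity
  have hη1 : η ≤ 3 / 64 := by rw [hη]; linarith
  have hηs : η * s ≤ η * r := mul_le_mul_of_nonneg_left hsr hη0.le
  have hηr : η * r ≤ 3 / 64 * r := mul_le_mul_of_nonneg_right hη1 hr.le
  have hηs2 : η * s ≤ 3 / 64 * s := mul_le_mul_of_nonneg_right hη1 hs.le
  have ha2 : a ≤ 11 / 10 * s := by linarith
  have hb2 : b ≤ 11 / 10 * r := by linarith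
  have hc2 : c ≤ 21 / 10 * r := by linarith
  have hb3 : 9 / 10 * r ≤ b := by linarith
  have h1 : κ * a * b * c ≤ κ * (11 / 10 * s) * (11 / 10 * r) * (21 / 10 * r) := by
    gcongr
  have h2 : 8 * η * s * r = 3 / 8 * q * (s * r) := by rw [hη]; ring
  have hsrp : 0 < s * r := mul_pos hs hr
  have h3 : 1 / 8 * q * (s * r) < 3 * κ * r * (s * r) := by
    have h4 : κ * (11 / 10 * s) * (11 / 10 * r) * (21 / 10 * r) ≤ 3 * κ * r * (s * r) := by
      have : 0 ≤ κ * r * (s * r) := by positivity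
      nlinarith
    nlinarith
  have h5 : 1 / 8 * q < 3 * κ * r := lt_of_mul_lt_mul_right h3 hsrp.le
  constructor
  · have : κ * r ≤ κ * (2 * Dd) := mul_le_mul_of_nonneg_left hDd2.le hκ
    linarith
  · have h6 : κ * (9 / 10 * r) ≤ κ * b := mul_le_mul_of_nonneg_left hb3 hκ
    have h7 : κ * Dd ≤ κ * r := mul_le_mul_of_nonneg_left hDd hκ
    linarith

end TRI

theorem TRI_thm : Stmt_GEOM → Stmt_CELL → Stmt_TRI := by
  rintro hGEOM ⟨_, hC2, hC3⟩ N lab κ X K hOn x hx z hz y hy hs0 hsr hsyz hK hne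
  set s : ℝ := ‖z - x‖ with hs
  set r : ℝ := ‖y - x‖ with hr
  have hr0 : 0 < r := hs0.trans_le hsr
  obtain ⟨b, hb1, hb2⟩ := exists_mem_Ico_zpow hs0 (one_lt_two (α := ℝ))
  obtain ⟨d, hd1, hd2⟩ := exists_mem_Ico_zpow hr0 (one_lt_two (α := ℝ))
  have hB0 : (0 : ℝ) < 2 ^ b := by positivity
  have hD0 : (0 : ℝ) < 2 ^ d := by positivity
  have hbd : b ≤ d := by
    have h1 : (2 : ℝ) ^ b < 2 ^ (d + 1) := (hb1.trans hsr).trans_lt hd2
    have := (zpow_lt_zpow_iff_right₀ (one_lt_two (α := ℝ))).1 h1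
    omega
  have hC0 : 0 < |crs (z - x) (y - x)| := abs_pos.2 hne
  have hCle : |crs (z - x) (y - x)| ≤ s * r := TRI.crs_le _ _
  have hsrp : 0 < s * r := mul_pos hs0 hr0
  set σ : ℝ := |crs (z - x) (y - x)| / (s * r) with hσ
  have hσ0 : 0 < σ := div_pos hC0 hsrp
  have hσ1 : σ ≤ 1 := by rw [hσ, div_le_one hsrp]; exact hCle
  have hσe : |crs (z - x) (y - x)| = σ * (s * r) := by rw [hσ]; field_simp
  obtain ⟨j, hj1, hj2⟩ := exists_nat_pow_near_of_lt_one hσ0 hσ1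
    (show (0 : ℝ) < 1 / 2 by norm_num) (by norm_num)
  have hKd : -(K : ℤ) ≤ -d - 9 := by
    have h1 : (2 : ℝ) ^ (d + 9) ≤ 2 ^ (K : ℤ) := by
      rw [zpow_natCast, zpow_add₀ (by norm_num)]
      norm_num
      linarith
    have := (zpow_le_zpow_iff_right₀ (one_lt_two (α := ℝ))).1 h1
    omega
  obtain ⟨ω', hω'⟩ := hC3 K (-b - 4) (by omega) (2 ^ (b + 1)) (TRI.zpk4 b).le x
  obtain ⟨ω, hω⟩ := hC3 K (-d - 9) hKd (2 ^ (d + 6)) (TRI.zpk9 d).le x
  have hBD : (2 : ℝ) ^ b ≤ 2 ^ d := zpow_le_zpow_right₀ one_le_two hbd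
  refine ⟨b, d, j, ω', ω, hbd, hb1, hb2, hd1, hd2, ?_, ?_, ?_, ?_, ?_, ?_⟩
  · rw [hσe]
    exact mul_le_mul_of_nonneg_right hj2 hsrp.le
  · -- curvature
    have hzy : r ≤ 2 * ‖z - y‖ := by
      have h1 : r ≤ s + ‖y - z‖ := by
        rw [hr, hs]
        have : y - x = (z - x) + (y - z) := by ring
        rw [this]
        exact norm_add_le _ _
      have h2 : ‖z - y‖ = ‖y - z‖ := norm_sub_rev _ _
      rw [h2]
      linarith
    have hzy0 : 0 < ‖z - y‖ := by linarith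
    unfold cu
    have e1 : ‖x - z‖ = s := norm_sub_rev _ _
    have e3 : crs (z - x) (y - x) ^ 2 = (σ * (s * r)) ^ 2 := by
      rw [← hσe, sq_abs]
    rw [e1, e3]
    have h4 : 4 * (σ * (s * r)) ^ 2 / (s ^ 2 * ‖z - y‖ ^ 2 * r ^ 2) = 4 * σ ^ 2 / ‖z - y‖ ^ 2 := by
      field_simp
    rw [h4, div_le_div_iff₀ (by positivity) (by positivity)]
    have h5 : σ ^ 2 ≤ (1 / 4) ^ j := by
      have : σ ^ 2 ≤ ((1 / 2) ^ j) ^ 2 := by gcongr
      have e : (((1 : ℝ) / 2) ^ j) ^ 2 = (1 / 4) ^ j := by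
        rw [← pow_mul, mul_comm, pow_mul]; norm_num
      rwa [e] at this
    have h6 : (4 : ℝ) ^ d ≤ (2 * ‖z - y‖) ^ 2 := by
      have e : (4 : ℝ) ^ d = ((2 : ℝ) ^ d) ^ 2 := by
        rw [← zpow_natCast, ← zpow_mul, mul_comm, zpow_mul]; norm_num
      rw [e]
      have : (2 : ℝ) ^ d ≤ 2 * ‖z - y‖ := hd1.trans hzy
      gcongr
    have h7 : 0 < (4 : ℝ) ^ d := by positivity
    calc 4 * σ ^ 2 * (4 : ℝ) ^ d ≤ 4 * (1 / 4) ^ j * (2 * ‖z - y‖) ^ 2 := by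
          gcongr
      _ = 16 * (1 / 4) ^ j * ‖z - y‖ ^ 2 := by ring
  · exact hω' z hb2.le
  · refine hω y ?_
    rw [TRI.zp6]
    rw [TRI.zp1] at hd2
    linarith
  · intro w _ hw
    refine hω w ?_
    have h1 := hC2 _ _ _ _ hw
    rw [TRI.zpn4] at h1
    rw [TRI.zp6]
    linarith
  · rintro i ⟨x', hx', hx'g, hx'l⟩ ⟨z', hz', hz'g, hz'l⟩ ⟨y', hy', hy'g, hy'l⟩
    have h1 := hC2 _ _ _ _ hx'g
    have h2 := hC2 _ _ _ _ hz'g
    have h3 := hC2 _ _ _ _ hy'g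
    rw [TRI.zpf4] at h1 h2
    rw [TRI.zpf9] at h3
    set q : ℝ := (1 / 2) ^ j with hq
    have hq0 : 0 < q := by rw [hq]; positivity
    have hq1 : q ≤ 1 := by rw [hq]; exact pow_le_one₀ (by norm_num) (by norm_num)
    set η : ℝ := 3 / 64 * q with hη
    have hη0 : 0 ≤ η := by rw [hη]; positivity
    have hη1 : η ≤ 1 / 2 := by rw [hη]; linarith
    have hBq : 2 ^ b * q ≤ s * q := mul_le_mul_of_nonneg_right hb1 hq0.le
    have hDq : 2 ^ d * q ≤ r * q := mul_le_mul_of_nonneg_right hd1 hq0.le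
    have hsq : 0 < s * q := mul_pos hs0 hq0
    have hrq : 0 < r * q := mul_pos hr0 hq0
    have hxx : ‖x' - x‖ ≤ η * s := by rw [hη]; linarith
    have hzz : ‖z' - z‖ ≤ η * s := by rw [hη]; linarith
    have hyy : ‖y' - y‖ ≤ η * r := by rw [hη]; linarith
    have hG := hGEOM x y z x' y' z' η hη0 hη1 hsr hxx hzz hyy
    have hO := (hOn.2 x' hx' z' hz' y' hy' (by rw [hz'l, hx'l]) (by rw [hy'l, hx'l])).1
    have hO2 := (hOn.2 x' hx' y' hy' z' hz' (by rw [hy'l, hx'l]) (by rw [hz'l, hx'l])).2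
    rw [hx'l] at hO hO2
    have ha : ‖z' - x'‖ ≤ s + 2 * (η * s) := by
      have e : z' - x' = (z - x) + (z' - z) - (x' - x) := by ring
      rw [e]
      have := norm_sub_le ((z - x) + (z' - z)) (x' - x)
      have := norm_add_le (z - x) (z' - z)
      linarith
    have hb : ‖y' - x'‖ ≤ r + η * r + η * s := by
      have e : y' - x' = (y - x) + (y' - y) - (x' - x) := by ring
      rw [e]
      have := norm_sub_le ((y - x) + (y' - y)) (x' - x)
      have := norm_add_le (y - x) (y' - y)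
      linarith
    have hb' : r ≤ ‖y' - x'‖ + η * r + η * s := by
      have e : y - x = (y' - x') - (y' - y) + (x' - x) := by ring
      have h4 : r ≤ ‖(y' - x') - (y' - y) + (x' - x)‖ := by rw [← e]
      have := norm_add_le ((y' - x') - (y' - y)) (x' - x)
      have := norm_sub_le (y' - x') (y' - y)
      linarith
    have hc : ‖z' - y'‖ ≤ 2 * r + η * r + η * s := by
      have e : z' - y' = (z - x) - (y - x) + (z' - z) - (y' - y) := by ring
      rw [e]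
      have := norm_sub_le ((z - x) - (y - x) + (z' - z)) (y' - y)
      have := norm_add_le ((z - x) - (y - x)) (z' - z)
      have := norm_sub_le (z - x) (y - x)
      linarith
    have hCC : q / 2 * (s * r) < |crs (z - x) (y - x)| := by
      rw [hσe]
      apply mul_lt_mul_of_pos_right _ hsrp
      have : (1 / 2 : ℝ) ^ (j + 1) = q / 2 := by rw [pow_succ, hq]; ring
      linarith
    rw [TRI.zp1] at hd2
    exact TRI.last hs0 hsr hq0 hη hq1 (hOn.1 i) hd1 hd2 (norm_nonneg _) (norm_nonneg _)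
      (norm_nonneg _) ha hb hb' hc hCC hG hO hO2

end Pool.Agent.ANL
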