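import Pool.Agent.ANL.Stmts

/-!
# CELL: dyadic cells are nested, have small diameter, and the 1/3 shift
-/

set_option autoImplicit false

namespace Pool.Agent.ANL

open MeasureTheory Set

namespace CELL

lemma floor_nest (a b : ℝ) (n : ℕ) (h : ⌊a * 2 ^ n⌋ = ⌊b * 2 ^ n⌋) : ⌊a⌋ = ⌊b⌋ := by
  have key : ∀ c : ℝ, ⌊c⌋ = ⌊c * 2 ^ n⌋ / (2 ^ n : ℤ) := by
    intro c
    have hp : (0 : ℝ) < 2 ^ n := by positivity
    have hpz : (0 : ℤ) < 2 ^ n := by positivity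
    rw [Int.floor_eq_iff]
    have h1 := Int.floor_le (c * 2 ^ n)
    have h2 := Int.lt_floor_add_one (c * 2 ^ n)
    set f := ⌊c * 2 ^ n⌋ with hf
    have h3 := Int.emod_add_mul_ediv f (2 ^ n)
    have h4 := Int.emod_nonneg f hpz.ne'
    have h5 := Int.emod_lt_of_pos f hpz
    set q := f / (2 ^ n : ℤ) with hq
    set r := f % (2 ^ n : ℤ) with hr
    have h3' : (r : ℝ) + 2 ^ n * q = f := by exact_mod_cast h3
    have h4' : (0 : ℝ) ≤ r := by exact_mod_cast h4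
    have h5' : (r : ℝ) + 1 ≤ 2 ^ n := by exact_mod_cast h5
    constructor
    · have : (q : ℝ) * 2 ^ n ≤ c * 2 ^ n := by nlinarith
      exact le_of_mul_le_mul_right this hp
    · have : c * 2 ^ n < ((q : ℝ) + 1) * 2 ^ n := by nlinarith
      exact lt_of_mul_lt_mul_right this hp.le
  rw [key a, key b, h]

lemma nest1 (k l : ℤ) (hkl : k ≤ l) (s t : ℝ) (h : ⌊(2 : ℝ) ^ l * s⌋ = ⌊(2 : ℝ) ^ l * t⌋) :
    ⌊(2 : ℝ) ^ k * s⌋ = ⌊(2 : ℝ) ^ k * t⌋ := by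
  obtain ⟨n, hn⟩ := Int.eq_ofNat_of_zero_le (sub_nonneg.mpr hkl)
  have hl : l = k + (n : ℤ) := by omega
  have e : ∀ c : ℝ, (2 : ℝ) ^ l * c = ((2 : ℝ) ^ k * c) * 2 ^ n := by
    intro c
    rw [hl, zpow_add₀ (by norm_num), zpow_natCast]
    ring
  rw [e, e] at h
  exact floor_nest _ _ n h

lemma diam1 (k : ℤ) (s t : ℝ) (h : ⌊(2 : ℝ) ^ k * s⌋ = ⌊(2 : ℝ) ^ k * t⌋) :
    |s - t| ≤ (2 : ℝ) ^ (-k) := by
  have hp : (0 : ℝ) < (2 : ℝ) ^ k := by positivity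
  have h1 := Int.abs_sub_lt_one_of_floor_eq_floor h
  rw [← mul_sub, abs_mul, abs_of_pos hp] at h1
  rw [zpow_neg, ← one_div, le_div_iff₀ hp, mul_comm]
  exact h1.le

/-- The 1/3 shift in one coordinate. -/
lemma shift1 (τ δ : ℝ) (m : ℕ) (hm : m % 3 ≠ 0) (hδ : δ ≤ 1 / 8) :
    (∀ σ : ℝ, |σ - τ| ≤ δ → ⌊σ⌋ = ⌊τ⌋) ∨
    (∀ σ : ℝ, |σ - τ| ≤ δ → ⌊σ - (m : ℝ) / 3⌋ = ⌊τ - (m : ℝ) / 3⌋) := by
  have h1 := Int.floor_le τ
  have h2 := Int.lt_floor_add_one τ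
  set n := ⌊τ⌋ with hn
  by_cases hc : δ ≤ τ - n ∧ τ - n < 1 - δ
  · left
    intro σ hσ
    rw [abs_le] at hσ
    rw [Int.floor_eq_iff]
    constructor <;> linarith [hσ.1, hσ.2, hc.1, hc.2]
  · right
    have h3 : (m : ℝ) = 3 * ((m / 3 : ℕ) : ℝ) + ((m % 3 : ℕ) : ℝ) := by
      exact_mod_cast (Nat.div_add_mod m 3).symm
    have h4 : m % 3 = 1 ∨ m % 3 = 2 := by omega
    set q : ℕ := m / 3 with hq
    rw [not_and_or, not_le, not_lt] at hc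
    intro σ hσ
    rw [abs_le] at hσ
    obtain ⟨hσ1, hσ2⟩ := hσ
    have key : ∀ z : ℤ, ((z : ℝ) ≤ τ - (m : ℝ) / 3 - 1 / 8) → (τ - (m : ℝ) / 3 + 1 / 8 < z + 1) →
        ⌊σ - (m : ℝ) / 3⌋ = ⌊τ - (m : ℝ) / 3⌋ := by
      intro z hz1 hz2
      have a1 : ⌊σ - (m : ℝ) / 3⌋ = z := by
        rw [Int.floor_eq_iff]; constructor <;> linarith
      have a2 : ⌊τ - (m : ℝ) / 3⌋ = z := by
        rw [Int.floor_eq_iff]; constructor <;> linarith
      rw [a1, a2]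
    rcases hc with hc | hc
    · refine key (n - (q : ℤ) - 1) ?_ ?_
      · push_cast
        rcases h4 with h4 | h4 <;> rw [h4] at h3 <;> push_cast at h3 <;> linarith
      · push_cast
        rcases h4 with h4 | h4 <;> rw [h4] at h3 <;> push_cast at h3 <;> linarith
    · refine key (n - (q : ℤ)) ?_ ?_
      · push_cast
        rcases h4 with h4 | h4 <;> rw [h4] at h3 <;> push_cast at h3 <;> linarith
      · push_cast
        rcases h4 with h4 | h4 <;> rw [h4] at h3 <;> push_cast at h3 <;> linarith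

lemma pow_mod3 (n : ℕ) : (2 ^ n) % 3 ≠ 0 := by
  intro h
  have h1 : 3 ∣ 2 ^ n := Nat.dvd_of_mod_eq_zero h
  have h2 : 3 ∣ 2 := Nat.Prime.dvd_of_dvd_pow (by norm_num) h1
  omega

lemma coord (K : ℕ) (k : ℤ) (hk : -(K : ℤ) ≤ k) (ρ : ℝ) (hρ : (2 : ℝ) ^ k * ρ ≤ 1 / 8) (t : ℝ) :
    ∃ b : Bool, ∀ s : ℝ, |s - t| ≤ ρ →
      ⌊(2 : ℝ) ^ k * (s - (if b then (2 : ℝ) ^ K / 3 else 0))⌋ =
        ⌊(2 : ℝ) ^ k * (t - (if b then (2 : ℝ) ^ K / 3 else 0))⌋ := by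
  have hp : (0 : ℝ) < (2 : ℝ) ^ k := by positivity
  obtain ⟨n, hn⟩ := Int.eq_ofNat_of_zero_le (show 0 ≤ k + (K : ℤ) by omega)
  have e : (2 : ℝ) ^ k * ((2 : ℝ) ^ K / 3) = ((2 ^ n : ℕ) : ℝ) / 3 := by
    have : (2 : ℝ) ^ k * (2 : ℝ) ^ K = (2 : ℝ) ^ n := by
      rw [← zpow_natCast (2 : ℝ) K, ← zpow_add₀ (by norm_num), hn]
      exact zpow_natCast _ _
    rw [← mul_div_assoc, this]
    push_cast
    ring
  have hs : ∀ s : ℝ, |s - t| ≤ ρ → |(2 : ℝ) ^ k * s - (2 : ℝ) ^ k * t| ≤ (2 : ℝ) ^ k * ρ := by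
    intro s h
    rw [← mul_sub, abs_mul, abs_of_pos hp]
    exact mul_le_mul_of_nonneg_left h hp.le
  rcases shift1 ((2 : ℝ) ^ k * t) ((2 : ℝ) ^ k * ρ) (2 ^ n) (pow_mod3 n) hρ with h | h
  · refine ⟨false, fun s h1 => ?_⟩
    simpa using h _ (hs s h1)
  · refine ⟨true, fun s h1 => ?_⟩
    have := h _ (hs s h1)
    simp only [if_true, mul_sub, e]
    exact this

end CELL

open CELL in
theorem CELL_thm : Stmt_CELL := by
  refine ⟨?_, ?_, ?_⟩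
  · intro u k l x y hkl h
    simp only [cell, Prod.mk.injEq] at h ⊢
    exact ⟨nest1 k l hkl _ _ h.1, nest1 k l hkl _ _ h.2⟩
  · intro u k x y h
    simp only [cell, Prod.mk.injEq] at h
    have h1 := diam1 k _ _ h.1
    have h2 := diam1 k _ _ h.2
    have e1 : (x - u).re - (y - u).re = (x - y).re := by simp
    have e2 : (x - u).im - (y - u).im = (x - y).im := by simp
    rw [e1] at h1
    rw [e2] at h2
    have hp : (0 : ℝ) < (2 : ℝ) ^ (-k) := by positivity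
    have h3 : ‖x - y‖ ^ 2 ≤ (3 / 2 * (2 : ℝ) ^ (-k)) ^ 2 := by
      rw [← Complex.normSq_eq_norm_sq, Complex.normSq_apply]
      rw [abs_le] at h1 h2
      nlinarith [h1.1, h1.2, h2.1, h2.2, mul_nonneg hp.le hp.le]
    exact le_of_sq_le_sq h3 (by positivity)
  · intro K k hk ρ hρ x
    obtain ⟨b1, h1⟩ := coord K k hk ρ hρ x.re
    obtain ⟨b2, h2⟩ := coord K k hk ρ hρ x.im
    refine ⟨(b1, b2), fun y hy => ?_⟩
    have r1 : |y.re - x.re| ≤ ρ := by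
      have := (Complex.abs_re_le_norm (y - x)).trans hy
      simpa using this
    have r2 : |y.im - x.im| ≤ ρ := by
      have := (Complex.abs_im_le_norm (y - x)).trans hy
      simpa using this
    have e1 := h1 y.re r1
    have e2 := h2 y.im r2
    simp only [cell, sh, Prod.mk.injEq, Complex.sub_re, Complex.sub_im]
    exact ⟨e1, e2⟩

end Pool.Agent.ANL
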