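import Pool.Agent.ANL.Defs

/-!
# Analytic capacity and few lines: module statements (MP_98e313_an)
-/

set_option autoImplicit false

namespace Pool.Agent.ANL

open MeasureTheory Set

/-- GEOM: the cross product is stable under small displacements. -/
def Stmt_GEOM : Prop := ∀ (x y z x' y' z' : ℂ) (η : ℝ), 0 ≤ η → η ≤ 1 / 2 →
  ‖z - x‖ ≤ ‖y - x‖ → ‖x' - x‖ ≤ η * ‖z - x‖ → ‖z' - z‖ ≤ η * ‖z - x‖ →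
  ‖y' - y‖ ≤ η * ‖y - x‖ →
  |crs (z - x) (y - x)| ≤ |crs (z' - x') (y' - x')| + 8 * η * ‖z - x‖ * ‖y - x‖

/-- CELL: cells are nested, their diameter, and every small ball is in one cell of a shifted grid. -/
def Stmt_CELL : Prop :=
  (∀ (u : ℂ) (k l : ℤ) (x y : ℂ), k ≤ l → cell u l x = cell u l y → cell u k x = cell u k y) ∧
  (∀ (u : ℂ) (k : ℤ) (x y : ℂ), cell u k x = cell u k y → ‖x - y‖ ≤ 3 / 2 * (2 : ℝ) ^ (-k)) ∧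
  (∀ (K : ℕ) (k : ℤ), -(K : ℤ) ≤ k → ∀ ρ : ℝ, (2 : ℝ) ^ k * ρ ≤ 1 / 8 → ∀ x : ℂ,
    ∃ ω : Bool × Bool, ∀ y : ℂ, ‖y - x‖ ≤ ρ → cell (sh K ω) k y = cell (sh K ω) k x)

/-- MISS: the missed mass is at most the gain of information. -/
def Stmt_MISS : Prop := ∀ (N : ℕ) (X : Finset ℂ) (m : ℂ → ℝ) (lab : ℂ → Fin N)
  (f g : ℂ → ℤ × ℤ), (∀ x ∈ X, 0 < m x) → (∀ x y, g x = g y → f x = f y) →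
  Sm X m f g lab ≤ ∑ w ∈ X, m w *
    (Real.log (Mi X m g lab w / Mc X m g w) - Real.log (Mi X m f lab w / Mc X m f w))

/-- TELE: the sum over all levels. -/
def Stmt_TELE : Prop := ∀ (N : ℕ) (X : Finset ℂ) (m : ℂ → ℝ) (lab : ℂ → Fin N)
  (c : ℤ → ℂ → ℤ × ℤ), 1 ≤ N → (∀ x ∈ X, 0 < m x) →
  (∀ (k l : ℤ) (x y : ℂ), k ≤ l → c l x = c l y → c k x = c k y) →
  ∀ (a b : ℤ) (j : ℕ), ∑ k ∈ Finset.Icc a b, Sm X m (c k) (c (k + j)) lab ≤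
    j * Real.log N * ∑ x ∈ X, m x

open Classical in
/-- HSUM: the sum over the triples of one type. -/
def Stmt_HSUM : Prop := ∀ (N : ℕ) (X : Finset ℂ) (m : ℂ → ℝ) (lab : ℂ → Fin N)
  (f' g' f g : ℂ → ℤ × ℤ) (e : Fin N → Prop) (A B : ℝ), (∀ x ∈ X, 0 < m x) →
  (∀ w ∈ X, Mc X m f' w ≤ A) → (∀ w ∈ X, Mc X m f w ≤ B) →
  ∑ x ∈ X, ∑ z ∈ X, ∑ y ∈ X, (if Pr X lab f' g' f g e x z y then m x * m z * m y else 0) ≤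
    A * B * (2 * Sm X m f' g' lab + Sm X m f g lab + Me X m lab e)

/-- TRI: every triple has a type. -/
def Stmt_TRI : Prop := ∀ (N : ℕ) (lab : ℂ → Fin N) (κ : Fin N → ℝ) (X : Finset ℂ) (K : ℕ),
  OnG X lab κ → ∀ x ∈ X, ∀ z ∈ X, ∀ y ∈ X, 0 < ‖z - x‖ → ‖z - x‖ ≤ ‖y - x‖ →
  ‖z - x‖ ≤ ‖y - z‖ → 1024 * ‖y - x‖ ≤ 2 ^ K → crs (z - x) (y - x) ≠ 0 →
  ∃ (b d : ℤ) (j : ℕ) (ω' ω : Bool × Bool), b ≤ d ∧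
    (2 : ℝ) ^ b ≤ ‖z - x‖ ∧ ‖z - x‖ < (2 : ℝ) ^ (b + 1) ∧
    (2 : ℝ) ^ d ≤ ‖y - x‖ ∧ ‖y - x‖ < (2 : ℝ) ^ (d + 1) ∧
    |crs (z - x) (y - x)| ≤ (1 / 2) ^ j * (‖z - x‖ * ‖y - x‖) ∧
    cu x z y ≤ 16 * (1 / 4) ^ j / (4 : ℝ) ^ d ∧
    Pr X lab (cell (sh K ω') (-b - 4)) (cell (sh K ω') (-b - 4 + (j + 14 : ℕ)))
      (cell (sh K ω) (-d - 9)) (cell (sh K ω) (-d - 9 + (j + 14 : ℕ))) (ex κ d j) x z y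

/-- The contribution of the triples of one type. -/
noncomputable def Wt {N : ℕ} (X : Finset ℂ) (m : ℂ → ℝ) (lab : ℂ → Fin N) (κ : Fin N → ℝ) (K : ℕ)
    (b d : ℤ) (j : ℕ) (ω' ω : Bool × Bool) : ℝ :=
  (1 / 4) ^ j * ((2 : ℝ) ^ b / (2 : ℝ) ^ d) *
    (2 * Sm X m (cell (sh K ω') (-b - 4)) (cell (sh K ω') (-b - 4 + (j + 14 : ℕ))) lab +
      Sm X m (cell (sh K ω) (-d - 9)) (cell (sh K ω) (-d - 9 + (j + 14 : ℕ))) lab +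
      Me X m lab (ex κ d j))

/-- TSUM: the sum over all triples with shortest first side. -/
def Stmt_TSUM : Prop := ∀ (N : ℕ) (lab : ℂ → Fin N) (κ : Fin N → ℝ) (X : Finset ℂ) (m : ℂ → ℝ)
  (ε : ℝ) (K : ℕ), 0 < ε → (∀ x ∈ X, 0 < m x) → Grow X m ε → OnG X lab κ →
  (∀ x ∈ X, ∀ y ∈ X, 1024 * ‖y - x‖ ≤ 2 ^ K) →
  ∃ (B0 B1 : ℤ) (J : ℕ), T1 X m ε ≤ 16 * 24 * 768 *
    ∑ d ∈ Finset.Icc B0 B1, ∑ b ∈ Finset.Icc B0 d, ∑ j ∈ Finset.range J,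
      ∑ ω' : Bool × Bool, ∑ ω : Bool × Bool, Wt X m lab κ K b d j ω' ω

/-- EXT: the number of scales at which a curved piece is curved. -/
def Stmt_EXT : Prop := ∀ (N : ℕ) (lab : ℂ → Fin N) (κ : Fin N → ℝ) (X : Finset ℂ) (m : ℂ → ℝ),
  (∀ i, 0 ≤ κ i) → (∀ x ∈ X, 0 < m x) → ∀ (a b : ℤ) (J : ℕ),
  ∑ d ∈ Finset.Icc a b, ∑ j ∈ Finset.range J, (1 / 4 : ℝ) ^ j * Me X m lab (ex κ d j) ≤
    20000 * ∑ x ∈ X, m x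

/-- FSUM: the sum over all types. -/
def Stmt_FSUM : Prop := ∃ C : ℝ, 0 < C ∧ ∀ (N : ℕ) (lab : ℂ → Fin N) (κ : Fin N → ℝ)
  (X : Finset ℂ) (m : ℂ → ℝ) (K : ℕ), 1 ≤ N → (∀ i, 0 ≤ κ i) → (∀ x ∈ X, 0 < m x) →
  ∀ (B0 B1 : ℤ) (J : ℕ), ∑ d ∈ Finset.Icc B0 B1, ∑ b ∈ Finset.Icc B0 d, ∑ j ∈ Finset.range J,
      ∑ ω' : Bool × Bool, ∑ ω : Bool × Bool, Wt X m lab κ K b d j ω' ω ≤
    C * (1 + Real.log N) * ∑ x ∈ X, m x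

/-- CURV: the curvature of a measure of linear growth on `N` lines or curved pieces. -/
def Stmt_CURV : Prop := ∃ C : ℝ, 0 < C ∧ ∀ (N : ℕ) (lab : ℂ → Fin N) (κ : Fin N → ℝ)
  (X : Finset ℂ) (m : ℂ → ℝ) (ε : ℝ), 1 ≤ N → 0 < ε → Grow X m ε → OnG X lab κ →
  T3 X m ε ≤ C * (1 + Real.log N) * ∑ x ∈ X, m x

open Classical in
/-- SYM: Melnikov's identity for finite sums. -/
def Stmt_SYM : Prop := ∀ (X : Finset ℂ) (w : ℂ → ℝ) (ε : ℝ), 0 < ε →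
  ∑ x ∈ X, ∑ y ∈ X, ∑ z ∈ X, (if ε ≤ ‖x - y‖ ∧ ε ≤ ‖y - z‖ ∧ ε ≤ ‖z - x‖ then
    w x * w y * w z * (1 / ((x - y) * (starRingEnd ℂ) (x - z))).re else 0) = T3 X w ε / 6

open Classical in
/-- TAIL: the tail sum. -/
def Stmt_TAIL : Prop := ∀ (X : Finset ℂ) (m : ℂ → ℝ) (ε : ℝ), 0 < ε → Grow X m ε →
  ∀ (x : ℂ) (r : ℝ), ε ≤ r →
    ∑ y ∈ X.filter (fun y => r ≤ ‖y - x‖), m y / ‖y - x‖ ^ 2 ≤ 4 / r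

/-- TEST: the testing inequality. -/
def Stmt_TEST : Prop := ∃ C : ℝ, 0 < C ∧ ∀ (N : ℕ) (lab : ℂ → Fin N) (κ : Fin N → ℝ)
  (X : Finset ℂ) (w : ℂ → ℝ) (ε : ℝ), 1 ≤ N → 0 < ε → Grow X w ε → OnG X lab κ →
  ∑ x ∈ X, w x * ‖Cw X w ε x‖ ^ 2 ≤ C * (1 + Real.log N) * ∑ x ∈ X, w x

/-- FIX: the fixed point (Brouwer). -/
def Stmt_FIX : Prop := ∀ (ι : Type) [Fintype ι] (m : ι → ℝ) (k : ι → ι → ℂ) (L : ℝ), 0 < L →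
  ∃ h : ι → ℝ, ∀ i, h i = max 0 (1 / 2 - ‖∑ j, ((m j * h j : ℝ) : ℂ) * k i j‖ ^ 2 / (2 * L ^ 2))

/-- MASS: testing on all densities gives a large density with bounded transform on its support. -/
def Stmt_MASS : Prop := ∀ (ι : Type) [Fintype ι] (m : ι → ℝ) (k : ι → ι → ℂ) (M : ℝ), 0 < M →
  (∀ i, 0 ≤ m i) → (∀ i j, k j i = - k i j) →
  (∀ g : ι → ℝ, (∀ i, 0 ≤ g i ∧ g i ≤ 1) →
    ∑ i, m i * g i * ‖∑ j, ((m j * g j : ℝ) : ℂ) * k i j‖ ^ 2 ≤ M * ∑ i, m i * g i) →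
  ∃ h : ι → ℝ, (∀ i, 0 ≤ h i ∧ h i ≤ 1 / 2) ∧ (∑ i, m i) / 8 ≤ ∑ i, m i * h i ∧
    ∀ i, 0 < h i → ‖∑ j, ((m j * h j : ℝ) : ℂ) * k i j‖ ^ 2 ≤ 192 * M

/-- MAXM: the maximum principle. -/
def Stmt_MAXM : Prop := ∀ (X : Finset ℂ) (w : ℂ → ℝ) (ε B : ℝ), 0 < ε → 0 ≤ B → Grow X w ε →
  (∀ x ∈ X, 0 < w x → ‖Cw X w ε x‖ ≤ B) →
  ∀ z : ℂ, (∀ x ∈ X, ε < ‖z - x‖) → ‖∑ x ∈ X, (w x : ℂ) / (z - x)‖ ≤ B + 8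

/-- LIM: the limit. -/
def Stmt_LIM : Prop := ∀ (F : Set ℂ) (η W B : ℝ), IsCompact F → 0 < B →
  (∀ δ : ℝ, 0 < δ → ∃ (X : Finset ℂ) (w : ℂ → ℝ), (∀ x ∈ X, x ∈ F) ∧ (∀ x ∈ X, 0 ≤ w x) ∧
    η ≤ ∑ x ∈ X, w x ∧ ∑ x ∈ X, w x ≤ W ∧
    ∀ z : ℂ, (∀ x ∈ F, δ < ‖z - x‖) → ‖∑ x ∈ X, (w x : ℂ) / (z - x)‖ ≤ B) →
  η / B ≤ FCC.gam F

/-- FROST: Frostman's lemma at scale `ε`. -/
def Stmt_FROST : Prop := ∀ (F : Set ℂ) (η : ℝ), IsCompact F → (∀ R, Cov F R → η ≤ R) →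
  ∀ ε : ℝ, 0 < ε → ∃ (X : Finset ℂ) (m : ℂ → ℝ), (∀ x ∈ X, x ∈ F) ∧ Grow X m ε ∧
    η / 24 ≤ ∑ x ∈ X, m x

/-- CHORD: sets and their diameters have comparable content. -/
def Stmt_CHORD : Prop := ∀ (N : ℕ) (E0 : Set ℂ) (K : Fin N → Set ℂ) (p q : Fin N → ℂ),
  (∀ i, p i ∈ K i ∧ q i ∈ K i ∧ ∀ u ∈ K i, ∀ v ∈ K i, ‖u - v‖ ≤ ‖p i - q i‖) →
  ∀ R : ℝ, Cov (E0 ∪ ⋃ i, segment ℝ (p i) (q i)) R → Cov (E0 ∪ ⋃ i, K i) (19 * R)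

/-- FAVC: a cover bounds the Favard length and the content. -/
def Stmt_FAVC : Prop := ∀ (E : Set ℂ) (R : ℝ), Cov E R →
  FCC.Fav E ≤ 2 * Real.pi * R ∧ cont1 E ≤ 2 * R

end Pool.Agent.ANL
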