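import Mathlib
import Pool.Agent.ANL.Stmts

/-!
# CHORD: sets and their diameters have comparable content
-/

set_option autoImplicit false

namespace Pool.Agent.ANL

open MeasureTheory Set

namespace CHORD

/-- A cover indexed by an arbitrary finite type. -/
theorem cov_of {ι : Type} [Fintype ι] {E : Set ℂ} {R : ℝ} (c : ι → ℂ) (ρ : ι → ℝ)
    (h0 : ∀ i, 0 ≤ ρ i) (h : E ⊆ ⋃ i, Metric.closedBall (c i) (ρ i)) (hs : ∑ i, ρ i ≤ R) :
    Cov E R := by
  let e := Fintype.equivFin ι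
  refine ⟨Fintype.card ι, fun i => c (e.symm i), fun i => ρ (e.symm i), fun i => h0 _, ?_, ?_⟩
  · intro x hx
    obtain ⟨i, hi⟩ := mem_iUnion.1 (h hx)
    refine mem_iUnion.2 ⟨e i, ?_⟩
    simpa using hi
  · rw [Equiv.sum_comp e.symm ρ]
    exact hs

/-- A greedy choice. -/
theorem greedy {α : Type} [DecidableEq α] (D : α → ℝ) (r : α → α → Prop)
    (hs : ∀ i j, r i j → r j i) (I : Finset α) (hr : ∀ i ∈ I, r i i) :
    ∃ J ⊆ I, (∀ i ∈ J, ∀ j ∈ J, i ≠ j → ¬ r i j) ∧ ∀ i ∈ I, ∃ j ∈ J, r i j ∧ D i ≤ D j := by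
  classical
  induction I using Finset.strongInduction with
  | H I ih =>
    rcases I.eq_empty_or_nonempty with h | h
    · refine ⟨∅, Finset.empty_subset _, ?_, ?_⟩
      · intro i hi
        simp at hi
      · intro i hi
        rw [h] at hi
        simp at hi
    · obtain ⟨a, ha, hmax⟩ := I.exists_max_image D h
      have hlt : I.filter (fun i => ¬ r i a) ⊂ I := by
        rw [Finset.filter_ssubset]
        exact ⟨a, ha, not_not.2 (hr a ha)⟩
      obtain ⟨J, hJ, h1, h2⟩ := ih _ hlt fun i hi => hr i (Finset.mem_filter.1 hi).1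
      refine ⟨insert a J, ?_, ?_, ?_⟩
      · intro i hi
        rcases Finset.mem_insert.1 hi with rfl | hi
        · exact ha
        · exact (Finset.mem_filter.1 (hJ hi)).1
      · intro i hi j hj hij
        rcases Finset.mem_insert.1 hi with h5 | h5
        · rcases Finset.mem_insert.1 hj with h6 | h6
          · exact absurd (h5.trans h6.symm) hij
          · intro h3
            rw [h5] at h3
            exact (Finset.mem_filter.1 (hJ h6)).2 (hs _ _ h3)
        · rcases Finset.mem_insert.1 hj with h6 | h6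
          · rw [h6]
            exact (Finset.mem_filter.1 (hJ h5)).2
          · exact h1 i h5 j h6 hij
      · intro i hi
        by_cases h3 : r i a
        · exact ⟨a, Finset.mem_insert_self _ _, h3, hmax i hi⟩
        · obtain ⟨j, hj, h4⟩ := h2 i (Finset.mem_filter.2 ⟨hi, h3⟩)
          exact ⟨j, Finset.mem_insert_of_mem hj, h4⟩

/-- The length of a segment is at most the sum of the diameters of the balls of a cover. -/
theorem length_le {n : ℕ} (c : Fin n → ℂ) (ρ : Fin n → ℝ) (hρ : ∀ k, 0 ≤ ρ k) (p q : ℂ)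
    (S : Finset (Fin n)) (h : ∀ z ∈ segment ℝ p q, ∃ k ∈ S, z ∈ Metric.closedBall (c k) (ρ k)) :
    ‖p - q‖ ≤ ∑ k ∈ S, 2 * ρ k := by
  rcases eq_or_ne p q with rfl | hpq
  · rw [sub_self, norm_zero]
    exact Finset.sum_nonneg fun k _ => by linarith [hρ k]
  have hD : 0 < ‖q - p‖ := norm_pos_iff.2 (sub_ne_zero.2 hpq.symm)
  -- the projection
  let f : ℂ → ℝ := fun z => ((z - p) * (starRingEnd ℂ) (q - p)).re / ‖q - p‖
  have hf : ∀ z w, |f z - f w| ≤ ‖z - w‖ := by
    intro z w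
    have h1 : f z - f w = ((z - w) * (starRingEnd ℂ) (q - p)).re / ‖q - p‖ := by
      change _ / _ - _ / _ = _
      rw [← sub_div, ← Complex.sub_re, ← sub_mul, sub_sub_sub_cancel_right]
    rw [h1, abs_div, abs_of_pos hD, div_le_iff₀ hD]
    refine (Complex.abs_re_le_norm _).trans ?_
    rw [norm_mul, Complex.norm_conj]
  have hseg : Icc (0 : ℝ) ‖q - p‖ ⊆
      ⋃ k ∈ S, Icc (f (c k) - ρ k) (f (c k) + ρ k) := by
    intro t ht
    have h2 : p + ((t / ‖q - p‖ : ℝ) : ℂ) * (q - p) ∈ segment ℝ p q := by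
      rw [segment_eq_image']
      refine ⟨t / ‖q - p‖, ⟨div_nonneg ht.1 hD.le, (div_le_one hD).2 ht.2⟩, ?_⟩
      simp [Complex.real_smul]
    obtain ⟨k, hk, h3⟩ := h _ h2
    refine mem_iUnion₂.2 ⟨k, hk, ?_⟩
    have h4 : f (p + ((t / ‖q - p‖ : ℝ) : ℂ) * (q - p)) = t := by
      change ((p + ((t / ‖q - p‖ : ℝ) : ℂ) * (q - p) - p) * (starRingEnd ℂ) (q - p)).re /
        ‖q - p‖ = t
      rw [add_sub_cancel_left, mul_assoc, Complex.mul_conj, Complex.normSq_eq_norm_sq]
      rw [← Complex.ofReal_mul, Complex.ofReal_re]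
      field_simp
    have h5 := hf (p + ((t / ‖q - p‖ : ℝ) : ℂ) * (q - p)) (c k)
    rw [h4] at h5
    rw [Metric.mem_closedBall, dist_eq_norm] at h3
    have h6 := abs_le.1 (h5.trans h3)
    constructor
    · linarith [h6.1]
    · linarith [h6.2]
  have h7 : volume (Icc (0 : ℝ) ‖q - p‖) ≤
      ∑ k ∈ S, volume (Icc (f (c k) - ρ k) (f (c k) + ρ k)) :=
    (measure_mono hseg).trans (measure_biUnion_finset_le S _)
  have h8 : ∀ k, volume (Icc (f (c k) - ρ k) (f (c k) + ρ k)) = ENNReal.ofReal (2 * ρ k) := by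
    intro k
    rw [Real.volume_Icc]
    congr 1
    ring
  rw [Real.volume_Icc, sub_zero] at h7
  simp only [h8] at h7
  rw [← ENNReal.ofReal_sum_of_nonneg fun k _ => by linarith [hρ k]] at h7
  rw [norm_sub_rev]
  exact (ENNReal.ofReal_le_ofReal_iff (Finset.sum_nonneg fun k _ => by linarith [hρ k])).1 h7

/-- A point of `K` is within the diameter of every point of the chord. -/
theorem dist_le {p q u z : ℂ} {D : ℝ} (hp : ‖u - p‖ ≤ D) (hq : ‖u - q‖ ≤ D)
    (hz : z ∈ segment ℝ p q) : ‖u - z‖ ≤ D := by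
  have h1 : segment ℝ p q ⊆ Metric.closedBall u D :=
    (convex_closedBall u D).segment_subset
      (by rw [Metric.mem_closedBall, dist_comm, dist_eq_norm]; exact hp)
      (by rw [Metric.mem_closedBall, dist_comm, dist_eq_norm]; exact hq)
  have h2 := h1 hz
  rw [Metric.mem_closedBall, dist_comm, dist_eq_norm] at h2
  exact h2

end CHORD

open CHORD in
/-- CHORD: sets and their diameters have comparable content. -/
theorem CHORD_thm : Stmt_CHORD := by
  intro N E0 K p q hK R hR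
  classical
  obtain ⟨n, c, ρ, hρ, hcov, hsum⟩ := hR
  -- the balls which meet the segment
  let S : Fin N → Finset (Fin n) := fun i =>
    Finset.univ.filter fun k => ∃ z ∈ segment ℝ (p i) (q i), z ∈ Metric.closedBall (c k) (ρ k)
  have hS : ∀ i k, k ∈ S i ↔ ∃ z ∈ segment ℝ (p i) (q i), z ∈ Metric.closedBall (c k) (ρ k) := by
    intro i k
    simp [S]
  have hcS : ∀ i, ∀ z ∈ segment ℝ (p i) (q i), ∃ k ∈ S i, z ∈ Metric.closedBall (c k) (ρ k) := by
    intro i z hz
    obtain ⟨k, hk⟩ := mem_iUnion.1 (hcov (Or.inr (mem_iUnion.2 ⟨i, hz⟩)))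
    exact ⟨k, (hS i k).2 ⟨z, hz, hk⟩, hk⟩
  have hlen : ∀ i, ‖p i - q i‖ ≤ ∑ k ∈ S i, 2 * ρ k := fun i =>
    length_le c ρ hρ (p i) (q i) (S i) (hcS i)
  -- the indices of the second kind
  let I : Finset (Fin N) := Finset.univ.filter fun i => ∀ k ∈ S i, 10 * ρ k < ‖p i - q i‖
  have hI : ∀ i, i ∈ I ↔ ∀ k ∈ S i, 10 * ρ k < ‖p i - q i‖ := by
    intro i
    simp [I]
  obtain ⟨J, hJI, hJ1, hJ2⟩ := greedy (fun i => ‖p i - q i‖) (fun i j => ∃ k, k ∈ S i ∧ k ∈ S j)
    (fun i j h => by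
      obtain ⟨k, h1, h2⟩ := h
      exact ⟨k, h2, h1⟩) I (fun i _ => by
      obtain ⟨k, hk, -⟩ := hcS i (p i) (left_mem_segment ℝ _ _)
      exact ⟨k, hk, hk⟩)
  have hJsum : ∑ i ∈ J, ‖p i - q i‖ ≤ 2 * R := by
    calc ∑ i ∈ J, ‖p i - q i‖ ≤ ∑ i ∈ J, ∑ k ∈ S i, 2 * ρ k := Finset.sum_le_sum fun i _ => hlen i
      _ = ∑ k ∈ J.biUnion S, 2 * ρ k := by
          rw [Finset.sum_biUnion]
          intro i hi j hj hij
          rw [Function.onFun, Finset.disjoint_left]
          intro k h1 h2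
          exact hJ1 i hi j hj hij ⟨k, h1, h2⟩
      _ ≤ ∑ k, 2 * ρ k := Finset.sum_le_sum_of_subset_of_nonneg (Finset.subset_univ _)
          fun k _ _ => by linarith [hρ k]
      _ = 2 * ∑ k, ρ k := by rw [Finset.mul_sum]
      _ ≤ 2 * R := by linarith
  refine cov_of (ι := Fin n ⊕ Fin N) (Sum.elim c p)
    (Sum.elim (fun k => 11 * ρ k) fun i => if i ∈ J then 11 / 5 * ‖p i - q i‖ else 0) ?_ ?_ ?_
  · rintro (k | i)
    · simp only [Sum.elim_inl]
      linarith [hρ k]
    · simp only [Sum.elim_inr]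
      split_ifs
      · positivity
      · exact le_rfl
  · rintro x (hx | hx)
    · obtain ⟨k, hk⟩ := mem_iUnion.1 (hcov (Or.inl hx))
      refine mem_iUnion.2 ⟨Sum.inl k, ?_⟩
      simp only [Sum.elim_inl]
      exact Metric.closedBall_subset_closedBall (by linarith [hρ k]) hk
    · obtain ⟨i, hi⟩ := mem_iUnion.1 hx
      obtain ⟨hpi, hqi, hd⟩ := hK i
      by_cases hiI : i ∈ I
      · obtain ⟨j, hj, ⟨k, hki, hkj⟩, hij⟩ := hJ2 i hiI
        refine mem_iUnion.2 ⟨Sum.inr j, ?_⟩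
        simp only [Sum.elim_inr]
        rw [if_pos hj, Metric.mem_closedBall, dist_eq_norm]
        obtain ⟨z, hz, hzk⟩ := (hS i k).1 hki
        obtain ⟨z', hz', hzk'⟩ := (hS j k).1 hkj
        have h1 : ‖x - z‖ ≤ ‖p i - q i‖ :=
          dist_le (hd x hi _ hpi) (hd x hi _ hqi) hz
        have h2 : ‖z - z'‖ ≤ 2 * ρ k := by
          rw [Metric.mem_closedBall, dist_eq_norm] at hzk hzk'
          calc ‖z - z'‖ = ‖(z - c k) - (z' - c k)‖ := by congr 1; ring
            _ ≤ ‖z - c k‖ + ‖z' - c k‖ := norm_sub_le _ _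
            _ ≤ 2 * ρ k := by linarith
        have h3 : ‖p j - z'‖ ≤ ‖p j - q j‖ :=
          dist_le (by rw [sub_self, norm_zero]; exact norm_nonneg _) le_rfl hz'
        have h4 := (hI j).1 (hJI hj) k hkj
        have h5 : ‖x - p j‖ ≤ ‖x - z‖ + ‖z - z'‖ + ‖p j - z'‖ := by
          calc ‖x - p j‖ = ‖((x - z) + (z - z')) - (p j - z')‖ := by congr 1; ring
            _ ≤ ‖(x - z) + (z - z')‖ + ‖p j - z'‖ := norm_sub_le _ _
            _ ≤ ‖x - z‖ + ‖z - z'‖ + ‖p j - z'‖ := by linarith [norm_add_le (x - z) (z - z')]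
        linarith
      · rw [hI] at hiI
        push Not at hiI
        obtain ⟨k, hk, hk'⟩ := hiI
        obtain ⟨z, hz, hzk⟩ := (hS i k).1 hk
        refine mem_iUnion.2 ⟨Sum.inl k, ?_⟩
        simp only [Sum.elim_inl]
        rw [Metric.mem_closedBall, dist_eq_norm] at hzk ⊢
        have h1 : ‖x - z‖ ≤ ‖p i - q i‖ :=
          dist_le (hd x hi _ hpi) (hd x hi _ hqi) hz
        calc ‖x - c k‖ = ‖(x - z) + (z - c k)‖ := by congr 1; ring
          _ ≤ ‖x - z‖ + ‖z - c k‖ := norm_add_le _ _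
          _ ≤ 11 * ρ k := by linarith
  · rw [Fintype.sum_sum_type]
    simp only [Sum.elim_inl, Sum.elim_inr]
    rw [← Finset.mul_sum, Finset.sum_ite_mem, Finset.univ_inter, ← Finset.mul_sum]
    have hR0 : 0 ≤ R := (Finset.sum_nonneg fun k _ => hρ k).trans hsum
    linarith

end Pool.Agent.ANL
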