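import Pool.Agent.FCC.Defs

/-!
# Analytic capacity and few lines: definitions (MP_98e313_an)
-/

set_option autoImplicit false

namespace Pool.Agent.ANL

open MeasureTheory Set

/-- The cross product of two plane vectors. -/
noncomputable def crs (u v : ℂ) : ℝ := u.re * v.im - u.im * v.re

/-- The square of the Menger curvature of three points. -/
noncomputable def cu (x y z : ℂ) : ℝ :=
  4 * crs (y - x) (z - x) ^ 2 / (‖x - y‖ ^ 2 * ‖y - z‖ ^ 2 * ‖z - x‖ ^ 2)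

/-- The Cauchy kernel, smoothed at scale `ε`: it is `1 / z` for `ε ≤ ‖z‖`. -/
noncomputable def ker (ε : ℝ) (z : ℂ) : ℂ := (starRingEnd ℂ) z / ((max ‖z‖ ε : ℝ) : ℂ) ^ 2

/-- The smoothed Cauchy transform of the measure with masses `w x` at the points of `X`. -/
noncomputable def Cw (X : Finset ℂ) (w : ℂ → ℝ) (ε : ℝ) (x : ℂ) : ℂ :=
  ∑ y ∈ X, (w y : ℂ) * ker ε (x - y)

open Classical in
/-- Linear growth at all scales at least `ε`. -/
def Grow (X : Finset ℂ) (m : ℂ → ℝ) (ε : ℝ) : Prop :=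
  (∀ x ∈ X, 0 ≤ m x) ∧
    ∀ (z : ℂ) (r : ℝ), ε ≤ r → ∑ x ∈ X.filter (fun x => ‖x - z‖ ≤ r), m x ≤ r

/-- The points with label `i` lie on a line (`κ i = 0`) or on a piece of curvature at most
`2 κ i` and diameter at most `1 / κ i`. -/
def OnG {N : ℕ} (X : Finset ℂ) (lab : ℂ → Fin N) (κ : Fin N → ℝ) : Prop :=
  (∀ i, 0 ≤ κ i) ∧ ∀ x ∈ X, ∀ y ∈ X, ∀ z ∈ X, lab y = lab x → lab z = lab x →
    |crs (y - x) (z - x)| ≤ κ (lab x) * ‖y - x‖ * ‖z - x‖ * ‖y - z‖ ∧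
      κ (lab x) * ‖y - x‖ ≤ 1

/-- The dyadic cell of level `k` (side `2 ^ (-k)`) of the grid shifted by `u`. -/
noncomputable def cell (u : ℂ) (k : ℤ) (x : ℂ) : ℤ × ℤ :=
  (⌊(2 : ℝ) ^ k * (x - u).re⌋, ⌊(2 : ℝ) ^ k * (x - u).im⌋)

/-- The four shifts. -/
noncomputable def sh (K : ℕ) (ω : Bool × Bool) : ℂ :=
  ⟨if ω.1 then 2 ^ K / 3 else 0, if ω.2 then 2 ^ K / 3 else 0⟩

open Classical in
/-- The mass of the cell of `w`. -/
noncomputable def Mc (X : Finset ℂ) (m : ℂ → ℝ) (f : ℂ → ℤ × ℤ) (w : ℂ) : ℝ :=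
  ∑ y ∈ X.filter (fun y => f y = f w), m y

open Classical in
/-- The mass with the label of `w` in the cell of `w`. -/
noncomputable def Mi {N : ℕ} (X : Finset ℂ) (m : ℂ → ℝ) (f : ℂ → ℤ × ℤ) (lab : ℂ → Fin N)
    (w : ℂ) : ℝ :=
  ∑ y ∈ X.filter (fun y => f y = f w ∧ lab y = lab w), m y

/-- The fine cell of `y` contains a point with label `i`. -/
def str {N : ℕ} (X : Finset ℂ) (g : ℂ → ℤ × ℤ) (lab : ℂ → Fin N) (i : Fin N) (y : ℂ) : Prop :=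
  ∃ x ∈ X, g x = g y ∧ lab x = i

open Classical in
/-- The mass, in the coarse cell of `w`, of the fine cells without a point labelled as `w`. -/
noncomputable def miss {N : ℕ} (X : Finset ℂ) (m : ℂ → ℝ) (f g : ℂ → ℤ × ℤ) (lab : ℂ → Fin N)
    (w : ℂ) : ℝ :=
  ∑ y ∈ X.filter (fun y => f y = f w ∧ ¬ str X g lab (lab w) y), m y

/-- The mean relative missed mass. -/
noncomputable def Sm {N : ℕ} (X : Finset ℂ) (m : ℂ → ℝ) (f g : ℂ → ℤ × ℤ) (lab : ℂ → Fin N) : ℝ :=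
  ∑ w ∈ X, m w * miss X m f g lab w / Mc X m f w

/-- Label `i` is curved at scale `2 ^ d` and resolution `2 ^ (-j)`. -/
def ex {N : ℕ} (κ : Fin N → ℝ) (d : ℤ) (j : ℕ) (i : Fin N) : Prop :=
  (1 / 2 : ℝ) ^ j < 48 * κ i * (2 : ℝ) ^ d ∧ κ i * (2 : ℝ) ^ d ≤ 2

open Classical in
/-- The mass of the labels satisfying `e`. -/
noncomputable def Me {N : ℕ} (X : Finset ℂ) (m : ℂ → ℝ) (lab : ℂ → Fin N) (e : Fin N → Prop) : ℝ :=
  ∑ w ∈ X.filter (fun w => e (lab w)), m w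

/-- The triple `(x, z, y)`: `x, z` in the same cell of `f'`, `x, y` in the same cell of `f`, the cell
of `f'` is contained in the cell of `f`, and every label which is present in the three fine cells
satisfies `e`. -/
def Pr {N : ℕ} (X : Finset ℂ) (lab : ℂ → Fin N) (f' g' f g : ℂ → ℤ × ℤ) (e : Fin N → Prop)
    (x z y : ℂ) : Prop :=
  f' z = f' x ∧ f y = f x ∧ (∀ w ∈ X, f' w = f' x → f w = f x) ∧
    ∀ i, str X g' lab i x → str X g' lab i z → str X g lab i y → e i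

open Classical in
/-- Sum over the triples whose first side `(x, z)` is the shortest. -/
noncomputable def T1 (X : Finset ℂ) (m : ℂ → ℝ) (ε : ℝ) : ℝ :=
  ∑ x ∈ X, ∑ z ∈ X, ∑ y ∈ X,
    if ε ≤ ‖z - x‖ ∧ ‖z - x‖ ≤ ‖y - x‖ ∧ ‖z - x‖ ≤ ‖y - z‖ then m x * m z * m y * cu x z y else 0

open Classical in
/-- The truncated curvature of the measure. -/
noncomputable def T3 (X : Finset ℂ) (m : ℂ → ℝ) (ε : ℝ) : ℝ :=
  ∑ x ∈ X, ∑ y ∈ X, ∑ z ∈ X,
    if ε ≤ ‖x - y‖ ∧ ε ≤ ‖y - z‖ ∧ ε ≤ ‖z - x‖ then m x * m y * m z * cu x y z else 0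

/-- Finitely many closed balls with radii of sum at most `R` cover `E`. -/
def Cov (E : Set ℂ) (R : ℝ) : Prop :=
  ∃ (n : ℕ) (c : Fin n → ℂ) (ρ : Fin n → ℝ), (∀ i, 0 ≤ ρ i) ∧
    E ⊆ ⋃ i, Metric.closedBall (c i) (ρ i) ∧ ∑ i, ρ i ≤ R

/-- The one dimensional Hausdorff content. -/
noncomputable def cont1 (E : Set ℂ) : ℝ :=
  sInf {s : ℝ | ∃ U : ℕ → Set ℂ, E ⊆ ⋃ n, U n ∧ (∀ n, Bornology.IsBounded (U n)) ∧
    Summable (fun n => Metric.diam (U n)) ∧ s = ∑' n, Metric.diam (U n)}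

end Pool.Agent.ANL
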