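import Pool.Agent.ANL.Stmts

/-!
# The number of scales at which a curved piece is curved
-/

set_option autoImplicit false

namespace Pool.Agent.ANL.EXT

open MeasureTheory Set

open Classical in
/-- The sum over the resolutions. -/
theorem inner (t : ℝ) (J : ℕ) :
    ∑ j ∈ Finset.range J, (if (1 / 2 : ℝ) ^ j < t then (1 / 4 : ℝ) ^ j else 0) ≤
      4 / 3 * max 0 (t ^ 2 - (1 / 4 : ℝ) ^ J) := by
  induction J with
  | zero =>
    rw [Finset.range_zero, Finset.sum_empty]
    have := le_max_left (0 : ℝ) (t ^ 2 - (1 / 4 : ℝ) ^ 0)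
    linarith
  | succ J ih =>
    rw [Finset.sum_range_succ]
    have h4 : (1 / 4 : ℝ) ^ J = ((1 / 2 : ℝ) ^ J) ^ 2 := by
      rw [← pow_mul, mul_comm, pow_mul]
      norm_num
    have h0 : (0 : ℝ) < (1 / 2 : ℝ) ^ J := by positivity
    split_ifs with h
    · have h1 : (1 / 4 : ℝ) ^ J < t ^ 2 := by
        rw [h4]
        exact pow_lt_pow_left₀ h h0.le two_ne_zero
      rw [max_eq_right (by linarith)] at ih
      have h2 : t ^ 2 - (1 / 4 : ℝ) ^ (J + 1) ≤ max 0 (t ^ 2 - (1 / 4 : ℝ) ^ (J + 1)) :=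
        le_max_right _ _
      have h3 : (1 / 4 : ℝ) ^ (J + 1) = 1 / 4 * (1 / 4 : ℝ) ^ J := by rw [pow_succ, mul_comm]
      linarith
    · rw [add_zero]
      refine ih.trans ?_
      have h2 : (1 / 4 : ℝ) ^ (J + 1) ≤ (1 / 4 : ℝ) ^ J := by
        rw [pow_succ]
        have : (0 : ℝ) < (1 / 4 : ℝ) ^ J := by positivity
        linarith
      have h3 := max_le_max_left (0 : ℝ) (sub_le_sub_left h2 (t ^ 2))
      linarith

open Classical in
/-- The sum over the scales. -/
theorem outer (κ : ℝ) (hκ : 0 ≤ κ) (a b : ℤ) :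
    ∑ d ∈ Finset.Icc a b, (if κ * (2 : ℝ) ^ d ≤ 2 then (κ * (2 : ℝ) ^ d) ^ 2 else 0) ≤ 16 / 3 := by
  rcases lt_or_ge b (a - 1) with hb | hb
  · rw [Finset.Icc_eq_empty (by omega), Finset.sum_empty]
    norm_num
  · have key : ∑ d ∈ Finset.Icc a b, (if κ * (2 : ℝ) ^ d ≤ 2 then (κ * (2 : ℝ) ^ d) ^ 2 else 0) ≤
        1 / 3 * min 16 ((κ * (2 : ℝ) ^ (b + 1)) ^ 2) := by
      induction b, hb using Int.leInduction with
      | base =>
        rw [Finset.Icc_eq_empty (by omega), Finset.sum_empty]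
        have : (0 : ℝ) ≤ min 16 ((κ * (2 : ℝ) ^ (a - 1 + 1)) ^ 2) :=
          le_min (by norm_num) (sq_nonneg _)
        linarith
      | succ b hb ih =>
        have hI : Finset.Icc a (b + 1) = insert (b + 1) (Finset.Icc a b) := by
          ext x
          simp only [Finset.mem_Icc, Finset.mem_insert]
          omega
        rw [hI, Finset.sum_insert (by simp)]
        set x := κ * (2 : ℝ) ^ (b + 1) with hx
        have hx0 : 0 ≤ x := by positivity
        have h2 : κ * (2 : ℝ) ^ (b + 1 + 1) = 2 * x := by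
          rw [hx, zpow_add_one₀ (by norm_num : (2 : ℝ) ≠ 0) (b + 1)]
          ring
        rw [h2]
        split_ifs with h
        · have h3 : (2 * x) ^ 2 ≤ 16 := by nlinarith
          rw [min_eq_right h3]
          have h4 := min_le_right (16 : ℝ) (x ^ 2)
          nlinarith
        · rw [zero_add]
          refine ih.trans ?_
          have h3 : min 16 (x ^ 2) ≤ min 16 ((2 * x) ^ 2) :=
            min_le_min_left _ (by nlinarith)
          linarith
    have := min_le_left (16 : ℝ) ((κ * (2 : ℝ) ^ (b + 1)) ^ 2)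
    linarith

open Classical in
/-- The sum over the scales and the resolutions. -/
theorem both {N : ℕ} (κ : Fin N → ℝ) (i : Fin N) (hκ : 0 ≤ κ i) (a b : ℤ) (J : ℕ) :
    ∑ d ∈ Finset.Icc a b, ∑ j ∈ Finset.range J,
      (if ex κ d j i then (1 / 4 : ℝ) ^ j else 0) ≤ 20000 := by
  have h1 : ∀ d ∈ Finset.Icc a b, ∑ j ∈ Finset.range J,
      (if ex κ d j i then (1 / 4 : ℝ) ^ j else 0) ≤
      3072 * (if κ i * (2 : ℝ) ^ d ≤ 2 then (κ i * (2 : ℝ) ^ d) ^ 2 else 0) := by
    intro d _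
    split_ifs with h
    · have h2 : ∑ j ∈ Finset.range J, (if ex κ d j i then (1 / 4 : ℝ) ^ j else 0) =
          ∑ j ∈ Finset.range J,
            (if (1 / 2 : ℝ) ^ j < 48 * κ i * (2 : ℝ) ^ d then (1 / 4 : ℝ) ^ j else 0) := by
        refine Finset.sum_congr rfl fun j _ => ?_
        by_cases hj : (1 / 2 : ℝ) ^ j < 48 * κ i * (2 : ℝ) ^ d
        · rw [if_pos hj, if_pos (show ex κ d j i from ⟨hj, h⟩)]
        · rw [if_neg hj, if_neg (fun h' : ex κ d j i => hj h'.1)]
      rw [h2]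
      refine (inner (48 * κ i * (2 : ℝ) ^ d) J).trans ?_
      have h3 : max 0 ((48 * κ i * (2 : ℝ) ^ d) ^ 2 - (1 / 4 : ℝ) ^ J) ≤
          (48 * κ i * (2 : ℝ) ^ d) ^ 2 := by
        apply max_le (sq_nonneg _)
        have : (0 : ℝ) < (1 / 4 : ℝ) ^ J := by positivity
        linarith
      have h4 : (48 * κ i * (2 : ℝ) ^ d) ^ 2 = 2304 * (κ i * (2 : ℝ) ^ d) ^ 2 := by ring
      linarith
    · rw [mul_zero]
      apply le_of_eq
      apply Finset.sum_eq_zero
      intro j _
      rw [if_neg (fun h' : ex κ d j i => h h'.2)]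
  refine (Finset.sum_le_sum h1).trans ?_
  rw [← Finset.mul_sum]
  have := outer (κ i) hκ a b
  linarith

end Pool.Agent.ANL.EXT

namespace Pool.Agent.ANL

open MeasureTheory Set

open Classical in
/-- EXT: the number of scales at which a curved piece is curved. -/
theorem EXT_thm : Stmt_EXT := by
  intro N lab κ X m hκ hm a b J
  have h1 : ∀ (d : ℤ) (j : ℕ), (1 / 4 : ℝ) ^ j * Me X m lab (ex κ d j) =
      ∑ w ∈ X, m w * (if ex κ d j (lab w) then (1 / 4 : ℝ) ^ j else 0) := by
    intro d j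
    unfold Me
    rw [Finset.sum_filter, Finset.mul_sum]
    refine Finset.sum_congr rfl fun w _ => ?_
    split_ifs
    · ring
    · ring
  have h2 : ∑ d ∈ Finset.Icc a b, ∑ j ∈ Finset.range J, (1 / 4 : ℝ) ^ j * Me X m lab (ex κ d j) =
      ∑ w ∈ X, m w * ∑ d ∈ Finset.Icc a b, ∑ j ∈ Finset.range J,
        (if ex κ d j (lab w) then (1 / 4 : ℝ) ^ j else 0) := by
    have e1 : ∀ d ∈ Finset.Icc a b,
        ∑ j ∈ Finset.range J, (1 / 4 : ℝ) ^ j * Me X m lab (ex κ d j) =
        ∑ w ∈ X, ∑ j ∈ Finset.range J, m w * (if ex κ d j (lab w) then (1 / 4 : ℝ) ^ j else 0) := by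
      intro d _
      rw [Finset.sum_congr rfl fun j _ => h1 d j, Finset.sum_comm]
    rw [Finset.sum_congr rfl e1, Finset.sum_comm]
    refine Finset.sum_congr rfl fun w _ => ?_
    rw [Finset.mul_sum]
    refine Finset.sum_congr rfl fun d _ => ?_
    rw [Finset.mul_sum]
  rw [h2, Finset.mul_sum]
  refine Finset.sum_le_sum fun w hw => ?_
  have := mul_le_mul_of_nonneg_left (EXT.both κ (lab w) (hκ _) a b J) (hm w hw).le
  linarith

end Pool.Agent.ANL
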