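import Pool.Agent.ANL.Stmts

/-!
# ANL_FAVC: a cover bounds the Favard length and the content
-/

set_option autoImplicit false

namespace Pool.Agent.ANL

open MeasureTheory Set

namespace FAVC

/-- The sets of the cover, indexed by the natural numbers. -/
noncomputable def ext {n : ℕ} (c : Fin n → ℂ) (ρ : Fin n → ℝ) (k : ℕ) : Set ℂ :=
  if h : k < n then Metric.closedBall (c ⟨k, h⟩) (ρ ⟨k, h⟩) else ∅

theorem cont_le (E : Set ℂ) (R : ℝ) (h : Cov E R) : cont1 E ≤ 2 * R := by
  obtain ⟨n, c, ρ, hρ, hE, hR⟩ := h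
  have hz : ∀ k, k ∉ Finset.range n → Metric.diam (ext c ρ k) = 0 := by
    intro k hk
    have hk' : ¬ k < n := by simpa using hk
    simp [ext, hk']
  have hs : Summable (fun k => Metric.diam (ext c ρ k)) :=
    summable_of_ne_finset_zero (s := Finset.range n) hz
  have hle : ∑' k, Metric.diam (ext c ρ k) ≤ 2 * R := by
    rw [tsum_eq_sum (s := Finset.range n) hz, Finset.sum_range]
    calc ∑ i : Fin n, Metric.diam (ext c ρ i) ≤ ∑ i : Fin n, 2 * ρ i := by
          apply Finset.sum_le_sum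
          intro i _
          simp only [ext, Fin.is_lt, dif_pos]
          exact Metric.diam_closedBall (hρ i)
      _ = 2 * ∑ i, ρ i := by rw [Finset.mul_sum]
      _ ≤ 2 * R := by linarith
  refine le_trans (csInf_le ⟨0, ?_⟩ ⟨ext c ρ, ?_, ?_, hs, rfl⟩) hle
  · rintro s ⟨U, -, -, -, rfl⟩
    exact tsum_nonneg (fun _ => Metric.diam_nonneg)
  · intro z hz'
    obtain ⟨i, hi⟩ := mem_iUnion.mp (hE hz')
    refine mem_iUnion.mpr ⟨i, ?_⟩
    simpa [ext] using hi
  · intro k
    unfold ext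
    split_ifs
    · exact Metric.isBounded_closedBall
    · exact Bornology.isBounded_empty

theorem proj_le (E : Set ℂ) (R : ℝ) (h : Cov E R) (θ : ℝ) :
    ‖(volume ((fun z : ℂ => (z * Complex.exp (-(θ : ℂ) * Complex.I)).re) '' E)).toReal‖
      ≤ 2 * R := by
  obtain ⟨n, c, ρ, hρ, hE, hR⟩ := h
  set f : ℂ → ℝ := fun z : ℂ => (z * Complex.exp (-(θ : ℂ) * Complex.I)).re with hf
  have hnorm : ‖Complex.exp (-(θ : ℂ) * Complex.I)‖ = 1 := by
    have : (-(θ : ℂ) * Complex.I) = ((-θ : ℝ) : ℂ) * Complex.I := by push_cast; ring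
    rw [this]; exact Complex.norm_exp_ofReal_mul_I _
  have hsub : f '' E ⊆ ⋃ i, Icc (f (c i) - ρ i) (f (c i) + ρ i) := by
    rintro _ ⟨z, hz, rfl⟩
    obtain ⟨i, hi⟩ := mem_iUnion.mp (hE hz)
    refine mem_iUnion.mpr ⟨i, ?_⟩
    have h1 : |f z - f (c i)| ≤ ρ i := by
      have : f z - f (c i) = ((z - c i) * Complex.exp (-(θ : ℂ) * Complex.I)).re := by
        simp only [hf, sub_mul, Complex.sub_re]
      rw [this]
      calc |((z - c i) * Complex.exp (-(θ : ℂ) * Complex.I)).re|
          ≤ ‖(z - c i) * Complex.exp (-(θ : ℂ) * Complex.I)‖ := Complex.abs_re_le_norm _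
        _ = ‖z - c i‖ := by rw [norm_mul, hnorm, mul_one]
        _ ≤ ρ i := by
          have := Metric.mem_closedBall.mp hi
          rwa [dist_eq_norm] at this
    rw [abs_le] at h1
    exact ⟨by linarith [h1.1], by linarith [h1.2]⟩
  have hvol : volume (f '' E) ≤ ENNReal.ofReal (2 * R) := by
    calc volume (f '' E) ≤ volume (⋃ i, Icc (f (c i) - ρ i) (f (c i) + ρ i)) :=
          measure_mono hsub
      _ ≤ ∑ i, volume (Icc (f (c i) - ρ i) (f (c i) + ρ i)) := measure_iUnion_fintype_le _ _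
      _ = ∑ i, ENNReal.ofReal (2 * ρ i) := by
          refine Finset.sum_congr rfl fun i _ => ?_
          rw [Real.volume_Icc]; congr 1; ring
      _ = ENNReal.ofReal (∑ i, 2 * ρ i) := by
          rw [ENNReal.ofReal_sum_of_nonneg]
          intro i _; have := hρ i; linarith
      _ ≤ ENNReal.ofReal (2 * R) := by
          apply ENNReal.ofReal_le_ofReal
          rw [← Finset.mul_sum]; linarith
  have hR0 : 0 ≤ R := (Finset.sum_nonneg fun i _ => hρ i).trans hR
  rw [Real.norm_of_nonneg ENNReal.toReal_nonneg]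
  exact ENNReal.toReal_le_of_le_ofReal (by linarith) hvol

end FAVC

theorem FAVC_thm : Stmt_FAVC := by
  intro E R h
  refine ⟨?_, FAVC.cont_le E R h⟩
  have h1 := intervalIntegral.norm_integral_le_of_norm_le_const (a := 0) (b := Real.pi)
    (f := fun θ : ℝ => (volume
      ((fun z : ℂ => (z * Complex.exp (-(θ : ℂ) * Complex.I)).re) '' E)).toReal)
    (C := 2 * R) (fun θ _ => FAVC.proj_le E R h θ)
  have h2 : FCC.Fav E ≤ ‖FCC.Fav E‖ := Real.le_norm_self _
  have h3 : ‖FCC.Fav E‖ ≤ 2 * R * |Real.pi - 0| := h1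
  rw [sub_zero, abs_of_pos Real.pi_pos] at h3
  linarith

end Pool.Agent.ANL
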