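import Pool.Agent.ANL.Stmts
import Pool.Agent.LTV.Fix

/-!
# MP_98e313_an, module ANL_FIX: the fixed point (Brouwer)
-/

set_option autoImplicit false

namespace Pool.Agent.ANL

open MeasureTheory Set

theorem FIX_thm : Stmt_FIX := by
  intro ι _ m k L hL
  set f : (ι → ℝ) → (ι → ℝ) := fun h i =>
    max 0 (1 / 2 - ‖∑ j, ((m j * h j : ℝ) : ℂ) * k i j‖ ^ 2 / (2 * L ^ 2)) with hf
  have hcont : Continuous f := by
    rw [hf]
    refine continuous_pi fun i => ?_
    refine continuous_const.max (continuous_const.sub (Continuous.div_const ?_ _))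
    refine (Continuous.norm ?_).pow 2
    refine continuous_finsetSum _ fun j _ => ?_
    refine Continuous.mul ?_ continuous_const
    exact Complex.continuous_ofReal.comp (continuous_const.mul (continuous_apply j))
  obtain ⟨h, hh⟩ := Pool.Agent.LTV.exists_fixed f hcont (1 / 2) (by
    intro h
    rw [pi_norm_le_iff_of_nonneg (by norm_num)]
    intro i
    simp only [hf]
    rw [Real.norm_of_nonneg (le_max_left _ _)]
    apply max_le (by norm_num)
    have : 0 ≤ ‖∑ j, ((m j * h j : ℝ) : ℂ) * k i j‖ ^ 2 / (2 * L ^ 2) := by positivity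
    linarith)
  refine ⟨h, fun i => ?_⟩
  have := congrFun hh i
  simp only [hf] at this
  exact this.symm

end Pool.Agent.ANL
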