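import Pool.Agent.ANL.Stmts

/-!
# Frostman's lemma at a fixed scale (FROST)
-/

set_option autoImplicit false

namespace Pool.Agent.ANL

open MeasureTheory Set

namespace FROST

/-- Covers indexed by finite sets. -/
theorem cov_of_finset {ι : Type} (F : Set ℂ) (s : Finset ι) (c : ι → ℂ) (ρ : ι → ℝ)
    (hρ : ∀ i ∈ s, 0 ≤ ρ i) (hF : ∀ y ∈ F, ∃ i ∈ s, ‖y - c i‖ ≤ ρ i) :
    Cov F (∑ i ∈ s, ρ i) := by
  classical
  refine ⟨s.card, fun j => c (s.equivFin.symm j), fun j => ρ (s.equivFin.symm j), ?_, ?_, ?_⟩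
  · intro j
    exact hρ _ (s.equivFin.symm j).2
  · intro y hy
    obtain ⟨i, hi, hiy⟩ := hF y hy
    rw [mem_iUnion]
    refine ⟨s.equivFin ⟨i, hi⟩, ?_⟩
    simp only [Equiv.symm_apply_apply, mem_closedBall_iff_norm]
    exact hiy
  · rw [Equiv.sum_comp s.equivFin.symm (fun i : s => ρ i)]
    exact le_of_eq (Finset.sum_coe_sort s ρ)

open Classical in
/-- The extension of a function on `X` by zero. -/
noncomputable def xt (X : Finset ℂ) (m : X → ℝ) (z : ℂ) : ℝ :=
  if h : z ∈ X then m ⟨z, h⟩ else 0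

theorem xt_of_mem {X : Finset ℂ} (m : X → ℝ) {z : ℂ} (h : z ∈ X) : xt X m z = m ⟨z, h⟩ := by
  unfold xt
  rw [dif_pos h]

theorem continuous_xt (X : Finset ℂ) (z : ℂ) : Continuous (fun m : X → ℝ => xt X m z) := by
  by_cases h : z ∈ X
  · simp only [xt_of_mem _ h]
    exact continuous_apply _
  · have h1 : (fun m : X → ℝ => xt X m z) = fun _ => 0 := by
      funext m
      unfold xt
      rw [dif_neg h]
    rw [h1]
    exact continuous_const

open Classical in
/-- The mass of the cell of `x` of level `k`. -/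
noncomputable def ms (X : Finset ℂ) (m : ℂ → ℝ) (k : ℤ) (x : ℂ) : ℝ :=
  ∑ y ∈ X.filter (fun y => cell 0 k y = cell 0 k x), m y

/-- The polytope. -/
def Pt (X : Finset ℂ) (a b : ℤ) : Set (X → ℝ) :=
  {m | (∀ x ∈ X, 0 ≤ xt X m x) ∧ ∀ x ∈ X, ∀ k ∈ Finset.Icc a b,
    ms X (xt X m) k x ≤ (2 : ℝ) ^ (-k) / 16}

theorem ms_congr {X : Finset ℂ} (m : ℂ → ℝ) {k : ℤ} {x y : ℂ} (h : cell 0 k y = cell 0 k x) :
    ms X m k y = ms X m k x := by
  unfold ms
  rw [h]

theorem le_ms {X : Finset ℂ} {m : ℂ → ℝ} (hm : ∀ x ∈ X, 0 ≤ m x) (k : ℤ) {x : ℂ} (hx : x ∈ X) :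
    m x ≤ ms X m k x := by
  classical
  unfold ms
  apply Finset.single_le_sum (f := m)
  · intro y hy
    exact hm y (Finset.mem_filter.mp hy).1
  · exact Finset.mem_filter.mpr ⟨hx, rfl⟩

theorem isCompact_Pt (X : Finset ℂ) {a b : ℤ} (hab : a ≤ b) : IsCompact (Pt X a b) := by
  classical
  have hcl : IsClosed (Pt X a b) := by
    have h1 : Pt X a b = (⋂ x ∈ X, {m : X → ℝ | 0 ≤ xt X m x}) ∩
        ⋂ x ∈ X, ⋂ k ∈ Finset.Icc a b, {m : X → ℝ | ms X (xt X m) k x ≤ (2 : ℝ) ^ (-k) / 16} := by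
      ext m
      simp only [Pt, mem_setOf_eq, mem_inter_iff, mem_iInter]
    rw [h1]
    apply IsClosed.inter
    · refine isClosed_iInter fun x => isClosed_iInter fun _ => ?_
      exact isClosed_le continuous_const (continuous_xt X x)
    · refine isClosed_iInter fun x => isClosed_iInter fun _ => isClosed_iInter fun k =>
        isClosed_iInter fun _ => ?_
      refine isClosed_le ?_ continuous_const
      unfold ms
      exact continuous_finsetSum _ fun y _ => continuous_xt X y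
  have hsub : Pt X a b ⊆ Set.pi univ (fun _ : X => Icc (0 : ℝ) ((2 : ℝ) ^ (-b) / 16)) := by
    intro m hm x _
    have h1 := hm.1 x x.2
    have h2 := hm.2 x x.2 b (Finset.mem_Icc.mpr ⟨hab, le_rfl⟩)
    have h3 := le_ms hm.1 b x.2
    rw [xt_of_mem m x.2] at h1 h3
    exact ⟨h1, h3.trans h2⟩
  exact (isCompact_univ_pi fun _ => isCompact_Icc).of_isClosed_subset hcl hsub

/-- A maximal measure: every point is in a saturated cell. -/
theorem exists_max (X : Finset ℂ) {a b : ℤ} (hab : a ≤ b) :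
    ∃ m : ℂ → ℝ, (∀ x ∈ X, 0 ≤ m x) ∧
      (∀ x ∈ X, ∀ k ∈ Finset.Icc a b, ms X m k x ≤ (2 : ℝ) ^ (-k) / 16) ∧
      ∀ x ∈ X, ∃ k ∈ Finset.Icc a b, ms X m k x = (2 : ℝ) ^ (-k) / 16 := by
  classical
  have hne : (Pt X a b).Nonempty := by
    refine ⟨0, ?_, ?_⟩
    · intro x hx
      rw [xt_of_mem _ hx]
      exact le_rfl
    · intro x _ k _
      have h1 : ms X (xt X 0) k x = 0 := by
        unfold ms
        apply Finset.sum_eq_zero
        intro y hy
        rw [xt_of_mem _ (Finset.mem_filter.mp hy).1]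
        rfl
      rw [h1]
      positivity
  have hcont : Continuous (fun m : X → ℝ => ∑ x ∈ X, xt X m x) :=
    continuous_finsetSum _ fun y _ => continuous_xt X y
  obtain ⟨m, hm, hmax⟩ := (isCompact_Pt X hab).exists_isMaxOn hne hcont.continuousOn
  refine ⟨xt X m, hm.1, hm.2, ?_⟩
  intro x₀ hx₀
  by_contra hcon
  push Not at hcon
  have hlt : ∀ k ∈ Finset.Icc a b, ms X (xt X m) k x₀ < (2 : ℝ) ^ (-k) / 16 :=
    fun k hk => lt_of_le_of_ne (hm.2 x₀ hx₀ k hk) (hcon k hk)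
  obtain ⟨k₀, hk₀, hmin⟩ := Finset.exists_min_image (Finset.Icc a b)
    (fun k => (2 : ℝ) ^ (-k) / 16 - ms X (xt X m) k x₀) ⟨a, Finset.mem_Icc.mpr ⟨le_rfl, hab⟩⟩
  set δ : ℝ := (2 : ℝ) ^ (-k₀) / 16 - ms X (xt X m) k₀ x₀ with hδ
  have hδ0 : 0 < δ := by
    have := hlt k₀ hk₀
    rw [hδ]
    linarith
  -- the larger measure
  let m' : X → ℝ := fun y => m y + (if y = ⟨x₀, hx₀⟩ then δ else 0)
  have hx' : ∀ y ∈ X, xt X m' y = xt X m y + (if y = x₀ then δ else 0) := by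
    intro y hy
    rw [xt_of_mem _ hy, xt_of_mem _ hy]
    by_cases h : y = x₀
    · subst h
      simp [m']
    · have h2 : (⟨y, hy⟩ : X) ≠ ⟨x₀, hx₀⟩ := fun e => h (congrArg Subtype.val e)
      simp [m', h]
  have hsum : ∀ (p : ℂ → Prop) [DecidablePred p], ∑ y ∈ X.filter p, xt X m' y =
      ∑ y ∈ X.filter p, xt X m y + (if p x₀ then δ else 0) := by
    intro p _
    rw [Finset.sum_congr rfl (fun y hy => hx' y (Finset.mem_filter.mp hy).1),
      Finset.sum_add_distrib]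
    congr 1
    rw [Finset.sum_ite_eq']
    by_cases h : p x₀
    · rw [if_pos (Finset.mem_filter.mpr ⟨hx₀, h⟩), if_pos h]
    · rw [if_neg (fun h' => h (Finset.mem_filter.mp h').2), if_neg h]
  have hm' : m' ∈ Pt X a b := by
    refine ⟨?_, ?_⟩
    · intro x hx
      rw [hx' x hx]
      have := hm.1 x hx
      split_ifs <;> linarith
    · intro x hx k hk
      unfold ms
      rw [hsum (fun y => cell 0 k y = cell 0 k x)]
      by_cases h : cell 0 k x₀ = cell 0 k x
      · rw [if_pos h]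
        have h3 := hmin k hk
        have h4 : ms X (xt X m) k x₀ = ms X (xt X m) k x := ms_congr _ h
        have h5 : ∑ y ∈ X.filter (fun y => cell 0 k y = cell 0 k x), xt X m y =
            ms X (xt X m) k x := rfl
        rw [h5, ← h4]
        linarith
      · rw [if_neg h, add_zero]
        exact hm.2 x hx k hk
  have h6 := hmax hm'
  simp only [mem_setOf_eq] at h6
  have h7 := hsum (fun _ => True)
  rw [Finset.filter_true, if_pos trivial] at h7
  rw [h7] at h6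
  linarith

open Classical in
/-- The mass of a set which meets at most four cells. -/
theorem four {X : Finset ℂ} {m : ℂ → ℝ} (hm : ∀ x ∈ X, 0 ≤ m x) (k : ℤ) {B : ℝ} (hB : 0 ≤ B)
    (hc : ∀ x ∈ X, ms X m k x ≤ B) (p : ℂ → Prop) [DecidablePred p] (u v : ℤ)
    (hp : ∀ x ∈ X, p x → ((cell 0 k x).1 = u ∨ (cell 0 k x).1 = u + 1) ∧
      ((cell 0 k x).2 = v ∨ (cell 0 k x).2 = v + 1)) :
    ∑ x ∈ X.filter p, m x ≤ 4 * B := by
  set C : Finset (ℤ × ℤ) := ({u, u + 1} : Finset ℤ) ×ˢ ({v, v + 1} : Finset ℤ) with hC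
  have hmaps : ∀ x ∈ X.filter p, cell 0 k x ∈ C := by
    intro x hx
    obtain ⟨h1, h2⟩ := Finset.mem_filter.mp hx
    obtain ⟨h3, h4⟩ := hp x h1 h2
    rw [hC, Finset.mem_product]
    simp only [Finset.mem_insert, Finset.mem_singleton]
    exact ⟨h3, h4⟩
  rw [← Finset.sum_fiberwise_of_maps_to hmaps]
  have hcard : C.card ≤ 4 := by
    rw [hC, Finset.card_product]
    calc _ ≤ 2 * 2 := Nat.mul_le_mul Finset.card_le_two Finset.card_le_two
      _ = 4 := rfl
  have hle : ∀ c ∈ C, ∑ x ∈ (X.filter p).filter (fun x => cell 0 k x = c), m x ≤ B := by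
    intro c _
    by_cases h : ((X.filter p).filter (fun x => cell 0 k x = c)).Nonempty
    · obtain ⟨x₀, hx₀⟩ := h
      obtain ⟨h1, h2⟩ := Finset.mem_filter.mp hx₀
      have h3 := (Finset.mem_filter.mp h1).1
      refine le_trans ?_ (hc x₀ h3)
      unfold ms
      apply Finset.sum_le_sum_of_subset_of_nonneg
      · intro y hy
        obtain ⟨h4, h5⟩ := Finset.mem_filter.mp hy
        exact Finset.mem_filter.mpr ⟨(Finset.mem_filter.mp h4).1, h5.trans h2.symm⟩
      · intro y hy _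
        exact hm y (Finset.mem_filter.mp hy).1
    · rw [Finset.not_nonempty_iff_eq_empty] at h
      rw [h, Finset.sum_empty]
      exact hB
  calc ∑ c ∈ C, ∑ x ∈ (X.filter p).filter (fun x => cell 0 k x = c), m x
      ≤ ∑ _c ∈ C, B := Finset.sum_le_sum hle
    _ = C.card * B := by rw [Finset.sum_const, nsmul_eq_mul]
    _ ≤ 4 * B := by
        apply mul_le_mul_of_nonneg_right _ hB
        exact_mod_cast hcard

theorem floor_two {a t s : ℝ} (h1 : a ≤ t) (h2 : t ≤ a + s) (hs : s ≤ 1) :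
    ⌊t⌋ = ⌊a⌋ ∨ ⌊t⌋ = ⌊a⌋ + 1 := by
  have h3 : ⌊a⌋ ≤ ⌊t⌋ := Int.floor_le_floor h1
  have h4 : ⌊t⌋ ≤ ⌊a⌋ + 1 := by
    rw [← Int.floor_add_one]
    exact Int.floor_le_floor (by linarith)
  omega

end FROST

open FROST in
theorem FROST_thm : Stmt_CELL → Stmt_FROST := by
  classical
  rintro ⟨hnest, hdiam, -⟩ F η hF hcov ε hε
  -- the box and the bottom level
  obtain ⟨R, hR⟩ := hF.isBounded.exists_norm_le
  obtain ⟨K, hK⟩ := pow_unbounded_of_one_lt R (one_lt_two (α := ℝ))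
  obtain ⟨n, hn⟩ := exists_pow_lt_of_lt_one hε (by norm_num : (1 / 2 : ℝ) < 1)
  have hre : ∀ x ∈ F, |x.re| < 2 ^ K := fun x hx =>
    lt_of_le_of_lt ((Complex.abs_re_le_norm x).trans (hR x hx)) hK
  have him : ∀ x ∈ F, |x.im| < 2 ^ K := fun x hx =>
    lt_of_le_of_lt ((Complex.abs_im_le_norm x).trans (hR x hx)) hK
  have hfin : (cell 0 (n : ℤ) '' F).Finite := by
    set M : ℝ := (2 : ℝ) ^ (n : ℤ) * 2 ^ K with hM
    have h2n : (0 : ℝ) < (2 : ℝ) ^ (n : ℤ) := by positivity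
    apply Set.Finite.subset (Set.finite_Icc ((⌊-M⌋, ⌊-M⌋) : ℤ × ℤ) (⌊M⌋, ⌊M⌋))
    rintro c ⟨x, hx, rfl⟩
    have h1 := abs_lt.mp (hre x hx)
    have h2 := abs_lt.mp (him x hx)
    have key : ∀ t : ℝ, -2 ^ K < t → t < 2 ^ K → ⌊-M⌋ ≤ ⌊(2 : ℝ) ^ (n : ℤ) * t⌋ ∧
        ⌊(2 : ℝ) ^ (n : ℤ) * t⌋ ≤ ⌊M⌋ := by
      intro t h3 h4
      constructor
      · apply Int.floor_le_floor
        rw [hM]
        nlinarith
      · apply Int.floor_le_floor
        rw [hM]
        nlinarith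
    have h3 := key (x - 0).re (by simpa using h1.1) (by simpa using h1.2)
    have h4 := key (x - 0).im (by simpa using h2.1) (by simpa using h2.2)
    exact ⟨⟨h3.1, h4.1⟩, ⟨h3.2, h4.2⟩⟩
  -- the points
  have hch : ∀ c : ℤ × ℤ, ∃ x : ℂ, c ∈ cell 0 (n : ℤ) '' F → x ∈ F ∧ cell 0 (n : ℤ) x = c := by
    intro c
    by_cases h : c ∈ cell 0 (n : ℤ) '' F
    · obtain ⟨x, hx, hxc⟩ := h
      exact ⟨x, fun _ => ⟨hx, hxc⟩⟩
    · exact ⟨0, fun h' => absurd h' h⟩
  choose pt hpt using hch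
  set X : Finset ℂ := hfin.toFinset.image pt with hX
  have hXF : ∀ x ∈ X, x ∈ F := by
    intro x hx
    obtain ⟨c, hc, rfl⟩ := Finset.mem_image.mp hx
    exact (hpt c (hfin.mem_toFinset.mp hc)).1
  have hFX : ∀ y ∈ F, ∃ x ∈ X, cell 0 (n : ℤ) x = cell 0 (n : ℤ) y := by
    intro y hy
    have h1 : cell 0 (n : ℤ) y ∈ cell 0 (n : ℤ) '' F := ⟨y, hy, rfl⟩
    exact ⟨pt (cell 0 n y), Finset.mem_image.mpr ⟨_, hfin.mem_toFinset.mpr h1, rfl⟩, (hpt _ h1).2⟩
  -- the maximal measure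
  have hKn : -(K : ℤ) ≤ (n : ℤ) := by omega
  obtain ⟨m, hm0, hm1, hsat⟩ := exists_max X hKn
  refine ⟨X, m, hXF, ⟨hm0, ?_⟩, ?_⟩
  · -- growth
    intro z r hr
    have hr0 : 0 < r := hε.trans_le hr
    obtain ⟨j, hj1, hj2⟩ := exists_mem_Ioc_zpow (show 0 < 2 * r by linarith)
      (one_lt_two (α := ℝ))
    set k : ℤ := -j - 1 with hk
    have hkk1 : (2 : ℝ) ^ (-k - 1) < 2 * r := by
      have : -k - 1 = j := by omega
      rw [this]
      exact hj1
    have hkk2 : 2 * r ≤ (2 : ℝ) ^ (-k) := by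
      have : -k = j + 1 := by omega
      rw [this]
      exact hj2
    have h2k : (2 : ℝ) ^ (-k) = 2 * (2 : ℝ) ^ (-k - 1) := by
      rw [show -k = (-k - 1) + 1 by ring, zpow_add_one₀ (two_ne_zero), show -k - 1 + 1 - 1 = -k - 1 by ring]
      ring
    have hkn : k ≤ n := by
      by_contra hlt
      push Not at hlt
      have h1 : (2 : ℝ) ^ (-k) ≤ (2 : ℝ) ^ (-(n : ℤ)) :=
        zpow_le_zpow_right₀ one_le_two (by omega)
      have h2 : (2 : ℝ) ^ (-(n : ℤ)) = (1 / 2 : ℝ) ^ n := by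
        rw [zpow_neg, zpow_natCast, one_div, inv_pow]
      rw [h2] at h1
      linarith
    by_cases hkK : -(K : ℤ) ≤ k
    · have hkpos : (0 : ℝ) < (2 : ℝ) ^ k := by positivity
      have hs : (2 : ℝ) ^ k * (2 * r) ≤ 1 := by
        calc (2 : ℝ) ^ k * (2 * r) ≤ (2 : ℝ) ^ k * (2 : ℝ) ^ (-k) :=
              mul_le_mul_of_nonneg_left hkk2 hkpos.le
          _ = 1 := by
              rw [← zpow_add₀ (two_ne_zero)]
              simp
      have h4 := four hm0 k (B := (2 : ℝ) ^ (-k) / 16) (by positivity)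
        (fun x hx => hm1 x hx k (Finset.mem_Icc.mpr ⟨hkK, hkn⟩)) (fun x => ‖x - z‖ ≤ r)
        ⌊(2 : ℝ) ^ k * (z.re - r)⌋ ⌊(2 : ℝ) ^ k * (z.im - r)⌋ (by
          intro x _ hxz
          have h1 : |(x - z).re| ≤ r := (Complex.abs_re_le_norm _).trans hxz
          have h2 : |(x - z).im| ≤ r := (Complex.abs_im_le_norm _).trans hxz
          rw [Complex.sub_re, abs_le] at h1
          rw [Complex.sub_im, abs_le] at h2
          constructor
          · have e1 : (cell 0 k x).1 = ⌊(2 : ℝ) ^ k * x.re⌋ := by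
              simp [cell]
            rw [e1]
            refine floor_two (s := (2 : ℝ) ^ k * (2 * r)) ?_ ?_ hs
            · exact mul_le_mul_of_nonneg_left (by linarith) hkpos.le
            · rw [← mul_add]
              exact mul_le_mul_of_nonneg_left (by linarith) hkpos.le
          · have e1 : (cell 0 k x).2 = ⌊(2 : ℝ) ^ k * x.im⌋ := by
              simp [cell]
            rw [e1]
            refine floor_two (s := (2 : ℝ) ^ k * (2 * r)) ?_ ?_ hs
            · exact mul_le_mul_of_nonneg_left (by linarith) hkpos.le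
            · rw [← mul_add]
              exact mul_le_mul_of_nonneg_left (by linarith) hkpos.le)
      calc ∑ x ∈ X.filter (fun x => ‖x - z‖ ≤ r), m x ≤ 4 * ((2 : ℝ) ^ (-k) / 16) := h4
        _ ≤ r := by linarith
    · push Not at hkK
      have h4 := four hm0 (-(K : ℤ)) (B := (2 : ℝ) ^ (K : ℤ) / 16) (by positivity)
        (fun x hx => by
          have := hm1 x hx (-(K : ℤ)) (Finset.mem_Icc.mpr ⟨le_rfl, hKn⟩)
          rwa [neg_neg] at this) (fun x => ‖x - z‖ ≤ r) (-1) (-1) (by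
          intro x hx _
          have h1 := abs_lt.mp (hre x (hXF x hx))
          have h2 := abs_lt.mp (him x (hXF x hx))
          have hpos : (0 : ℝ) < (2 : ℝ) ^ K := by positivity
          have hz : (2 : ℝ) ^ (-(K : ℤ)) = 1 / 2 ^ K := by
            rw [zpow_neg, zpow_natCast, one_div]
          have key : ∀ t : ℝ, -2 ^ K < t → t < 2 ^ K →
              ⌊(2 : ℝ) ^ (-(K : ℤ)) * t⌋ = -1 ∨ ⌊(2 : ℝ) ^ (-(K : ℤ)) * t⌋ = -1 + 1 := by
            intro t h3 h4
            have h5 : -1 ≤ ⌊(2 : ℝ) ^ (-(K : ℤ)) * t⌋ := by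
              rw [Int.le_floor, hz, one_div, inv_mul_eq_div, le_div_iff₀ hpos]
              push_cast
              linarith
            have h6 : ⌊(2 : ℝ) ^ (-(K : ℤ)) * t⌋ < 1 := by
              rw [Int.floor_lt, hz, one_div, inv_mul_eq_div, div_lt_iff₀ hpos]
              push_cast
              linarith
            omega
          constructor
          · have e1 : (cell 0 (-(K : ℤ)) x).1 = ⌊(2 : ℝ) ^ (-(K : ℤ)) * x.re⌋ := by
              simp [cell]
            rw [e1]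
            exact key _ h1.1 h1.2
          · have e1 : (cell 0 (-(K : ℤ)) x).2 = ⌊(2 : ℝ) ^ (-(K : ℤ)) * x.im⌋ := by
              simp [cell]
            rw [e1]
            exact key _ h2.1 h2.2)
      have h5 : (2 : ℝ) ^ (K : ℤ) ≤ (2 : ℝ) ^ (-k - 1) :=
        zpow_le_zpow_right₀ one_le_two (by omega)
      calc ∑ x ∈ X.filter (fun x => ‖x - z‖ ≤ r), m x ≤ 4 * ((2 : ℝ) ^ (K : ℤ) / 16) := h4
        _ ≤ r := by linarith
  · -- the cover
    have hmin : ∀ x : ℂ, ∃ k : ℤ, x ∈ X → k ∈ Finset.Icc (-(K : ℤ)) (n : ℤ) ∧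
        ms X m k x = (2 : ℝ) ^ (-k) / 16 ∧
        ∀ k' ∈ Finset.Icc (-(K : ℤ)) (n : ℤ), ms X m k' x = (2 : ℝ) ^ (-k') / 16 → k ≤ k' := by
      intro x
      by_cases hx : x ∈ X
      · obtain ⟨k₁, hk₁, hs₁⟩ := hsat x hx
        obtain ⟨k, hk, hmn⟩ := Finset.exists_min_image
          ((Finset.Icc (-(K : ℤ)) (n : ℤ)).filter
            (fun k => ms X m k x = (2 : ℝ) ^ (-k) / 16)) id
          ⟨k₁, Finset.mem_filter.mpr ⟨hk₁, hs₁⟩⟩
        obtain ⟨h1, h2⟩ := Finset.mem_filter.mp hk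
        exact ⟨k, fun _ => ⟨h1, h2, fun k' h3 h4 => hmn k' (Finset.mem_filter.mpr ⟨h3, h4⟩)⟩⟩
      · exact ⟨0, fun h => absurd h hx⟩
    choose kk hkk using hmin
    set Q : ℂ → ℤ × (ℤ × ℤ) := fun x => (kk x, cell 0 (kk x) x) with hQ
    have hQeq : ∀ x ∈ X, ∀ y ∈ X, cell 0 (kk x) y = cell 0 (kk x) x → Q y = Q x := by
      intro x hx y hy h
      obtain ⟨hx1, hx2, hx3⟩ := hkk x hx
      obtain ⟨hy1, hy2, hy3⟩ := hkk y hy
      have h1 : kk y ≤ kk x := hy3 (kk x) hx1 (by rw [ms_congr m h, hx2])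
      have h2 : cell 0 (kk y) y = cell 0 (kk y) x := hnest 0 (kk y) (kk x) y x h1 h
      have h3 : kk x ≤ kk y := hx3 (kk y) hy1 (by rw [← ms_congr m h2, hy2])
      have h4 : kk y = kk x := le_antisymm h1 h3
      rw [hQ]
      simp only
      rw [h4, h]
    have hfib : ∀ x ∈ X, ∑ y ∈ X.filter (fun y => Q y = Q x), m y = (2 : ℝ) ^ (-(kk x)) / 16 := by
      intro x hx
      rw [← (hkk x hx).2.1]
      unfold ms
      apply Finset.sum_congr _ (fun _ _ => rfl)
      ext y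
      simp only [Finset.mem_filter]
      constructor
      · rintro ⟨h1, h2⟩
        have h3 : kk y = kk x := congrArg Prod.fst h2
        have h4 : cell 0 (kk y) y = cell 0 (kk x) x := congrArg Prod.snd h2
        rw [h3] at h4
        exact ⟨h1, h4⟩
      · rintro ⟨h1, h2⟩
        exact ⟨h1, hQeq x hx y h1 h2⟩
    have htot : ∑ x ∈ X, m x = ∑ q ∈ X.image Q, (2 : ℝ) ^ (-q.1) / 16 := by
      rw [← Finset.sum_fiberwise_of_maps_to (fun x hx => Finset.mem_image_of_mem Q hx)]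
      apply Finset.sum_congr rfl
      intro q hq
      obtain ⟨x, hx, rfl⟩ := Finset.mem_image.mp hq
      exact hfib x hx
    -- the centres
    have hce : ∀ q : ℤ × (ℤ × ℤ), ∃ x : ℂ, q ∈ X.image Q → x ∈ X ∧ Q x = q := by
      intro q
      by_cases h : q ∈ X.image Q
      · obtain ⟨x, hx, hxq⟩ := Finset.mem_image.mp h
        exact ⟨x, fun _ => ⟨hx, hxq⟩⟩
      · exact ⟨0, fun h' => absurd h' h⟩
    choose ct hct using hce
    have hC : Cov F (∑ q ∈ X.image Q, 3 / 2 * (2 : ℝ) ^ (-q.1)) := by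
      apply cov_of_finset F (X.image Q) ct
      · intro q _
        positivity
      · intro y hy
        obtain ⟨x, hx, hxy⟩ := hFX y hy
        have hq : Q x ∈ X.image Q := Finset.mem_image_of_mem Q hx
        refine ⟨Q x, hq, ?_⟩
        obtain ⟨h1, h2⟩ := hct (Q x) hq
        have h3 : kk (ct (Q x)) = kk x := congrArg Prod.fst h2
        have h4 : cell 0 (kk (ct (Q x))) (ct (Q x)) = cell 0 (kk x) x := congrArg Prod.snd h2
        rw [h3] at h4
        have h5 : kk x ≤ n := (Finset.mem_Icc.mp (hkk x hx).1).2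
        have h6 : cell 0 (kk x) x = cell 0 (kk x) y := hnest 0 (kk x) n x y h5 hxy
        exact hdiam 0 (kk x) y (ct (Q x)) (h6.symm.trans h4.symm)
    have h1 := hcov _ hC
    have h2 : ∑ q ∈ X.image Q, 3 / 2 * (2 : ℝ) ^ (-q.1) = 24 * ∑ x ∈ X, m x := by
      rw [htot, Finset.mul_sum]
      apply Finset.sum_congr rfl
      intro q _
      ring
    rw [h2] at h1
    linarith

end Pool.Agent.ANL
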