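import Pool.Agent.ANL.Stmts

/-!
# FSUM: the sum over all types (MP_98e313_an)
-/

set_option autoImplicit false

namespace Pool.Agent.ANL

open MeasureTheory Set

namespace FSUM

/-- A finite geometric sum with integer exponents. -/
theorem geo_up (a : ℤ) (n : ℕ) :
    ∑ b ∈ Finset.Icc a (a + n - 1), (2 : ℝ) ^ b = (2 : ℝ) ^ (a + n) - (2 : ℝ) ^ a := by
  induction n with
  | zero =>
    have : Finset.Icc a (a + (0 : ℕ) - 1) = ∅ := by
      apply Finset.Icc_eq_empty; push_cast; omega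
    rw [this]; simp
  | succ n ih =>
    have hI : Finset.Icc a (a + (n + 1 : ℕ) - 1) = insert (a + n) (Finset.Icc a (a + n - 1)) := by
      ext x
      simp only [Finset.mem_Icc, Finset.mem_insert]
      push_cast
      omega
    rw [hI, Finset.sum_insert (by simp), ih]
    have h2 : (2 : ℝ) ^ (a + (n + 1 : ℕ)) = 2 * (2 : ℝ) ^ (a + n) := by
      push_cast
      rw [show a + ((n : ℤ) + 1) = (a + n) + 1 by ring, zpow_add_one₀ (by norm_num)]
      ring
    rw [h2]; ring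

/-- The weights of the short levels. -/
theorem geo_b (a d : ℤ) : ∑ b ∈ Finset.Icc a d, (2 : ℝ) ^ b / (2 : ℝ) ^ d ≤ 2 := by
  rcases lt_or_ge d a with h | h
  · rw [Finset.Icc_eq_empty (by omega)]; simp
  · obtain ⟨n, hn⟩ := Int.eq_ofNat_of_zero_le (show 0 ≤ d + 1 - a by omega)
    have hd : d = a + n - 1 := by omega
    have hs := geo_up a n
    rw [← hd] at hs
    rw [← Finset.sum_div, hs, div_le_iff₀ (by positivity)]
    have h3 : (2 : ℝ) ^ (a + (n : ℤ)) = 2 * (2 : ℝ) ^ d := by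
      rw [show a + (n : ℤ) = d + 1 by omega, zpow_add_one₀ (by norm_num)]; ring
    rw [h3]
    have : (0 : ℝ) < (2 : ℝ) ^ a := by positivity
    linarith

/-- The weights of the long levels. -/
theorem geo_d (b B : ℤ) : ∑ d ∈ Finset.Icc b B, (2 : ℝ) ^ b / (2 : ℝ) ^ d ≤ 2 := by
  have h := geo_b (-B) (-b)
  have e : ∑ d ∈ Finset.Icc b B, (2 : ℝ) ^ b / (2 : ℝ) ^ d =
      ∑ c ∈ Finset.Icc (-B) (-b), (2 : ℝ) ^ c / (2 : ℝ) ^ (-b) := by
    apply Finset.sum_nbij' (fun d => -d) (fun c => -c)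
    · intro d hd; simp only [Finset.mem_Icc] at hd ⊢; omega
    · intro d hd; simp only [Finset.mem_Icc] at hd ⊢; omega
    · intro d _; simp
    · intro d _; simp
    · intro d _
      rw [zpow_neg, zpow_neg, div_inv_eq_mul, div_eq_mul_inv, mul_comm]
  rw [e]; exact h

/-- Sum of the short-level terms. -/
theorem swap (B0 B1 : ℤ) (F : ℤ → ℝ) (hF : ∀ b, 0 ≤ F b) :
    ∑ d ∈ Finset.Icc B0 B1, ∑ b ∈ Finset.Icc B0 d, (2 : ℝ) ^ b / (2 : ℝ) ^ d * F b ≤
      2 * ∑ b ∈ Finset.Icc B0 B1, F b := by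
  rw [Finset.sum_comm' (s' := fun b => Finset.Icc b B1) (t' := Finset.Icc B0 B1)]
  · rw [Finset.mul_sum]
    apply Finset.sum_le_sum
    intro b _
    rw [← Finset.sum_mul]
    exact mul_le_mul_of_nonneg_right (geo_d b B1) (hF b)
  · intro d b
    simp only [Finset.mem_Icc]
    omega

/-- Sum of the long-level terms. -/
theorem noswap (B0 B1 : ℤ) (F : ℤ → ℝ) (hF : ∀ b, 0 ≤ F b) :
    ∑ d ∈ Finset.Icc B0 B1, ∑ b ∈ Finset.Icc B0 d, (2 : ℝ) ^ b / (2 : ℝ) ^ d * F d ≤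
      2 * ∑ d ∈ Finset.Icc B0 B1, F d := by
  rw [Finset.mul_sum]
  apply Finset.sum_le_sum
  intro d _
  rw [← Finset.sum_mul]
  exact mul_le_mul_of_nonneg_right (geo_b B0 d) (hF d)

/-- The weights of the resolutions. -/
theorem geo_j (J : ℕ) : ∑ j ∈ Finset.range J, (1 / 4 : ℝ) ^ j * ((j : ℝ) + 14) ≤ 20 := by
  have h : ∀ J : ℕ, ∑ j ∈ Finset.range J, (1 / 4 : ℝ) ^ j * ((j : ℝ) + 14) ≤
      20 - (1 / 4 : ℝ) ^ J * ((4 / 3) * J + 20) := by
    intro J
    induction J with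
    | zero => simp
    | succ J ih =>
      rw [Finset.sum_range_succ]
      refine le_trans (add_le_add_left ih _) ?_
      have h1 : (0 : ℝ) < (1 / 4 : ℝ) ^ J := by positivity
      have h2 : (0 : ℝ) ≤ (J : ℝ) := Nat.cast_nonneg J
      rw [pow_succ]
      push_cast
      nlinarith [mul_nonneg h1.le h2]
  refine le_trans (h J) ?_
  have : (0 : ℝ) ≤ (1 / 4 : ℝ) ^ J * ((4 / 3) * J + 20) := by positivity
  linarith

open Classical in
theorem Mc_nonneg (X : Finset ℂ) (m : ℂ → ℝ) (f : ℂ → ℤ × ℤ) (hm : ∀ x ∈ X, 0 < m x) (w : ℂ) :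
    0 ≤ Mc X m f w :=
  Finset.sum_nonneg fun y hy => (hm y (Finset.mem_filter.1 hy).1).le

open Classical in
theorem Sm_nonneg {N : ℕ} (X : Finset ℂ) (m : ℂ → ℝ) (f g : ℂ → ℤ × ℤ) (lab : ℂ → Fin N)
    (hm : ∀ x ∈ X, 0 < m x) : 0 ≤ Sm X m f g lab := by
  apply Finset.sum_nonneg
  intro w hw
  apply div_nonneg
  · exact mul_nonneg (hm w hw).le
      (Finset.sum_nonneg fun y hy => (hm y (Finset.mem_filter.1 hy).1).le)
  · exact Mc_nonneg X m f hm w

open Classical in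
theorem Me_nonneg {N : ℕ} (X : Finset ℂ) (m : ℂ → ℝ) (lab : ℂ → Fin N) (e : Fin N → Prop)
    (hm : ∀ x ∈ X, 0 < m x) : 0 ≤ Me X m lab e :=
  Finset.sum_nonneg fun y hy => (hm y (Finset.mem_filter.1 hy).1).le

/-- Reindexing the levels. -/
theorem reindex (F : ℤ → ℝ) (s B0 B1 : ℤ) :
    ∑ b ∈ Finset.Icc B0 B1, F (-b - s) = ∑ k ∈ Finset.Icc (-B1 - s) (-B0 - s), F k := by
  apply Finset.sum_nbij' (fun b => -b - s) (fun k => -k - s)
  · intro d hd; simp only [Finset.mem_Icc] at hd ⊢; omega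
  · intro d hd; simp only [Finset.mem_Icc] at hd ⊢; omega
  · intro d _; simp
  · intro d _; simp
  · intro d _; rfl

end FSUM

open FSUM in
theorem FSUM_thm : Stmt_CELL → Stmt_TELE → Stmt_EXT → Stmt_FSUM := by
  intro hC hT hE
  refine ⟨640000, by norm_num, ?_⟩
  intro N lab κ X m K hN hκ hm B0 B1 J
  set M : ℝ := ∑ x ∈ X, m x with hM
  have hM0 : 0 ≤ M := Finset.sum_nonneg fun x hx => (hm x hx).le
  have hlog : 0 ≤ Real.log N := Real.log_nonneg (by exact_mod_cast hN)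
  set S : ℤ → (Bool × Bool) → ℤ → ℕ → ℝ := fun s ω b j =>
    Sm X m (cell (sh K ω) (-b - s)) (cell (sh K ω) (-b - s + (j + 14 : ℕ))) lab with hS
  have hS0 : ∀ s ω b j, 0 ≤ S s ω b j := fun s ω b j => Sm_nonneg X m _ _ lab hm
  -- the telescoping bound
  have hTE : ∀ (s : ℤ) (ω : Bool × Bool) (j : ℕ),
      ∑ b ∈ Finset.Icc B0 B1, S s ω b j ≤ ((j : ℝ) + 14) * Real.log N * M := by
    intro s ω j
    have h := hT N X m lab (fun k => cell (sh K ω) k) hN hm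
      (fun k l x y hkl hxy => hC.1 (sh K ω) k l x y hkl hxy) (-B1 - s) (-B0 - s) (j + 14)
    have h2 := reindex (fun k => Sm X m (cell (sh K ω) k) (cell (sh K ω) (k + (j + 14 : ℕ))) lab)
      s B0 B1
    push_cast at h h2 ⊢
    simp only [hS]
    push_cast
    rw [h2]
    exact h
  set A : ℤ → ℤ → ℝ := fun s b => ∑ j ∈ Finset.range J, (1 / 4 : ℝ) ^ j * ∑ ω : Bool × Bool, S s ω b j
    with hA
  have hA0 : ∀ s b, 0 ≤ A s b := fun s b => Finset.sum_nonneg fun j _ =>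
    mul_nonneg (by positivity) (Finset.sum_nonneg fun ω _ => hS0 s ω b j)
  have hAs : ∀ s, ∑ b ∈ Finset.Icc B0 B1, A s b ≤ 80 * (Real.log N * M) := by
    intro s
    simp only [hA]
    rw [Finset.sum_comm]
    have h1 : ∀ j ∈ Finset.range J,
        ∑ b ∈ Finset.Icc B0 B1, (1 / 4 : ℝ) ^ j * ∑ ω : Bool × Bool, S s ω b j ≤
          ((1 / 4 : ℝ) ^ j * ((j : ℝ) + 14)) * (4 * (Real.log N * M)) := by
      intro j _
      rw [← Finset.mul_sum, Finset.sum_comm]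
      have h2 : ∑ ω : Bool × Bool, ∑ b ∈ Finset.Icc B0 B1, S s ω b j ≤
          ∑ _ω : Bool × Bool, ((j : ℝ) + 14) * Real.log N * M :=
        Finset.sum_le_sum fun ω _ => hTE s ω j
      have h3 : ∑ _ω : Bool × Bool, ((j : ℝ) + 14) * Real.log N * M =
          4 * (((j : ℝ) + 14) * Real.log N * M) := by
        rw [Finset.sum_const, Finset.card_univ]
        simp
      rw [h3] at h2
      have h4 := mul_le_mul_of_nonneg_left h2 (show (0 : ℝ) ≤ (1 / 4 : ℝ) ^ j by positivity)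
      refine le_trans h4 (le_of_eq ?_)
      ring
    refine le_trans (Finset.sum_le_sum h1) ?_
    rw [← Finset.sum_mul]
    have h5 := mul_le_mul_of_nonneg_right (geo_j J) (show (0 : ℝ) ≤ 4 * (Real.log N * M) by positivity)
    refine le_trans h5 (le_of_eq ?_)
    ring
  set E : ℤ → ℝ := fun d => ∑ j ∈ Finset.range J, (1 / 4 : ℝ) ^ j * Me X m lab (ex κ d j) with hEdef
  have hE0 : ∀ d, 0 ≤ E d := fun d => Finset.sum_nonneg fun j _ =>
    mul_nonneg (by positivity) (Me_nonneg X m lab _ hm)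
  have hEs : ∑ d ∈ Finset.Icc B0 B1, E d ≤ 20000 * M := hE N lab κ X m hκ hm B0 B1 J
  -- the inner sums
  have hin : ∀ b d : ℤ, ∑ j ∈ Finset.range J, ∑ ω' : Bool × Bool, ∑ ω : Bool × Bool,
      Wt X m lab κ K b d j ω' ω =
        (2 : ℝ) ^ b / (2 : ℝ) ^ d * (8 * A 4 b) + (2 : ℝ) ^ b / (2 : ℝ) ^ d * (4 * A 9 d + 16 * E d) := by
    intro b d
    have h1 : ∀ j ∈ Finset.range J, ∑ ω' : Bool × Bool, ∑ ω : Bool × Bool,
        Wt X m lab κ K b d j ω' ω =
          (2 : ℝ) ^ b / (2 : ℝ) ^ d * (8 * ((1 / 4 : ℝ) ^ j * ∑ ω : Bool × Bool, S 4 ω b j)) +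
          (2 : ℝ) ^ b / (2 : ℝ) ^ d * (4 * ((1 / 4 : ℝ) ^ j * ∑ ω : Bool × Bool, S 9 ω d j) +
            16 * ((1 / 4 : ℝ) ^ j * Me X m lab (ex κ d j))) := by
      intro j _
      have h2 : ∀ ω' ω : Bool × Bool, Wt X m lab κ K b d j ω' ω =
          (1 / 4 : ℝ) ^ j * ((2 : ℝ) ^ b / (2 : ℝ) ^ d) *
            (2 * S 4 ω' b j + S 9 ω d j + Me X m lab (ex κ d j)) := fun ω' ω => rfl
      simp only [h2, ← Finset.mul_sum, Finset.sum_add_distrib, Finset.sum_const, Finset.card_univ]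
      simp only [Fintype.card_prod, Fintype.card_bool, nsmul_eq_mul, ← Finset.mul_sum]
      push_cast
      ring
    rw [Finset.sum_congr rfl h1]
    simp only [hA, hEdef]
    rw [Finset.sum_add_distrib, ← Finset.mul_sum, ← Finset.mul_sum, ← Finset.mul_sum,
      Finset.sum_add_distrib, ← Finset.mul_sum, ← Finset.mul_sum]
  have hsum : ∑ d ∈ Finset.Icc B0 B1, ∑ b ∈ Finset.Icc B0 d, ∑ j ∈ Finset.range J,
      ∑ ω' : Bool × Bool, ∑ ω : Bool × Bool, Wt X m lab κ K b d j ω' ω =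
      ∑ d ∈ Finset.Icc B0 B1, ∑ b ∈ Finset.Icc B0 d, (2 : ℝ) ^ b / (2 : ℝ) ^ d * (8 * A 4 b) +
      ∑ d ∈ Finset.Icc B0 B1, ∑ b ∈ Finset.Icc B0 d,
        (2 : ℝ) ^ b / (2 : ℝ) ^ d * (4 * A 9 d + 16 * E d) := by
    rw [← Finset.sum_add_distrib]
    apply Finset.sum_congr rfl
    intro d _
    rw [← Finset.sum_add_distrib]
    exact Finset.sum_congr rfl fun b _ => hin b d
  rw [hsum]
  have k1 := swap B0 B1 (fun b => 8 * A 4 b) (fun b => by have := hA0 4 b; positivity)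
  have k2 := noswap B0 B1 (fun d => 4 * A 9 d + 16 * E d)
    (fun d => by have := hA0 9 d; have := hE0 d; positivity)
  have k3 := hAs 4
  have k4 := hAs 9
  rw [← Finset.mul_sum] at k1
  rw [Finset.sum_add_distrib, ← Finset.mul_sum, ← Finset.mul_sum] at k2
  have hLM : 0 ≤ Real.log N * M := by positivity
  nlinarith [k1, k2, k3, k4, hEs]

end Pool.Agent.ANL
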