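import Pool.Agent.ANL.Stmts

/-!
# The cross product is stable under small displacements
-/

set_option autoImplicit false

namespace Pool.Agent.ANL

open MeasureTheory Set

namespace GEOM

theorem abs_crs_le (u v : ℂ) : |crs u v| ≤ ‖u‖ * ‖v‖ := by
  have h1 : crs u v = ((starRingEnd ℂ) u * v).im := by
    unfold crs
    simp [Complex.mul_im]
    ring
  rw [h1]
  refine (Complex.abs_im_le_norm _).trans ?_
  rw [norm_mul, RCLike.norm_conj]

theorem crs_add (a b e f : ℂ) :
    crs (a + e) (b + f) = crs a b + crs a f + crs e b + crs e f := by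
  unfold crs
  simp only [Complex.add_re, Complex.add_im]
  ring

end GEOM

theorem GEOM_thm : Stmt_GEOM := by
  intro x y z x' y' z' η hη hη' hzy hx hz hy
  have hz' : z' - x' = (z - x) + ((z' - z) - (x' - x)) := by ring
  have hy' : y' - x' = (y - x) + ((y' - y) - (x' - x)) := by ring
  rw [hz', hy', GEOM.crs_add]
  have he : ‖(z' - z) - (x' - x)‖ ≤ 2 * η * ‖z - x‖ := by
    refine (norm_sub_le _ _).trans ?_
    linarith
  have hf : ‖(y' - y) - (x' - x)‖ ≤ 2 * η * ‖y - x‖ := by
    refine (norm_sub_le _ _).trans ?_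
    nlinarith [mul_le_mul_of_nonneg_left hzy hη]
  generalize (z' - z) - (x' - x) = e at *
  generalize (y' - y) - (x' - x) = f at *
  have h1 := GEOM.abs_crs_le (z - x) f
  have h2 := GEOM.abs_crs_le e (y - x)
  have h3 := GEOM.abs_crs_le e f
  have n1 := norm_nonneg (z - x)
  have n2 := norm_nonneg (y - x)
  have n3 := norm_nonneg e
  have n4 := norm_nonneg f
  have k1 : ‖z - x‖ * ‖f‖ ≤ 2 * η * (‖z - x‖ * ‖y - x‖) := by
    nlinarith [mul_le_mul_of_nonneg_left hf n1]
  have k2 : ‖e‖ * ‖y - x‖ ≤ 2 * η * (‖z - x‖ * ‖y - x‖) := by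
    nlinarith [mul_le_mul_of_nonneg_right he n2]
  have k3 : ‖e‖ * ‖f‖ ≤ 4 * η ^ 2 * (‖z - x‖ * ‖y - x‖) := by
    have := mul_le_mul he hf n4 (by positivity)
    nlinarith
  have k4 : 4 * η ^ 2 * (‖z - x‖ * ‖y - x‖) ≤ 2 * η * (‖z - x‖ * ‖y - x‖) := by
    refine mul_le_mul_of_nonneg_right ?_ (mul_nonneg n1 n2)
    nlinarith
  have hpos : 0 ≤ η * (‖z - x‖ * ‖y - x‖) := mul_nonneg hη (mul_nonneg n1 n2)
  have t : crs (z - x) (y - x) = (crs (z - x) (y - x) + crs (z - x) f + crs e (y - x) + crs e f) -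
      crs (z - x) f - crs e (y - x) - crs e f := by ring
  have t2 : |crs (z - x) (y - x)| ≤
      |crs (z - x) (y - x) + crs (z - x) f + crs e (y - x) + crs e f| + |crs (z - x) f| +
        |crs e (y - x)| + |crs e f| := by
    generalize crs (z - x) (y - x) + crs (z - x) f + crs e (y - x) + crs e f = S at *
    rw [t]
    refine (abs_sub _ _).trans (add_le_add ((abs_sub _ _).trans (add_le_add (abs_sub _ _) le_rfl))
      le_rfl)
  refine t2.trans ?_
  nlinarith

end Pool.Agent.ANL
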