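import Pool.Agent.ANL.Stmts

/-!
# HSUM: the sum over the triples of one type
-/

set_option autoImplicit false

namespace Pool.Agent.ANL

open MeasureTheory Set

namespace HSUM

lemma triple (X : Finset ℂ) (p q r : ℂ → ℝ) :
    ∑ x ∈ X, ∑ z ∈ X, ∑ y ∈ X, p x * q z * r y =
      (∑ x ∈ X, p x) * (∑ z ∈ X, q z) * (∑ y ∈ X, r y) := by
  have h1 : ∀ x ∈ X, ∑ z ∈ X, ∑ y ∈ X, p x * q z * r y =
      p x * ((∑ z ∈ X, q z) * ∑ y ∈ X, r y) := by
    intro x _
    have h2 : ∀ z ∈ X, ∑ y ∈ X, p x * q z * r y = p x * (q z * ∑ y ∈ X, r y) := by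
      intro z _
      rw [← Finset.mul_sum]
      ring
    rw [Finset.sum_congr rfl h2, ← Finset.mul_sum, ← Finset.sum_mul]
  rw [Finset.sum_congr rfl h1, ← Finset.sum_mul]
  ring

lemma Mc_congr (X : Finset ℂ) (m : ℂ → ℝ) (f : ℂ → ℤ × ℤ) (w x : ℂ) (h : f w = f x) :
    Mc X m f w = Mc X m f x := by
  unfold Mc
  rw [h]

lemma Mc_pos (X : Finset ℂ) (m : ℂ → ℝ) (f : ℂ → ℤ × ℤ) (hm : ∀ x ∈ X, 0 < m x) (w : ℂ)
    (hw : w ∈ X) : 0 < Mc X m f w := by
  classical
  unfold Mc
  refine Finset.sum_pos' (fun y hy => (hm y (Finset.mem_filter.1 hy).1).le) ⟨w, ?_, hm w hw⟩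
  exact Finset.mem_filter.2 ⟨hw, rfl⟩

lemma miss_nonneg {N : ℕ} (X : Finset ℂ) (m : ℂ → ℝ) (f g : ℂ → ℤ × ℤ) (lab : ℂ → Fin N)
    (hm : ∀ x ∈ X, 0 < m x) (w : ℂ) : 0 ≤ miss X m f g lab w := by
  classical
  unfold miss
  exact Finset.sum_nonneg fun y hy => (hm y (Finset.mem_filter.1 hy).1).le

end HSUM

open Classical in
theorem HSUM_thm : Stmt_HSUM := by
  intro N X m lab f' g' f g e A B hm hA hB
  -- indicator functions
  set i1 : ℂ → ℂ → ℝ := fun w x => if ¬ str X g' lab (lab w) x then 1 else 0 with hi1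
  set i2 : ℂ → ℂ → ℝ := fun w y => if ¬ str X g lab (lab w) y then 1 else 0 with hi2
  set i3 : ℂ → ℝ := fun w => if e (lab w) then 1 else 0 with hi3
  set a : ℂ → ℂ → ℝ := fun w x => if f' x = f' w then m x else 0 with ha
  set b : ℂ → ℂ → ℝ := fun w y => if f y = f w then m y else 0 with hb
  have i1n : ∀ w x, 0 ≤ i1 w x := fun w x => by simp only [hi1]; split_ifs <;> norm_num
  have i2n : ∀ w x, 0 ≤ i2 w x := fun w x => by simp only [hi2]; split_ifs <;> norm_num
  have i3n : ∀ w, 0 ≤ i3 w := fun w => by simp only [hi3]; split_ifs <;> norm_num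
  have an : ∀ w, ∀ x ∈ X, 0 ≤ a w x := fun w x hx => by
    simp only [ha]; split_ifs
    · exact (hm x hx).le
    · exact le_rfl
  have bn : ∀ w, ∀ x ∈ X, 0 ≤ b w x := fun w x hx => by
    simp only [hb]; split_ifs
    · exact (hm x hx).le
    · exact le_rfl
  have sa : ∀ w, ∑ x ∈ X, a w x = Mc X m f' w := fun w => by
    simp only [ha, Mc, Finset.sum_filter]
  have sb : ∀ w, ∑ x ∈ X, b w x = Mc X m f w := fun w => by
    simp only [hb, Mc, Finset.sum_filter]
  have sai : ∀ w, ∑ x ∈ X, a w x * i1 w x = miss X m f' g' lab w := fun w => by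
    simp only [ha, hi1, miss, Finset.sum_filter]
    refine Finset.sum_congr rfl fun x _ => ?_
    by_cases h1 : f' x = f' w <;> by_cases h2 : str X g' lab (lab w) x <;> simp [h1, h2]
  have sbi : ∀ w, ∑ x ∈ X, b w x * i2 w x = miss X m f g lab w := fun w => by
    simp only [hb, hi2, miss, Finset.sum_filter]
    refine Finset.sum_congr rfl fun x _ => ?_
    by_cases h1 : f x = f w <;> by_cases h2 : str X g lab (lab w) x <;> simp [h1, h2]
  set G : ℂ → ℂ → ℂ → ℂ → ℝ := fun w x z y =>
    m w / Mc X m f' w * (a w x * a w z * b w y * (i1 w x + i1 w z + i2 w y + i3 w)) with hG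
  have Gn : ∀ w ∈ X, ∀ x ∈ X, ∀ z ∈ X, ∀ y ∈ X, 0 ≤ G w x z y := by
    intro w hw x hx z hz y hy
    simp only [hG]
    have := HSUM.Mc_pos X m f' hm w hw
    have h1 := i1n w x
    have h2 := i1n w z
    have h3 := i2n w y
    have h4 := i3n w
    have h5 := an w x hx
    have h6 := an w z hz
    have h7 := bn w y hy
    have h8 := (hm w hw).le
    positivity
  -- the pointwise bound
  have key : ∀ x ∈ X, ∀ z ∈ X, ∀ y ∈ X,
      (if Pr X lab f' g' f g e x z y then m x * m z * m y else 0) ≤ ∑ w ∈ X, G w x z y := by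
    intro x hx z hz y hy
    split_ifs with hP
    · obtain ⟨p1, p2, p3, p4⟩ := hP
      have hM := HSUM.Mc_pos X m f' hm x hx
      have h1 : m x * m z * m y = ∑ w ∈ X.filter (fun w => f' w = f' x),
          m w / Mc X m f' x * (m x * m z * m y) := by
        rw [← Finset.sum_mul, ← Finset.sum_div]
        have : ∑ w ∈ X.filter (fun w => f' w = f' x), m w = Mc X m f' x := by
          unfold Mc; rfl
        rw [this, div_self hM.ne', one_mul]
      rw [h1]
      refine le_trans (Finset.sum_le_sum (f := fun w => m w / Mc X m f' x * (m x * m z * m y))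
        (g := fun w => G w x z y) ?_) ?_
      · intro w hw
        obtain ⟨hwX, hwx⟩ := Finset.mem_filter.1 hw
        simp only [hG]
        rw [HSUM.Mc_congr X m f' w x hwx]
        have e1 : a w x = m x := by simp only [ha]; rw [if_pos hwx.symm]
        have e2 : a w z = m z := by simp only [ha]; rw [if_pos (p1.trans hwx.symm)]
        have e3 : b w y = m y := by
          simp only [hb]; rw [if_pos (p2.trans (p3 w hwX hwx).symm)]
        rw [e1, e2, e3]
        have h2 : 1 ≤ i1 w x + i1 w z + i2 w y + i3 w := by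
          have n1 := i1n w x
          have n2 := i1n w z
          have n3 := i2n w y
          have n4 := i3n w
          by_cases c1 : str X g' lab (lab w) x
          · by_cases c2 : str X g' lab (lab w) z
            · by_cases c3 : str X g lab (lab w) y
              · have c4 := p4 (lab w) c1 c2 c3
                have : i3 w = 1 := by simp only [hi3]; rw [if_pos c4]
                linarith
              · have : i2 w y = 1 := by simp only [hi2]; rw [if_pos c3]
                linarith
            · have : i1 w z = 1 := by simp only [hi1]; rw [if_pos c2]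
              linarith
          · have : i1 w x = 1 := by simp only [hi1]; rw [if_pos c1]
            linarith
        have h3 : 0 ≤ m w / Mc X m f' x := div_nonneg (hm w hwX).le hM.le
        have h4 : 0 ≤ m x * m z * m y :=
          mul_nonneg (mul_nonneg (hm x hx).le (hm z hz).le) (hm y hy).le
        refine mul_le_mul_of_nonneg_left ?_ h3
        nlinarith
      · exact Finset.sum_le_sum_of_subset_of_nonneg (Finset.filter_subset _ _)
          (fun w hw _ => Gn w hw x hx z hz y hy)
    · exact Finset.sum_nonneg fun w hw => Gn w hw x hx z hz y hy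
  -- sum over everything
  have step1 : ∑ x ∈ X, ∑ z ∈ X, ∑ y ∈ X,
      (if Pr X lab f' g' f g e x z y then m x * m z * m y else 0) ≤
      ∑ x ∈ X, ∑ z ∈ X, ∑ y ∈ X, ∑ w ∈ X, G w x z y :=
    Finset.sum_le_sum fun x hx => Finset.sum_le_sum fun z hz => Finset.sum_le_sum fun y hy =>
      key x hx z hz y hy
  have step2 : ∑ x ∈ X, ∑ z ∈ X, ∑ y ∈ X, ∑ w ∈ X, G w x z y =
      ∑ w ∈ X, ∑ x ∈ X, ∑ z ∈ X, ∑ y ∈ X, G w x z y := by
    have q1 : ∀ x ∈ X, ∑ z ∈ X, ∑ y ∈ X, ∑ w ∈ X, G w x z y =
        ∑ w ∈ X, ∑ z ∈ X, ∑ y ∈ X, G w x z y := by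
      intro x _
      have q2 : ∀ z ∈ X, ∑ y ∈ X, ∑ w ∈ X, G w x z y = ∑ w ∈ X, ∑ y ∈ X, G w x z y :=
        fun z _ => Finset.sum_comm
      rw [Finset.sum_congr rfl q2, Finset.sum_comm]
    rw [Finset.sum_congr rfl q1, Finset.sum_comm]
  have step3 : ∀ w ∈ X, ∑ x ∈ X, ∑ z ∈ X, ∑ y ∈ X, G w x z y ≤
      A * B * (2 * (m w * miss X m f' g' lab w / Mc X m f' w) +
        m w * miss X m f g lab w / Mc X m f w + m w * i3 w) := by
    intro w hw
    have hM' := HSUM.Mc_pos X m f' hm w hw
    have hM := HSUM.Mc_pos X m f hm w hw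
    have e1 : ∑ x ∈ X, ∑ z ∈ X, ∑ y ∈ X, G w x z y = m w / Mc X m f' w *
        (miss X m f' g' lab w * Mc X m f' w * Mc X m f w +
          Mc X m f' w * miss X m f' g' lab w * Mc X m f w +
          Mc X m f' w * Mc X m f' w * miss X m f g lab w +
          Mc X m f' w * Mc X m f' w * (Mc X m f w * i3 w)) := by
      have t1 := HSUM.triple X (fun x => a w x * i1 w x) (a w) (b w)
      have t2 := HSUM.triple X (a w) (fun x => a w x * i1 w x) (b w)
      have t3 := HSUM.triple X (a w) (a w) (fun x => b w x * i2 w x)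
      have t4 := HSUM.triple X (a w) (a w) (fun x => b w x * i3 w)
      rw [sai, sa, sb] at t1
      rw [sai, sa, sb] at t2
      rw [sbi, sa] at t3
      rw [← Finset.sum_mul (a := i3 w), sa, sb] at t4
      rw [← t1, ← t2, ← t3, ← t4]
      simp only [← Finset.sum_add_distrib, Finset.mul_sum, hG]
      refine Finset.sum_congr rfl fun x _ => Finset.sum_congr rfl fun z _ =>
        Finset.sum_congr rfl fun y _ => ?_
      ring
    rw [e1]
    have hmw := hm w hw
    have n1 := HSUM.miss_nonneg X m f' g' lab hm w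
    have n2 := HSUM.miss_nonneg X m f g lab hm w
    have n3 := i3n w
    have e2 : m w / Mc X m f' w *
        (miss X m f' g' lab w * Mc X m f' w * Mc X m f w +
          Mc X m f' w * miss X m f' g' lab w * Mc X m f w +
          Mc X m f' w * Mc X m f' w * miss X m f g lab w +
          Mc X m f' w * Mc X m f' w * (Mc X m f w * i3 w)) =
        (Mc X m f' w * Mc X m f w) * (2 * (m w * miss X m f' g' lab w / Mc X m f' w) +
        m w * miss X m f g lab w / Mc X m f w + m w * i3 w) := by
      field_simp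
      ring
    rw [e2]
    have hA' := hA w hw
    have hB' := hB w hw
    have h5 : Mc X m f' w * Mc X m f w ≤ A * B :=
      mul_le_mul hA' hB' hM.le (hM'.le.trans hA')
    refine mul_le_mul_of_nonneg_right h5 ?_
    positivity
  refine step1.trans ?_
  rw [step2]
  refine (Finset.sum_le_sum step3).trans ?_
  rw [← Finset.mul_sum]
  refine le_of_eq ?_
  congr 1
  rw [Finset.sum_add_distrib, Finset.sum_add_distrib, ← Finset.mul_sum]
  congr 1
  unfold Me
  rw [Finset.sum_filter]
  refine Finset.sum_congr rfl fun w _ => ?_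
  simp only [hi3]
  split_ifs <;> simp

end Pool.Agent.ANL
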