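import Pool.Agent.ANL.Stmts
import Pool.Agent.FCC.MAXP

/-!
# LIM: the limit of the discrete measures
-/

set_option autoImplicit false

namespace Pool.Agent.ANL

open MeasureTheory Set

namespace LIM

open Filter Topology

/-- The coordinate function. -/
noncomputable def co (F : Set ℂ) : C(F, ℂ) := ⟨Subtype.val, continuous_subtype_val⟩

theorem co_apply (F : Set ℂ) (x : F) : co F x = (x : ℂ) := rfl

/-- `z - x` as a unit. -/
noncomputable def un (F : Set ℂ) (z : ℂ) (hz : z ∉ F) : (C(F, ℂ))ˣ where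
  val := algebraMap ℂ C(F, ℂ) z - co F
  inv := ⟨fun x => (z - (x : ℂ))⁻¹, by
    refine Continuous.inv₀ (by fun_prop) ?_
    intro x h
    exact hz (by rw [sub_eq_zero.mp h]; exact x.2)⟩
  val_inv := by
    ext x
    have h : z - (x : ℂ) ≠ 0 := by
      intro h
      exact hz (by rw [sub_eq_zero.mp h]; exact x.2)
    change (z - (x : ℂ)) * (z - (x : ℂ))⁻¹ = 1
    exact mul_inv_cancel₀ h
  inv_val := by
    ext x
    have h : z - (x : ℂ) ≠ 0 := by
      intro h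
      exact hz (by rw [sub_eq_zero.mp h]; exact x.2)
    change (z - (x : ℂ))⁻¹ * (z - (x : ℂ)) = 1
    exact inv_mul_cancel₀ h

theorem mem_res {F : Set ℂ} {z : ℂ} (hz : z ∉ F) : z ∈ resolventSet ℂ (co F) :=
  ⟨un F z hz, rfl⟩

theorem res_apply {F : Set ℂ} {z : ℂ} (hz : z ∉ F) (x : F) :
    resolvent (co F) z x = (z - (x : ℂ))⁻¹ := by
  have h1 : resolvent (co F) z = ((un F z hz)⁻¹ : (C(F, ℂ))ˣ) := by
    have h2 : algebraMap ℂ C(F, ℂ) z - co F = (un F z hz : C(F, ℂ)) := rfl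
    unfold resolvent
    rw [h2, Ring.inverse_unit]
  rw [h1]
  rfl

open Classical in
/-- The functional of a discrete measure. -/
noncomputable def fn (F : Set ℂ) (X : Finset ℂ) (hX : ∀ x ∈ X, x ∈ F) (w : ℂ → ℝ) :
    C(F, ℂ) →L[ℂ] ℂ :=
  ∑ x ∈ X.attach, (w x : ℂ) • ContinuousMap.evalCLM ℂ (⟨x, hX x x.2⟩ : F)

theorem fn_apply (F : Set ℂ) (X : Finset ℂ) (hX : ∀ x ∈ X, x ∈ F) (w : ℂ → ℝ) (φ : C(F, ℂ)) :
    fn F X hX w φ = ∑ x ∈ X.attach, (w x : ℂ) * φ ⟨x, hX x x.2⟩ := by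
  unfold fn
  rw [ContinuousLinearMap.sum_apply]
  rfl

theorem fn_res (F : Set ℂ) (X : Finset ℂ) (hX : ∀ x ∈ X, x ∈ F) (w : ℂ → ℝ) {z : ℂ}
    (hz : z ∉ F) : fn F X hX w (resolvent (co F) z) = ∑ x ∈ X, (w x : ℂ) / (z - x) := by
  rw [fn_apply, ← Finset.sum_attach X]
  refine Finset.sum_congr rfl fun x _ => ?_
  rw [res_apply hz, div_eq_mul_inv]

theorem fn_one (F : Set ℂ) (X : Finset ℂ) (hX : ∀ x ∈ X, x ∈ F) (w : ℂ → ℝ) :
    fn F X hX w 1 = ((∑ x ∈ X, w x : ℝ) : ℂ) := by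
  rw [fn_apply, ← Finset.sum_attach X]
  push_cast
  refine Finset.sum_congr rfl fun x _ => ?_
  simp

theorem fn_norm (F : Set ℂ) [CompactSpace F] (X : Finset ℂ) (hX : ∀ x ∈ X, x ∈ F) (w : ℂ → ℝ)
    (hw : ∀ x ∈ X, 0 ≤ w x) : ‖fn F X hX w‖ ≤ ∑ x ∈ X, w x := by
  refine ContinuousLinearMap.opNorm_le_bound _ (Finset.sum_nonneg hw) ?_
  intro φ
  rw [fn_apply]
  calc ‖∑ x ∈ X.attach, (w x : ℂ) * φ ⟨x, hX x x.2⟩‖
      ≤ ∑ x ∈ X.attach, ‖(w x : ℂ) * φ ⟨x, hX x x.2⟩‖ := norm_sum_le _ _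
    _ ≤ ∑ x ∈ X.attach, w x * ‖φ‖ := by
        refine Finset.sum_le_sum fun x _ => ?_
        rw [norm_mul, Complex.norm_real, Real.norm_of_nonneg (hw x x.2)]
        exact mul_le_mul_of_nonneg_left (φ.norm_coe_le_norm _) (hw x x.2)
    _ = (∑ x ∈ X, w x) * ‖φ‖ := by
        rw [← Finset.sum_mul, Finset.sum_attach X (fun x => w x)]

/-- The limit functional. -/
theorem exists_limit (F : Set ℂ) [CompactSpace F] (W : ℝ) (L : ℕ → (C(F, ℂ) →L[ℂ] ℂ))
    (hL : ∀ n, ‖L n‖ ≤ W) : ∃ Λ : C(F, ℂ) →L[ℂ] ℂ,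
      ∀ φ : C(F, ℂ), Tendsto (fun n => L n φ) (hyperfilter ℕ : Filter ℕ) (𝓝 (Λ φ)) := by
  have hc := WeakDual.isCompact_closedBall (𝕜 := ℂ) (E := C(F, ℂ)) 0 W
  have h := hc.ultrafilter_le_nhds
    ((hyperfilter ℕ).map fun n => StrongDual.toWeakDual (L n)) ?_
  · obtain ⟨Λ, -, hΛ⟩ := h
    refine ⟨WeakDual.toStrongDual Λ, fun φ => ?_⟩
    have h1 : Tendsto (fun n => StrongDual.toWeakDual (L n)) (hyperfilter ℕ : Filter ℕ) (𝓝 Λ) := by
      intro s hs
      exact hΛ hs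
    exact ((WeakDual.eval_continuous φ).tendsto Λ).comp h1
  · rw [Ultrafilter.coe_map, le_principal_iff, Filter.mem_map]
    refine Filter.univ_mem' fun n => ?_
    have h2 := hL n
    simpa using h2

/-- `z` times the resolvent tends to one. -/
theorem mul_res_tendsto (F : Set ℂ) [CompactSpace F] :
    Tendsto (fun z : ℂ => z • resolvent (co F) z) (cocompact ℂ) (𝓝 1) := by
  have hF : IsCompact F := isCompact_iff_compactSpace.mpr inferInstance
  obtain ⟨R, hR⟩ := hF.isBounded.subset_closedBall (0 : ℂ)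
  set M : ℝ := max R 1 with hM
  have hM1 : 1 ≤ M := le_max_right _ _
  have hMF : ∀ x ∈ F, ‖x‖ ≤ M := by
    intro x hx
    have := hR hx
    rw [mem_closedBall_zero_iff] at this
    exact this.trans (le_max_left _ _)
  rw [tendsto_iff_norm_sub_tendsto_zero]
  have hlim : Tendsto (fun z : ℂ => M / (‖z‖ - M)) (cocompact ℂ) (𝓝 0) := by
    have h1 : Tendsto (fun z : ℂ => ‖z‖ - M) (cocompact ℂ) atTop := by
      have := tendsto_norm_cocompact_atTop (E := ℂ)
      exact tendsto_atTop_add_const_right _ (-M) this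
    exact h1.const_div_atTop M
  refine squeeze_zero' (Eventually.of_forall fun z => norm_nonneg _) ?_ hlim
  have hev : ∀ᶠ z : ℂ in cocompact ℂ, M < ‖z‖ :=
    (tendsto_norm_cocompact_atTop (E := ℂ)).eventually_gt_atTop M
  filter_upwards [hev] with z hz
  have hzF : z ∉ F := fun h => absurd (hMF z h) (not_le.mpr hz)
  have hpos : 0 < ‖z‖ - M := by linarith
  rw [ContinuousMap.norm_le _ (by positivity)]
  intro x
  have hx : ‖(x : ℂ)‖ ≤ M := hMF x x.2
  have hne : z - (x : ℂ) ≠ 0 := by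
    intro h
    exact hzF (by rw [sub_eq_zero.mp h]; exact x.2)
  have h1 : (z • resolvent (co F) z - 1) x = (x : ℂ) / (z - x) := by
    have h2 : (z • resolvent (co F) z - 1) x = z * resolvent (co F) z x - 1 := rfl
    rw [h2, res_apply hzF]
    field_simp
    ring
  rw [h1, norm_div]
  have h3 : ‖z‖ - M ≤ ‖z - (x : ℂ)‖ := by
    have := norm_sub_norm_le z (x : ℂ)
    linarith
  exact div_le_div₀ (by linarith) hx hpos h3

end LIM

open Filter Topology in
theorem LIM_thm : Stmt_LIM := by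
  intro F η W B hF hB hyp
  have hbdd := FCC.MAXP.bdd F hF
  rcases le_or_gt η 0 with hη | hη
  · -- the trivial case
    have h0 : (0 : ℝ) ≤ FCC.gam F := by
      unfold FCC.gam
      refine le_csSup hbdd ⟨fun _ => 0, 0, ?_, ?_, ?_, ?_, ?_⟩
      · exact differentiableOn_const 0
      · intro z _
        simp
      · exact tendsto_const_nhds
      · simp
      · simp
    exact le_trans (div_nonpos_of_nonpos_of_nonneg hη hB.le) h0
  haveI : CompactSpace F := isCompact_iff_compactSpace.mp hF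
  have hch : ∀ n : ℕ, ∃ (X : Finset ℂ) (w : ℂ → ℝ), (∀ x ∈ X, x ∈ F) ∧ (∀ x ∈ X, 0 ≤ w x) ∧
      η ≤ ∑ x ∈ X, w x ∧ ∑ x ∈ X, w x ≤ W ∧
      ∀ z : ℂ, (∀ x ∈ F, 1 / ((n : ℝ) + 1) < ‖z - x‖) → ‖∑ x ∈ X, (w x : ℂ) / (z - x)‖ ≤ B :=
    fun n => hyp (1 / ((n : ℝ) + 1)) (by positivity)
  choose X w hX hw hη1 hW1 hz1 using hch
  obtain ⟨Λ, hΛ⟩ := LIM.exists_limit F W (fun n => LIM.fn F (X n) (hX n) (w n))
    (fun n => (LIM.fn_norm F (X n) (hX n) (w n) (hw n)).trans (hW1 n))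
  -- the value at one
  have hone : η ≤ ‖Λ 1‖ := by
    refine ge_of_tendsto (hΛ 1).norm (Eventually.of_forall fun n => ?_)
    rw [LIM.fn_one, Complex.norm_real]
    exact (hη1 n).trans (le_abs_self _)
  -- the bound
  have hbd : ∀ z : ℂ, z ∉ F → ‖Λ (resolvent (LIM.co F) z)‖ ≤ B := by
    intro z hz
    have hδ : ∃ δ : ℝ, 0 < δ ∧ ∀ x ∈ F, δ < ‖z - x‖ := by
      have hop : Fᶜ ∈ 𝓝 z := hF.isClosed.isOpen_compl.mem_nhds hz
      obtain ⟨δ, hδ, hb⟩ := Metric.mem_nhds_iff.mp hop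
      refine ⟨δ / 2, by positivity, fun x hx => ?_⟩
      by_contra h
      push Not at h
      have : x ∈ Metric.ball z δ := by
        rw [Metric.mem_ball, dist_eq_norm, norm_sub_rev]
        linarith
      exact hb this hx
    obtain ⟨δ, hδ, hd⟩ := hδ
    refine le_of_tendsto (hΛ _).norm ?_
    have hev : ∀ᶠ n : ℕ in (hyperfilter ℕ : Filter ℕ), 1 / ((n : ℝ) + 1) < δ := by
      have h1 : ∀ᶠ n : ℕ in atTop, 1 / ((n : ℝ) + 1) < δ :=
        (tendsto_one_div_add_atTop_nhds_zero_nat (𝕜 := ℝ)).eventually (gt_mem_nhds hδ)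
      exact h1.filter_mono (Nat.hyperfilter_le_atTop)
    filter_upwards [hev] with n hn
    rw [LIM.fn_res F (X n) (hX n) (w n) hz]
    exact hz1 n z fun x hx => hn.trans (hd x hx)
  -- the function
  set f : ℂ → ℂ := fun z => Λ (resolvent (LIM.co F) z) / B with hf
  have hzf : Tendsto (fun z => z * f z) (cocompact ℂ) (𝓝 (Λ 1 / B)) := by
    have h1 := ((Λ.continuous.tendsto 1).comp (LIM.mul_res_tendsto F)).div_const (B : ℂ)
    refine h1.congr fun z => ?_
    simp only [Function.comp, map_smul, smul_eq_mul, hf]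
    ring
  have hf0 : Tendsto f (cocompact ℂ) (𝓝 0) := by
    have h2 : Tendsto (fun z : ℂ => z⁻¹) (cocompact ℂ) (𝓝 0) := by
      rw [← Metric.cobounded_eq_cocompact]
      exact tendsto_inv₀_cobounded
    have h3 := h2.mul hzf
    rw [zero_mul] at h3
    refine h3.congr' ?_
    have hev : ∀ᶠ z : ℂ in cocompact ℂ, 0 < ‖z‖ :=
      (tendsto_norm_cocompact_atTop (E := ℂ)).eventually_gt_atTop 0
    filter_upwards [hev] with z hz
    have hz0 : z ≠ 0 := norm_pos_iff.mp hz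
    rw [← mul_assoc, inv_mul_cancel₀ hz0, one_mul]
  have hle : ‖Λ 1 / (B : ℂ)‖ ≤ FCC.gam F := by
    unfold FCC.gam
    refine le_csSup hbdd ⟨f, Λ 1 / B, ?_, ?_, hf0, hzf, rfl⟩
    · intro z hz
      have h1 := spectrum.hasDerivAt_resolvent_const_left (𝕜 := ℂ) (LIM.mem_res (F := F) hz)
      have h2 : HasDerivAt (fun z => Λ (resolvent (LIM.co F) z))
          (Λ (-resolvent (LIM.co F) z ^ 2)) z := Λ.hasFDerivAt.comp_hasDerivAt z h1
      exact (h2.div_const (B : ℂ)).differentiableAt.differentiableWithinAt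
    · intro z hz
      rw [hf]
      simp only [norm_div, Complex.norm_real, Real.norm_of_nonneg hB.le]
      rw [div_le_one hB]
      exact hbd z hz
  refine le_trans ?_ hle
  rw [norm_div, Complex.norm_real, Real.norm_of_nonneg hB.le]
  exact div_le_div_of_nonneg_right hone hB.le

end Pool.Agent.ANL
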