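import Pool.Agent.ANL.Stmts

/-!
# MASS: testing on all densities gives a large density with bounded transform on its support
-/

set_option autoImplicit false

namespace Pool.Agent.ANL

open MeasureTheory Set

namespace MASS

open Classical in
theorem core {ι : Type} [Fintype ι] {m : ι → ℝ} {k : ι → ι → ℂ} {M : ℝ} (hM : 0 < M)
    (hm : ∀ i, 0 ≤ m i) (hk : ∀ i j, k j i = - k i j)
    (htest : ∀ g : ι → ℝ, (∀ i, 0 ≤ g i ∧ g i ≤ 1) →
      ∑ i, m i * g i * ‖∑ j, ((m j * g j : ℝ) : ℂ) * k i j‖ ^ 2 ≤ M * ∑ i, m i * g i)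
    {h : ι → ℝ} (h0 : ∀ i, 0 ≤ h i) (h1 : ∀ i, h i ≤ 1 / 2) {u : ℂ} (hu : ‖u‖ = 1)
    (B : Finset ι)
    (hB : ∀ i ∈ B, Real.sqrt (96 * M) / 2 ≤ (u * ∑ j, ((m j * h j : ℝ) : ℂ) * k i j).re) :
    ∑ i ∈ B, m i ≤ ∑ i, m i * h i := by
  set C : ι → ℂ := fun i => ∑ j, ((m j * h j : ℝ) : ℂ) * k i j with hC
  set mB : ι → ℝ := fun i => if i ∈ B then m i else 0 with hmB
  set D : ι → ℂ := fun j => ∑ i, ((mB i : ℝ) : ℂ) * k j i with hD
  set g : ι → ℝ := fun i => (if i ∈ B then 1 / 2 else 0) + h i with hg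
  set b : ℝ := ∑ i ∈ B, m i with hb
  set H : ℝ := ∑ i, m i * h i with hH
  have hbB : ∑ i, mB i = b := by
    rw [hb, hmB]
    simp
  have hb0 : 0 ≤ b := Finset.sum_nonneg fun i _ => hm i
  have hH0 : 0 ≤ H := Finset.sum_nonneg fun i _ => mul_nonneg (hm i) (h0 i)
  have hmg : ∀ i, m i * g i = mB i / 2 + m i * h i := by
    intro i
    simp only [hg, hmB]
    split_ifs <;> ring
  have hsg : ∑ i, m i * g i = b / 2 + H := by
    rw [Finset.sum_congr rfl fun i _ => hmg i, Finset.sum_add_distrib, ← Finset.sum_div, hbB]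
  have hTg : ∀ i, ∑ j, ((m j * g j : ℝ) : ℂ) * k i j = D i / 2 + C i := by
    intro i
    rw [hD, hC]
    simp only
    rw [Finset.sum_div, ← Finset.sum_add_distrib]
    refine Finset.sum_congr rfl fun j _ => ?_
    rw [hmg j]
    push_cast
    ring
  -- the test of `g`
  have t1 : ∑ i, m i * g i * ‖D i / 2 + C i‖ ^ 2 ≤ M * (b / 2 + H) := by
    have h3 := htest g (by
      intro i
      simp only [hg]
      have := h0 i
      have := h1 i
      split_ifs
      · constructor <;> linarith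
      · constructor <;> linarith)
    rw [hsg] at h3
    refine le_trans (le_of_eq ?_) h3
    refine Finset.sum_congr rfl fun i _ => ?_
    rw [hTg i]
  have t2 : ∑ i, m i * h i * ‖C i‖ ^ 2 ≤ M * H :=
    htest h fun i => ⟨h0 i, (h1 i).trans (by norm_num)⟩
  have t3 : ∑ i, m i * h i * ‖D i‖ ^ 2 ≤ M * (4 * b + 16 * H) := by
    have h3 : ∀ i, m i * h i * ‖D i‖ ^ 2 ≤
        8 * (m i * g i * ‖D i / 2 + C i‖ ^ 2) + 8 * (m i * h i * ‖C i‖ ^ 2) := by
      intro i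
      have e1 : D i = 2 * ((D i / 2 + C i) - C i) := by ring
      have e2 : ‖D i‖ ≤ 2 * (‖D i / 2 + C i‖ + ‖C i‖) := by
        calc ‖D i‖ = ‖2 * ((D i / 2 + C i) - C i)‖ := by rw [← e1]
          _ = 2 * ‖(D i / 2 + C i) - C i‖ := by rw [norm_mul]; norm_num
          _ ≤ 2 * (‖D i / 2 + C i‖ + ‖C i‖) := by
            have := norm_sub_le (D i / 2 + C i) (C i)
            linarith
      have e3 : ‖D i‖ ^ 2 ≤ 8 * ‖D i / 2 + C i‖ ^ 2 + 8 * ‖C i‖ ^ 2 := by
        have n0 := norm_nonneg (D i)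
        have n1 := norm_nonneg (D i / 2 + C i)
        have n2 := norm_nonneg (C i)
        have e4 : ‖D i‖ ^ 2 ≤ (2 * (‖D i / 2 + C i‖ + ‖C i‖)) ^ 2 := pow_le_pow_left₀ n0 e2 2
        nlinarith [sq_nonneg (‖D i / 2 + C i‖ - ‖C i‖)]
      have e5 : 0 ≤ m i * h i := mul_nonneg (hm i) (h0 i)
      have e6 : m i * h i ≤ m i * g i := by
        apply mul_le_mul_of_nonneg_left _ (hm i)
        simp only [hg]
        split_ifs <;> linarith
      have e7 := mul_le_mul_of_nonneg_left e3 e5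
      have e8 := mul_le_mul_of_nonneg_right e6 (sq_nonneg ‖D i / 2 + C i‖)
      linarith
    have h4 := Finset.sum_le_sum fun i (_ : i ∈ Finset.univ) => h3 i
    rw [Finset.sum_add_distrib, ← Finset.mul_sum, ← Finset.mul_sum] at h4
    nlinarith
  -- duality
  have d1 : ∑ i ∈ B, ((m i : ℝ) : ℂ) * (u * C i) = -(u * ∑ j, ((m j * h j : ℝ) : ℂ) * D j) := by
    have e1 : ∑ i ∈ B, ((m i : ℝ) : ℂ) * (u * C i) = ∑ i, ((mB i : ℝ) : ℂ) * (u * C i) := by
      have e2 : ∀ i, ((mB i : ℝ) : ℂ) * (u * C i) =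
          if i ∈ B then ((m i : ℝ) : ℂ) * (u * C i) else 0 := by
        intro i
        simp only [hmB]
        split_ifs
        · rfl
        · simp
      rw [Finset.sum_congr rfl fun i _ => e2 i]
      simp
    rw [e1]
    simp only [hC, hD, Finset.mul_sum]
    rw [Finset.sum_comm, ← Finset.sum_neg_distrib]
    refine Finset.sum_congr rfl fun j _ => ?_
    rw [← Finset.sum_neg_distrib]
    refine Finset.sum_congr rfl fun i _ => ?_
    rw [hk i j]
    ring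
  have d2 : Real.sqrt (96 * M) / 2 * b ≤ ∑ i, m i * h i * ‖D i‖ := by
    calc Real.sqrt (96 * M) / 2 * b = ∑ i ∈ B, m i * (Real.sqrt (96 * M) / 2) := by
          rw [← Finset.sum_mul, mul_comm]
      _ ≤ ∑ i ∈ B, m i * (u * C i).re :=
          Finset.sum_le_sum fun i hi => mul_le_mul_of_nonneg_left (hB i hi) (hm i)
      _ = (∑ i ∈ B, ((m i : ℝ) : ℂ) * (u * C i)).re := by
          rw [Complex.re_sum]
          refine Finset.sum_congr rfl fun i _ => ?_
          rw [Complex.re_ofReal_mul]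
      _ ≤ ‖∑ i ∈ B, ((m i : ℝ) : ℂ) * (u * C i)‖ := Complex.re_le_norm _
      _ = ‖∑ j, ((m j * h j : ℝ) : ℂ) * D j‖ := by
          rw [d1, norm_neg, norm_mul, hu, one_mul]
      _ ≤ ∑ j, ‖((m j * h j : ℝ) : ℂ) * D j‖ := norm_sum_le _ _
      _ = ∑ i, m i * h i * ‖D i‖ := by
          refine Finset.sum_congr rfl fun j _ => ?_
          rw [norm_mul, Complex.norm_real, Real.norm_eq_abs,
            abs_of_nonneg (mul_nonneg (hm j) (h0 j))]
  -- Cauchy-Schwarz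
  have d3 : (∑ i, m i * h i * ‖D i‖) ^ 2 ≤ H * (M * (4 * b + 16 * H)) := by
    have e1 := Finset.sum_mul_sq_le_sq_mul_sq Finset.univ (fun i => Real.sqrt (m i * h i))
      (fun i => Real.sqrt (m i * h i) * ‖D i‖)
    have e2 : ∀ i, Real.sqrt (m i * h i) ^ 2 = m i * h i := fun i =>
      Real.sq_sqrt (mul_nonneg (hm i) (h0 i))
    have e3 : ∑ i, Real.sqrt (m i * h i) * (Real.sqrt (m i * h i) * ‖D i‖) =
        ∑ i, m i * h i * ‖D i‖ := by
      refine Finset.sum_congr rfl fun i _ => ?_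
      rw [← mul_assoc, ← sq, e2 i]
    have e4 : ∑ i, (Real.sqrt (m i * h i) * ‖D i‖) ^ 2 = ∑ i, m i * h i * ‖D i‖ ^ 2 := by
      refine Finset.sum_congr rfl fun i _ => ?_
      rw [mul_pow, e2 i]
    rw [e3, e4, Finset.sum_congr rfl fun i _ => e2 i] at e1
    exact e1.trans (mul_le_mul_of_nonneg_left t3 hH0)
  have d4 : (Real.sqrt (96 * M) / 2 * b) ^ 2 ≤ H * (M * (4 * b + 16 * H)) :=
    (pow_le_pow_left₀ (mul_nonneg (by positivity) hb0) d2 2).trans d3
  have d5 : (Real.sqrt (96 * M) / 2 * b) ^ 2 = M * (24 * b ^ 2) := by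
    have e1 : Real.sqrt (96 * M) ^ 2 = 96 * M := Real.sq_sqrt (by linarith)
    calc (Real.sqrt (96 * M) / 2 * b) ^ 2 = Real.sqrt (96 * M) ^ 2 / 4 * b ^ 2 := by ring
      _ = M * (24 * b ^ 2) := by rw [e1]; ring
  have d6 : 24 * b ^ 2 ≤ H * (4 * b + 16 * H) := by
    have e1 : M * (24 * b ^ 2) ≤ M * (H * (4 * b + 16 * H)) := by
      rw [← d5]
      refine d4.trans (le_of_eq (by ring))
    exact le_of_mul_le_mul_left e1 hM
  by_contra hcon
  push Not at hcon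
  nlinarith

theorem four (c : ℂ) : ‖c‖ / 2 ≤ (1 * c).re ∨ ‖c‖ / 2 ≤ (-1 * c).re ∨
    ‖c‖ / 2 ≤ (Complex.I * c).re ∨ ‖c‖ / 2 ≤ (-Complex.I * c).re := by
  have h := Complex.norm_le_abs_re_add_abs_im c
  have e1 : (1 * c).re = c.re := by rw [one_mul]
  have e2 : (-1 * c).re = -c.re := by simp
  have e3 : (Complex.I * c).re = -c.im := by simp
  have e4 : (-Complex.I * c).re = c.im := by simp
  rw [e1, e2, e3, e4]
  rcases le_total (|c.im|) (|c.re|) with h1 | h1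
  · rcases le_total 0 c.re with h2 | h2
    · left
      rw [abs_of_nonneg h2] at h h1
      linarith
    · right; left
      rw [abs_of_nonpos h2] at h h1
      linarith
  · rcases le_total 0 c.im with h2 | h2
    · right; right; right
      rw [abs_of_nonneg h2] at h h1
      linarith
    · right; right; left
      rw [abs_of_nonpos h2] at h h1
      linarith

end MASS

open MASS

open Classical in
/-- MASS. -/
theorem MASS_thm : Stmt_FIX → Stmt_MASS := by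
  intro hF ι _ m k M hM hm hk htest
  have hLp : 0 < Real.sqrt (192 * M) := Real.sqrt_pos.mpr (by linarith)
  have hL : Real.sqrt (192 * M) ^ 2 = 192 * M := Real.sq_sqrt (by linarith)
  obtain ⟨h, hh⟩ := hF ι m k (Real.sqrt (192 * M)) hLp
  rw [hL] at hh
  set C : ι → ℂ := fun i => ∑ j, ((m j * h j : ℝ) : ℂ) * k i j with hC
  have hh' : ∀ i, h i = max 0 (1 / 2 - ‖C i‖ ^ 2 / (2 * (192 * M))) := hh
  have hM2 : 0 < 2 * (192 * M) := by linarith
  have h0 : ∀ i, 0 ≤ h i := by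
    intro i
    rw [hh' i]
    exact le_max_left _ _
  have h1 : ∀ i, h i ≤ 1 / 2 := by
    intro i
    rw [hh' i]
    apply max_le (by norm_num)
    have : 0 ≤ ‖C i‖ ^ 2 / (2 * (192 * M)) := by positivity
    linarith
  have h2 : ∀ i, 0 < h i → ‖C i‖ ^ 2 ≤ 192 * M := by
    intro i hi
    rw [hh' i] at hi
    rcases lt_max_iff.mp hi with h3 | h3
    · exact absurd h3 (lt_irrefl _)
    · have h4 : ‖C i‖ ^ 2 / (2 * (192 * M)) < 1 / 2 := by linarith
      rw [div_lt_iff₀ hM2] at h4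
      linarith
  have h3 : ∀ i, h i ≤ 1 / 4 → 96 * M ≤ ‖C i‖ ^ 2 := by
    intro i hi
    have h4 : 1 / 2 - ‖C i‖ ^ 2 / (2 * (192 * M)) ≤ h i := by
      conv_rhs => rw [hh' i]
      exact le_max_right _ _
    have h5 : 1 / 4 ≤ ‖C i‖ ^ 2 / (2 * (192 * M)) := by linarith
    rw [le_div_iff₀ hM2] at h5
    linarith
  have h4 : ∀ i, h i ≤ 1 / 4 → Real.sqrt (96 * M) / 2 ≤ ‖C i‖ / 2 := by
    intro i hi
    have h5 : Real.sqrt (96 * M) ≤ ‖C i‖ := Real.sqrt_le_iff.mpr ⟨norm_nonneg _, h3 i hi⟩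
    linarith
  have hcore : ∀ u : ℂ, ‖u‖ = 1 →
      ∑ i, (if h i ≤ 1 / 4 ∧ ‖C i‖ / 2 ≤ (u * C i).re then m i else 0) ≤ ∑ i, m i * h i := by
    intro u hu
    rw [← Finset.sum_filter]
    refine core hM hm hk htest h0 h1 hu _ fun i hi => ?_
    rw [Finset.mem_filter] at hi
    exact (h4 i hi.2.1).trans hi.2.2
  refine ⟨h, fun i => ⟨h0 i, h1 i⟩, ?_, h2⟩
  have c1 := hcore 1 (by simp)
  have c2 := hcore (-1) (by simp)
  have c3 := hcore Complex.I (by simp)
  have c4 := hcore (-Complex.I) (by simp)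
  have hpt : ∀ i, m i ≤ (if h i ≤ 1 / 4 ∧ ‖C i‖ / 2 ≤ (1 * C i).re then m i else 0) +
      (if h i ≤ 1 / 4 ∧ ‖C i‖ / 2 ≤ (-1 * C i).re then m i else 0) +
      (if h i ≤ 1 / 4 ∧ ‖C i‖ / 2 ≤ (Complex.I * C i).re then m i else 0) +
      (if h i ≤ 1 / 4 ∧ ‖C i‖ / 2 ≤ (-Complex.I * C i).re then m i else 0) +
      4 * (m i * h i) := by
    intro i
    have hmi := hm i
    have hmh : 0 ≤ m i * h i := mul_nonneg hmi (h0 i)
    have p : ∀ (Q : Prop) [Decidable Q], 0 ≤ (if Q then m i else 0) := by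
      intro Q _
      split_ifs
      · exact hmi
      · exact le_rfl
    have p1 := p (h i ≤ 1 / 4 ∧ ‖C i‖ / 2 ≤ (1 * C i).re)
    have p2 := p (h i ≤ 1 / 4 ∧ ‖C i‖ / 2 ≤ (-1 * C i).re)
    have p3 := p (h i ≤ 1 / 4 ∧ ‖C i‖ / 2 ≤ (Complex.I * C i).re)
    have p4 := p (h i ≤ 1 / 4 ∧ ‖C i‖ / 2 ≤ (-Complex.I * C i).re)
    by_cases hq : h i ≤ 1 / 4
    · rcases four (C i) with h5 | h5 | h5 | h5
      · rw [if_pos (show h i ≤ 1 / 4 ∧ ‖C i‖ / 2 ≤ (1 * C i).re from ⟨hq, h5⟩)]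
        linarith
      · rw [if_pos (show h i ≤ 1 / 4 ∧ ‖C i‖ / 2 ≤ (-1 * C i).re from ⟨hq, h5⟩)]
        linarith
      · rw [if_pos (show h i ≤ 1 / 4 ∧ ‖C i‖ / 2 ≤ (Complex.I * C i).re from ⟨hq, h5⟩)]
        linarith
      · rw [if_pos (show h i ≤ 1 / 4 ∧ ‖C i‖ / 2 ≤ (-Complex.I * C i).re from ⟨hq, h5⟩)]
        linarith
    · push Not at hq
      have h5 : m i ≤ 4 * (m i * h i) := by nlinarith
      linarith
  have hsum := Finset.sum_le_sum fun i (_ : i ∈ Finset.univ) => hpt i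
  rw [Finset.sum_add_distrib, Finset.sum_add_distrib, Finset.sum_add_distrib,
    Finset.sum_add_distrib, ← Finset.mul_sum] at hsum
  linarith

end Pool.Agent.ANL
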