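import Pool.Agent.ANL.Stmts
import Pool.Agent.FCC.MAXP

/-!
# MAXM: the maximum principle (MP_98e313_an)
-/

set_option autoImplicit false

namespace Pool.Agent.ANL

open MeasureTheory Set

namespace MAXM

/-- The kernel is bounded by `1 / ε`. -/
theorem ker_le (ε : ℝ) (hε : 0 < ε) (u : ℂ) : ‖ker ε u‖ ≤ 1 / ε := by
  have hm : 0 < max ‖u‖ ε := lt_max_of_lt_right hε
  unfold ker
  rw [norm_div, norm_pow, Complex.norm_real, Real.norm_of_nonneg hm.le, RCLike.norm_conj,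
    div_le_div_iff₀ (pow_pos hm 2) hε, one_mul, sq]
  exact mul_le_mul (le_max_left _ _) (le_max_right _ _) hε.le hm.le

/-- The kernel away from zero. -/
theorem ker_eq (ε : ℝ) (hε : 0 < ε) (u : ℂ) (hu : ε ≤ ‖u‖) : ker ε u = 1 / u := by
  have hu0 : u ≠ 0 := by
    rintro rfl
    rw [norm_zero] at hu
    linarith
  unfold ker
  rw [max_eq_left hu]
  have h1 : (starRingEnd ℂ) u * u = ((‖u‖ : ℝ) : ℂ) ^ 2 := by
    rw [mul_comm, Complex.mul_conj, Complex.normSq_eq_norm_sq]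
    push_cast
    rfl
  have h2 : ((‖u‖ : ℝ) : ℂ) ^ 2 ≠ 0 := by
    apply pow_ne_zero
    exact_mod_cast norm_ne_zero_iff.mpr hu0
  rw [div_eq_div_iff h2 hu0, h1, one_mul]

open Classical in
/-- The main estimate. -/
theorem main (hT : Stmt_TAIL) (X : Finset ℂ) (w : ℂ → ℝ) (ε : ℝ) (hε : 0 < ε)
    (hG : Grow X w ε) (z x : ℂ) (hx : ‖z - x‖ ≤ ε) (hy : ∀ y ∈ X, 0 < w y → ε ≤ ‖z - y‖) :
    ‖∑ y ∈ X, (w y : ℂ) / (z - y) - Cw X w ε x‖ ≤ 8 := by
  have hw := hG.1
  have h0 : ∑ y ∈ X, (w y : ℂ) / (z - y) - Cw X w ε x =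
      ∑ y ∈ X, (w y : ℂ) * (1 / (z - y) - ker ε (x - y)) := by
    unfold Cw
    rw [← Finset.sum_sub_distrib]
    apply Finset.sum_congr rfl
    intro y _
    rw [mul_sub, mul_one_div]
  rw [h0]
  have h1 : ‖∑ y ∈ X, (w y : ℂ) * (1 / (z - y) - ker ε (x - y))‖ ≤
      ∑ y ∈ X, w y * ‖1 / (z - y) - ker ε (x - y)‖ := by
    refine (norm_sum_le _ _).trans (le_of_eq ?_)
    apply Finset.sum_congr rfl
    intro y hyX
    rw [norm_mul, Complex.norm_real, Real.norm_of_nonneg (hw y hyX)]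
  refine h1.trans ?_
  rw [← Finset.sum_filter_add_sum_filter_not X (fun y => ‖y - x‖ ≤ 2 * ε)]
  -- the near part
  have hA : ∑ y ∈ X.filter (fun y => ‖y - x‖ ≤ 2 * ε), w y * ‖1 / (z - y) - ker ε (x - y)‖ ≤
      4 := by
    have e1 : ∑ y ∈ X.filter (fun y => ‖y - x‖ ≤ 2 * ε), w y * ‖1 / (z - y) - ker ε (x - y)‖ ≤
        ∑ y ∈ X.filter (fun y => ‖y - x‖ ≤ 2 * ε), w y * (2 / ε) := by
      apply Finset.sum_le_sum
      intro y hyX
      have hyX' := (Finset.mem_filter.mp hyX).1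
      rcases (hw y hyX').eq_or_lt with h | h
      · rw [← h, zero_mul, zero_mul]
      · apply mul_le_mul_of_nonneg_left _ h.le
        have hzy := hy y hyX' h
        have e2 : ‖1 / (z - y)‖ ≤ 1 / ε := by
          rw [norm_div, norm_one]
          exact one_div_le_one_div_of_le hε hzy
        have e3 := ker_le ε hε (x - y)
        calc ‖1 / (z - y) - ker ε (x - y)‖ ≤ ‖1 / (z - y)‖ + ‖ker ε (x - y)‖ := norm_sub_le _ _
          _ ≤ 1 / ε + 1 / ε := add_le_add e2 e3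
          _ = 2 / ε := by ring
    refine e1.trans ?_
    rw [← Finset.sum_mul]
    have e4 := hG.2 x (2 * ε) (by linarith)
    calc (∑ y ∈ X.filter (fun y => ‖y - x‖ ≤ 2 * ε), w y) * (2 / ε) ≤ 2 * ε * (2 / ε) :=
          mul_le_mul_of_nonneg_right e4 (by positivity)
      _ = 4 := by
          field_simp
          norm_num
  -- the far part
  have hB : ∑ y ∈ X.filter (fun y => ¬ ‖y - x‖ ≤ 2 * ε), w y * ‖1 / (z - y) - ker ε (x - y)‖ ≤
      4 := by
    have e1 : ∑ y ∈ X.filter (fun y => ¬ ‖y - x‖ ≤ 2 * ε), w y * ‖1 / (z - y) - ker ε (x - y)‖ ≤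
        ∑ y ∈ X.filter (fun y => ¬ ‖y - x‖ ≤ 2 * ε), 2 * ε * (w y / ‖y - x‖ ^ 2) := by
      apply Finset.sum_le_sum
      intro y hyX
      obtain ⟨hyX', hyd⟩ := Finset.mem_filter.mp hyX
      have hyd' : 2 * ε < ‖y - x‖ := not_le.mp hyd
      have hd : ‖x - y‖ = ‖y - x‖ := norm_sub_rev _ _
      have hpos : 0 < ‖y - x‖ := by linarith
      have hxy : x - y ≠ 0 := by
        rw [← norm_pos_iff, hd]
        exact hpos
      have hzy : ‖y - x‖ / 2 ≤ ‖z - y‖ := by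
        have := norm_sub_le_norm_sub_add_norm_sub x z y
        rw [norm_sub_rev x z] at this
        linarith
      have hzyp : 0 < ‖z - y‖ := by linarith
      have hzy0 : z - y ≠ 0 := norm_pos_iff.mp hzyp
      rw [ker_eq ε hε (x - y) (by rw [hd]; linarith)]
      have e2 : 1 / (z - y) - 1 / (x - y) = (x - z) / ((z - y) * (x - y)) := by
        field_simp
        ring
      rw [e2, norm_div, norm_mul, hd, norm_sub_rev x z]
      have e3 : ‖z - x‖ / (‖z - y‖ * ‖y - x‖) ≤ 2 * ε / ‖y - x‖ ^ 2 := by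
        rw [div_le_div_iff₀ (by positivity) (by positivity)]
        have e4 : ‖z - x‖ * ‖y - x‖ ^ 2 ≤ ε * ‖y - x‖ ^ 2 :=
          mul_le_mul_of_nonneg_right hx (by positivity)
        have e5 : ε * ‖y - x‖ ^ 2 ≤ 2 * ε * (‖z - y‖ * ‖y - x‖) := by
          have : ‖y - x‖ * (‖y - x‖ / 2) ≤ ‖y - x‖ * ‖z - y‖ :=
            mul_le_mul_of_nonneg_left hzy hpos.le
          nlinarith
        exact e4.trans e5
      calc w y * (‖z - x‖ / (‖z - y‖ * ‖y - x‖)) ≤ w y * (2 * ε / ‖y - x‖ ^ 2) :=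
            mul_le_mul_of_nonneg_left e3 (hw y hyX')
        _ = 2 * ε * (w y / ‖y - x‖ ^ 2) := by ring
    refine e1.trans ?_
    rw [← Finset.mul_sum]
    have e6 : ∑ y ∈ X.filter (fun y => ¬ ‖y - x‖ ≤ 2 * ε), w y / ‖y - x‖ ^ 2 ≤
        ∑ y ∈ X.filter (fun y => 2 * ε ≤ ‖y - x‖), w y / ‖y - x‖ ^ 2 := by
      apply Finset.sum_le_sum_of_subset_of_nonneg
      · intro y hyX
        obtain ⟨hyX', hyd⟩ := Finset.mem_filter.mp hyX
        exact Finset.mem_filter.mpr ⟨hyX', (not_le.mp hyd).le⟩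
      · intro y hyX _
        exact div_nonneg (hw y (Finset.mem_filter.mp hyX).1) (by positivity)
    have e7 := hT X w ε hε hG x (2 * ε) (by linarith)
    calc 2 * ε * ∑ y ∈ X.filter (fun y => ¬ ‖y - x‖ ≤ 2 * ε), w y / ‖y - x‖ ^ 2 ≤
          2 * ε * (4 / (2 * ε)) := mul_le_mul_of_nonneg_left (e6.trans e7) (by positivity)
      _ = 4 := by field_simp
  linarith

end MAXM

open Classical in
open MAXM in
theorem MAXM_thm : Stmt_TAIL → Stmt_MAXM := by
  intro hT X w ε B hε hB hG hC z hz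
  have hw := hG.1
  set S : Finset ℂ := X.filter (fun x => 0 < w x) with hS
  have hsum : ∀ v : ℂ, ∑ i : S, ((w i : ℝ) : ℂ) / (v - (i : ℂ)) =
      ∑ x ∈ X, (w x : ℂ) / (v - x) := by
    intro v
    rw [Finset.sum_coe_sort S (fun x => (w x : ℂ) / (v - x))]
    apply Finset.sum_subset (Finset.filter_subset _ _)
    intro x hxX hxS
    have : w x = 0 := by
      rcases (hw x hxX).eq_or_lt with h | h
      · exact h.symm
      · exact absurd (Finset.mem_filter.mpr ⟨hxX, h⟩) hxS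
    rw [this, Complex.ofReal_zero, zero_div]
  set K : Set ℂ := ⋃ x ∈ S, Metric.closedBall x ε with hK
  have hKc : IsCompact K := S.isCompact_biUnion fun x _ => isCompact_closedBall x ε
  have hball : ∀ x ∈ S, Metric.ball x ε ⊆ interior K := by
    intro x hx
    apply interior_maximal _ Metric.isOpen_ball
    intro y hy
    exact mem_biUnion hx (Metric.ball_subset_closedBall hy)
  have hint : ∀ i : S, (i : ℂ) ∈ interior K := fun i =>
    hball i i.2 (Metric.mem_ball_self hε)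
  have hfr : ∀ v ∈ frontier K, ‖∑ i : S, ((w i : ℝ) : ℂ) / (v - (i : ℂ))‖ ≤ B + 8 := by
    intro v hv
    rw [hsum]
    rw [hKc.isClosed.frontier_eq] at hv
    obtain ⟨hvK, hvI⟩ := hv
    obtain ⟨x, hxS, hvx⟩ := mem_iUnion₂.mp hvK
    rw [Metric.mem_closedBall, Complex.dist_eq] at hvx
    have hfar : ∀ y ∈ X, 0 < w y → ε ≤ ‖v - y‖ := by
      intro y hyX hyw
      by_contra hlt
      apply hvI
      apply hball y (Finset.mem_filter.mpr ⟨hyX, hyw⟩)
      rw [Metric.mem_ball, Complex.dist_eq]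
      exact not_le.mp hlt
    have h1 := main hT X w ε hε hG v x hvx hfar
    obtain ⟨hxX, hxw⟩ := Finset.mem_filter.mp hxS
    have h2 := hC x hxX hxw
    calc ‖∑ y ∈ X, (w y : ℂ) / (v - y)‖ =
          ‖Cw X w ε x + (∑ y ∈ X, (w y : ℂ) / (v - y) - Cw X w ε x)‖ := by
            congr 1
            ring
      _ ≤ ‖Cw X w ε x‖ + ‖∑ y ∈ X, (w y : ℂ) / (v - y) - Cw X w ε x‖ := norm_add_le _ _
      _ ≤ B + 8 := add_le_add h2 h1
  have hzK : z ∈ Kᶜ := by
    intro hzK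
    obtain ⟨x, hxS, hzx⟩ := mem_iUnion₂.mp hzK
    rw [Metric.mem_closedBall, Complex.dist_eq] at hzx
    have := hz x (Finset.mem_filter.mp hxS).1
    linarith
  have h3 := FCC.MAXP.bound K S (fun i => ((w i : ℝ) : ℂ)) (fun i => (i : ℂ)) (B + 8) hKc
    (by linarith) hint hfr hzK
  rw [hsum] at h3
  exact h3

end Pool.Agent.ANL
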