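import Pool.Agent.ANL.Stmts

/-!
# ANL_MISS : the missed mass is at most the gain of information
-/

set_option autoImplicit false

namespace Pool.Agent.ANL

open MeasureTheory Set

namespace MISS

variable {N : ℕ} (X : Finset ℂ) (m : ℂ → ℝ) (lab : ℂ → Fin N) (f g : ℂ → ℤ × ℤ)

lemma Mc_pos (hm : ∀ x ∈ X, 0 < m x) {w : ℂ} (hw : w ∈ X) : 0 < Mc X m f w := by
  classical
  unfold Mc
  exact Finset.sum_pos (fun y hy => hm y (Finset.mem_filter.1 hy).1)
    ⟨w, Finset.mem_filter.2 ⟨hw, rfl⟩⟩

lemma Mi_pos (hm : ∀ x ∈ X, 0 < m x) {w : ℂ} (hw : w ∈ X) : 0 < Mi X m f lab w := by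
  classical
  unfold Mi
  exact Finset.sum_pos (fun y hy => hm y (Finset.mem_filter.1 hy).1)
    ⟨w, Finset.mem_filter.2 ⟨hw, rfl, rfl⟩⟩

lemma Mc_congr {v w : ℂ} (h : f v = f w) : Mc X m f v = Mc X m f w := by
  unfold Mc
  rw [h]

open Classical in
/-- the inner sum over `w` -/
lemma inner_le (hm : ∀ x ∈ X, 0 < m x) (hfg : ∀ x y, g x = g y → f x = f y) (v y : ℂ)
    (hv : v ∈ X) :
    ∑ w ∈ X, (if g y = g w ∧ f v = f w ∧ lab v = lab w then
      m w / (Mc X m f w * Mi X m g lab w) else 0) ≤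
    (if f y = f v ∧ str X g lab (lab v) y then 1 / Mc X m f v else 0) := by
  by_cases h : f y = f v ∧ str X g lab (lab v) y
  · rw [if_pos h]
    obtain ⟨hf, u, huX, hgu, hlu⟩ := h
    have hD : 0 < Mi X m g lab u := Mi_pos X m lab g hm huX
    have hM : 0 < Mc X m f v := Mc_pos X m f hm hv
    have h1 : ∀ w ∈ X, (if g y = g w ∧ f v = f w ∧ lab v = lab w then
        m w / (Mc X m f w * Mi X m g lab w) else 0) =
        (if g w = g u ∧ lab w = lab u then m w else 0) * (1 / (Mc X m f v * Mi X m g lab u)) := by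
      intro w _
      by_cases hw : g w = g u ∧ lab w = lab u
      · have hgy : g y = g w := by rw [hw.1, hgu]
        have hfw : f v = f w := by rw [← hf]; exact hfg y w hgy
        have hlw : lab v = lab w := by rw [hw.2, hlu]
        rw [if_pos ⟨hgy, hfw, hlw⟩, if_pos hw]
        have e1 : Mc X m f w = Mc X m f v := Mc_congr X m f hfw.symm
        have e2 : Mi X m g lab w = Mi X m g lab u := by
          unfold Mi
          rw [hw.1, hw.2]
        rw [e1, e2]
        ring
      · rw [if_neg hw, if_neg, zero_mul]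
        rintro ⟨h2, h3, h4⟩
        exact hw ⟨by rw [← h2, hgu], by rw [← h4, hlu]⟩
    rw [Finset.sum_congr rfl h1, ← Finset.sum_mul, ← Finset.sum_filter]
    have h2 : ∑ a ∈ X.filter (fun a => g a = g u ∧ lab a = lab u), m a = Mi X m g lab u := rfl
    rw [h2]
    apply le_of_eq
    field_simp
  · rw [if_neg h]
    apply le_of_eq
    apply Finset.sum_eq_zero
    intro w hw
    rw [if_neg]
    rintro ⟨h2, h3, h4⟩
    exact h ⟨by rw [h3]; exact hfg y w h2, w, hw, h2.symm, h4.symm⟩

open Classical in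
lemma expand (w : ℂ) :
    m w * ((Mi X m f lab w * Mc X m g w) / (Mc X m f w * Mi X m g lab w)) =
    ∑ v ∈ X, ∑ y ∈ X, m v * m y * (if g y = g w ∧ f v = f w ∧ lab v = lab w then
      m w / (Mc X m f w * Mi X m g lab w) else 0) := by
  have e0 : m w * ((Mi X m f lab w * Mc X m g w) / (Mc X m f w * Mi X m g lab w)) =
      (Mi X m f lab w * Mc X m g w) * (m w / (Mc X m f w * Mi X m g lab w)) := by ring
  rw [e0]
  generalize m w / (Mc X m f w * Mi X m g lab w) = c
  unfold Mi Mc
  rw [Finset.sum_filter, Finset.sum_filter, Finset.sum_mul_sum, Finset.sum_mul]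
  apply Finset.sum_congr rfl
  intro v _
  rw [Finset.sum_mul]
  apply Finset.sum_congr rfl
  intro y _
  by_cases h1 : f v = f w ∧ lab v = lab w
  · by_cases h2 : g y = g w
    · rw [if_pos h1, if_pos h2, if_pos ⟨h2, h1⟩]
    · have h3 : ¬ (g y = g w ∧ f v = f w ∧ lab v = lab w) := fun h => h2 h.1
      rw [if_neg h2, if_neg h3]
      ring
  · have h3 : ¬ (g y = g w ∧ f v = f w ∧ lab v = lab w) := fun h => h1 h.2
    rw [if_neg h1, if_neg h3]
    ring

open Classical in
lemma main_le (hm : ∀ x ∈ X, 0 < m x) (hfg : ∀ x y, g x = g y → f x = f y) :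
    ∑ w ∈ X, m w * ((Mi X m f lab w * Mc X m g w) / (Mc X m f w * Mi X m g lab w)) ≤
    ∑ v ∈ X, m v * ((∑ y ∈ X.filter (fun y => f y = f v ∧ str X g lab (lab v) y), m y) /
      Mc X m f v) := by
  rw [Finset.sum_congr rfl (fun w _ => expand X m lab f g w)]
  rw [Finset.sum_comm]
  apply Finset.sum_le_sum
  intro v hv
  rw [Finset.sum_comm]
  rw [Finset.sum_filter, Finset.sum_div, Finset.mul_sum]
  apply Finset.sum_le_sum
  intro y hy
  rw [← Finset.mul_sum]
  have h := inner_le X m lab f g hm hfg v y hv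
  have h0 : 0 ≤ m v * m y := (mul_pos (hm v hv) (hm y hy)).le
  refine (mul_le_mul_of_nonneg_left h h0).trans (le_of_eq ?_)
  by_cases hc : f y = f v ∧ str X g lab (lab v) y
  · rw [if_pos hc, if_pos hc]
    ring
  · rw [if_neg hc, if_neg hc]
    ring

open Classical in
lemma miss_eq (w : ℂ) :
    miss X m f g lab w = Mc X m f w -
      ∑ y ∈ X.filter (fun y => f y = f w ∧ str X g lab (lab w) y), m y := by
  unfold miss Mc
  have h := Finset.sum_filter_add_sum_filter_not (X.filter (fun y => f y = f w))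
    (fun y => str X g lab (lab w) y) m
  rw [Finset.filter_filter, Finset.filter_filter] at h
  linarith

end MISS

theorem MISS_thm : Stmt_MISS := by
  classical
  intro N X m lab f g hm hfg
  have hmain := MISS.main_le X m lab f g hm hfg
  have h1 : Sm X m f g lab = ∑ w ∈ X, m w -
      ∑ v ∈ X, m v * ((∑ y ∈ X.filter (fun y => f y = f v ∧ str X g lab (lab v) y), m y) /
      Mc X m f v) := by
    unfold Sm
    rw [← Finset.sum_sub_distrib]
    apply Finset.sum_congr rfl
    intro w hw
    rw [MISS.miss_eq]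
    have hM : 0 < Mc X m f w := MISS.Mc_pos X m f hm hw
    field_simp
  rw [h1]
  have h2 : ∑ w ∈ X, m w - ∑ w ∈ X, m w *
      ((Mi X m f lab w * Mc X m g w) / (Mc X m f w * Mi X m g lab w)) ≤
      ∑ w ∈ X, m w *
      (Real.log (Mi X m g lab w / Mc X m g w) - Real.log (Mi X m f lab w / Mc X m f w)) := by
    rw [← Finset.sum_sub_distrib]
    apply Finset.sum_le_sum
    intro w hw
    have a1 : 0 < Mc X m f w := MISS.Mc_pos X m f hm hw
    have a2 : 0 < Mc X m g w := MISS.Mc_pos X m g hm hw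
    have a3 : 0 < Mi X m f lab w := MISS.Mi_pos X m lab f hm hw
    have a4 : 0 < Mi X m g lab w := MISS.Mi_pos X m lab g hm hw
    have hmw := hm w hw
    rw [← Real.log_div (div_pos a4 a2).ne' (div_pos a3 a1).ne']
    have h3 := Real.one_sub_inv_le_log_of_pos (div_pos (div_pos a4 a2) (div_pos a3 a1))
    have h4 : ((Mi X m g lab w / Mc X m g w) / (Mi X m f lab w / Mc X m f w))⁻¹ =
        (Mi X m f lab w * Mc X m g w) / (Mc X m f w * Mi X m g lab w) := by
      field_simp
    rw [h4] at h3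
    have h5 := mul_le_mul_of_nonneg_left h3 hmw.le
    calc m w - m w * ((Mi X m f lab w * Mc X m g w) / (Mc X m f w * Mi X m g lab w))
        = m w * (1 - (Mi X m f lab w * Mc X m g w) / (Mc X m f w * Mi X m g lab w)) := by ring
      _ ≤ _ := h5
  linarith

end Pool.Agent.ANL
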