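import Pool.Agent.ANL.Stmts

/-!
# SYM: the identity of Melnikov for finite sums
-/

set_option autoImplicit false

namespace Pool.Agent.ANL

open MeasureTheory Set

namespace SYM

/-- The summand. -/
noncomputable def F (x y z : ℂ) : ℝ := (1 / ((x - y) * (starRingEnd ℂ) (x - z))).re

theorem F_eq (x y z : ℂ) : F x y z =
    ((x.re - y.re) * (x.re - z.re) + (x.im - y.im) * (x.im - z.im)) /
      (((x.re - y.re) ^ 2 + (x.im - y.im) ^ 2) * ((x.re - z.re) ^ 2 + (x.im - z.im) ^ 2)) := by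
  rw [F, one_div, Complex.inv_re, Complex.normSq_mul, Complex.normSq_conj, Complex.normSq_apply,
    Complex.normSq_apply, Complex.mul_re, Complex.conj_re, Complex.conj_im, Complex.sub_re,
    Complex.sub_im, Complex.sub_re, Complex.sub_im]
  congr 1
  · ring
  · ring

theorem nsq (x y : ℂ) : ‖x - y‖ ^ 2 = (x.re - y.re) ^ 2 + (x.im - y.im) ^ 2 := by
  rw [Complex.sq_norm, Complex.normSq_apply, Complex.sub_re, Complex.sub_im]
  ring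

theorem frac {A B C P Q R S : ℝ} (hA : A ≠ 0) (hB : B ≠ 0) (hC : C ≠ 0)
    (h : P * B + Q * C + R * A = 2 * S ^ 2) :
    P / (A * C) + Q / (B * A) + R / (C * B) = 4 * S ^ 2 / (A * B * C) / 2 := by
  have h1 : P / (A * C) = P * B / (A * B * C) := by
    field_simp
  have h2 : Q / (B * A) = Q * C / (A * B * C) := by
    field_simp
  have h3 : R / (C * B) = R * A / (A * B * C) := by
    field_simp
  rw [h1, h2, h3, ← add_div, ← add_div, h]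
  ring

/-- The identity of Melnikov. -/
theorem mel {x y z : ℂ} (h1 : 0 < ‖x - y‖) (h2 : 0 < ‖y - z‖) (h3 : 0 < ‖z - x‖) :
    F x y z + F y z x + F z x y = cu x y z / 2 := by
  have hA : ‖x - y‖ ^ 2 ≠ 0 := by positivity
  have hB : ‖y - z‖ ^ 2 ≠ 0 := by positivity
  have hC : ‖z - x‖ ^ 2 ≠ 0 := by positivity
  have b1 : (y.re - x.re) ^ 2 + (y.im - x.im) ^ 2 = ‖x - y‖ ^ 2 := by
    rw [nsq]
    ring
  have b2 : (z.re - y.re) ^ 2 + (z.im - y.im) ^ 2 = ‖y - z‖ ^ 2 := by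
    rw [nsq]
    ring
  have b3 : (x.re - z.re) ^ 2 + (x.im - z.im) ^ 2 = ‖z - x‖ ^ 2 := by
    rw [nsq]
    ring
  rw [F_eq, F_eq, F_eq, cu, b1, b2, b3, ← nsq, ← nsq, ← nsq]
  apply frac hA hB hC
  rw [nsq, nsq, nsq, crs, Complex.sub_re, Complex.sub_im, Complex.sub_re, Complex.sub_im]
  obtain ⟨a, ha⟩ : ∃ a, a = y.re - x.re := ⟨_, rfl⟩
  obtain ⟨b, hb⟩ : ∃ b, b = y.im - x.im := ⟨_, rfl⟩
  obtain ⟨c, hc⟩ : ∃ c, c = z.re - x.re := ⟨_, rfl⟩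
  obtain ⟨d, hd⟩ : ∃ d, d = z.im - x.im := ⟨_, rfl⟩
  have e1 : x.re - y.re = -a := by rw [ha]; ring
  have e2 : x.im - y.im = -b := by rw [hb]; ring
  have e3 : x.re - z.re = -c := by rw [hc]; ring
  have e4 : x.im - z.im = -d := by rw [hd]; ring
  have e5 : y.re - z.re = a - c := by rw [ha, hc]; ring
  have e6 : y.im - z.im = b - d := by rw [hb, hd]; ring
  have e7 : z.re - y.re = c - a := by rw [ha, hc]; ring
  have e8 : z.im - y.im = d - b := by rw [hb, hd]; ring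
  rw [e1, e2, e3, e4, e5, e6, e7, e8, ← ha, ← hb, ← hc, ← hd]
  ring

/-- Cyclic permutations of the variables of a triple sum. -/
theorem cyc (X : Finset ℂ) (g : ℂ → ℂ → ℂ → ℝ) :
    ∑ x ∈ X, ∑ y ∈ X, ∑ z ∈ X, g x y z = ∑ x ∈ X, ∑ y ∈ X, ∑ z ∈ X, g y z x := by
  symm
  calc ∑ x ∈ X, ∑ y ∈ X, ∑ z ∈ X, g y z x = ∑ y ∈ X, ∑ x ∈ X, ∑ z ∈ X, g y z x :=
        Finset.sum_comm
    _ = ∑ y ∈ X, ∑ z ∈ X, ∑ x ∈ X, g y z x :=
        Finset.sum_congr rfl fun y _ => Finset.sum_comm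

end SYM

theorem SYM_thm : Stmt_SYM := by
  classical
  intro X w ε hε
  set g : ℂ → ℂ → ℂ → ℝ := fun x y z => if ε ≤ ‖x - y‖ ∧ ε ≤ ‖y - z‖ ∧ ε ≤ ‖z - x‖ then
    w x * w y * w z * SYM.F x y z else 0 with hg
  have h1 : ∑ x ∈ X, ∑ y ∈ X, ∑ z ∈ X, g x y z = ∑ x ∈ X, ∑ y ∈ X, ∑ z ∈ X, g y z x :=
    SYM.cyc X g
  have h2 : ∑ x ∈ X, ∑ y ∈ X, ∑ z ∈ X, g y z x = ∑ x ∈ X, ∑ y ∈ X, ∑ z ∈ X, g z x y :=
    SYM.cyc X (fun x y z => g y z x)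
  have h3 : ∑ x ∈ X, ∑ y ∈ X, ∑ z ∈ X, (g x y z + g y z x + g z x y) = T3 X w ε / 2 := by
    rw [T3, Finset.sum_div]
    refine Finset.sum_congr rfl fun x _ => ?_
    rw [Finset.sum_div]
    refine Finset.sum_congr rfl fun y _ => ?_
    rw [Finset.sum_div]
    refine Finset.sum_congr rfl fun z _ => ?_
    simp only [hg]
    by_cases hc : ε ≤ ‖x - y‖ ∧ ε ≤ ‖y - z‖ ∧ ε ≤ ‖z - x‖
    · obtain ⟨c1, c2, c3⟩ := hc
      rw [if_pos ⟨c1, c2, c3⟩, if_pos ⟨c2, c3, c1⟩, if_pos ⟨c3, c1, c2⟩, if_pos ⟨c1, c2, c3⟩]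
      have := SYM.mel (hε.trans_le c1) (hε.trans_le c2) (hε.trans_le c3)
      linear_combination (w x * w y * w z) * this
    · rw [if_neg hc, if_neg (fun h => hc ⟨h.2.2, h.1, h.2.1⟩),
        if_neg (fun h => hc ⟨h.2.1, h.2.2, h.1⟩), if_neg hc]
      simp
  simp only [Finset.sum_add_distrib] at h3
  have h4 : ∑ x ∈ X, ∑ y ∈ X, ∑ z ∈ X, (if ε ≤ ‖x - y‖ ∧ ε ≤ ‖y - z‖ ∧ ε ≤ ‖z - x‖ then
    w x * w y * w z * (1 / ((x - y) * (starRingEnd ℂ) (x - z))).re else 0) =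
      ∑ x ∈ X, ∑ y ∈ X, ∑ z ∈ X, g x y z := rfl
  rw [h4]
  linarith

end Pool.Agent.ANL
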