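import Pool.Agent.ANL.Stmts

/-!
# The tail sum
-/

set_option autoImplicit false

namespace Pool.Agent.ANL

open MeasureTheory Set

namespace TAIL

open Classical in
theorem ball (X : Finset ℂ) (m : ℂ → ℝ) (ε : ℝ) (hG : Grow X m ε) (x : ℂ) (R : ℝ) (hR : ε ≤ R) :
    ∑ y ∈ X, (if ‖y - x‖ ≤ R then m y else 0) ≤ R := by
  rw [← Finset.sum_filter]
  exact hG.2 x R hR

open Classical in
theorem step (X : Finset ℂ) (m : ℂ → ℝ) (ε : ℝ) (hε : 0 < ε) (hG : Grow X m ε) (x : ℂ) (r : ℝ)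
    (hr : ε ≤ r) (n : ℕ) :
    ∑ y ∈ X, (if r ≤ ‖y - x‖ ∧ ‖y - x‖ < 2 ^ n * r then m y / ‖y - x‖ ^ 2 else 0) ≤
      4 / r * (1 - 1 / 2 ^ n) := by
  have hr0 : 0 < r := lt_of_lt_of_le hε hr
  induction n with
  | zero =>
    have h0 : ∀ y ∈ X, (if r ≤ ‖y - x‖ ∧ ‖y - x‖ < 2 ^ 0 * r then m y / ‖y - x‖ ^ 2 else 0) = 0 := by
      intro y _
      rw [if_neg]
      rintro ⟨h1, h2⟩
      rw [pow_zero, one_mul] at h2
      linarith
    rw [Finset.sum_eq_zero h0]
    simp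
  | succ n ih =>
    have hn : (0 : ℝ) < 2 ^ n := by positivity
    have h1n : (1 : ℝ) ≤ 2 ^ n := one_le_pow₀ (by norm_num)
    have hpt : ∀ y ∈ X, (if r ≤ ‖y - x‖ ∧ ‖y - x‖ < 2 ^ (n + 1) * r then m y / ‖y - x‖ ^ 2 else 0) ≤
        (if r ≤ ‖y - x‖ ∧ ‖y - x‖ < 2 ^ n * r then m y / ‖y - x‖ ^ 2 else 0) +
          (if ‖y - x‖ ≤ 2 ^ (n + 1) * r then m y else 0) / (2 ^ n * r) ^ 2 := by
      intro y hy
      have hm := hG.1 y hy
      by_cases c1 : r ≤ ‖y - x‖ ∧ ‖y - x‖ < 2 ^ (n + 1) * r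
      · rw [if_pos c1, if_pos c1.2.le]
        by_cases c2 : ‖y - x‖ < 2 ^ n * r
        · rw [if_pos ⟨c1.1, c2⟩]
          have : 0 ≤ m y / (2 ^ n * r) ^ 2 := by positivity
          linarith
        · rw [if_neg (fun h => c2 h.2), zero_add]
          rw [not_lt] at c2
          exact div_le_div_of_nonneg_left hm (by positivity)
            (pow_le_pow_left₀ (by positivity) c2 2)
      · rw [if_neg c1]
        refine add_nonneg ?_ (div_nonneg ?_ (by positivity))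
        · split
          · positivity
          · exact le_rfl
        · split
          · exact hm
          · exact le_rfl
    refine (Finset.sum_le_sum hpt).trans ?_
    rw [Finset.sum_add_distrib, ← Finset.sum_div]
    have hb := ball X m ε hG x (2 ^ (n + 1) * r) (by
      have : (1 : ℝ) ≤ 2 ^ (n + 1) := one_le_pow₀ (by norm_num)
      nlinarith)
    have hb2 := div_le_div_of_nonneg_right hb (sq_nonneg (2 ^ n * r))
    refine (add_le_add ih hb2).trans (le_of_eq ?_)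
    rw [pow_succ]
    field_simp
    ring

end TAIL

open Classical in
theorem TAIL_thm : Stmt_TAIL := by
  intro X m ε hε hG x r hr
  have hr0 : 0 < r := lt_of_lt_of_le hε hr
  obtain ⟨n, hn⟩ := pow_unbounded_of_one_lt ((∑ y ∈ X, ‖y - x‖) / r) (one_lt_two : (1 : ℝ) < 2)
  rw [div_lt_iff₀ hr0] at hn
  have h := TAIL.step X m ε hε hG x r hr n
  have h1 : ∑ y ∈ X.filter (fun y => r ≤ ‖y - x‖), m y / ‖y - x‖ ^ 2 =
      ∑ y ∈ X, (if r ≤ ‖y - x‖ ∧ ‖y - x‖ < 2 ^ n * r then m y / ‖y - x‖ ^ 2 else 0) := by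
    rw [Finset.sum_filter]
    refine Finset.sum_congr rfl fun y hy => ?_
    have hlt : ‖y - x‖ < 2 ^ n * r :=
      lt_of_le_of_lt (Finset.single_le_sum (f := fun y => ‖y - x‖) (fun i _ => norm_nonneg _) hy) hn
    by_cases c : r ≤ ‖y - x‖
    · rw [if_pos c, if_pos ⟨c, hlt⟩]
    · rw [if_neg c, if_neg (fun h => c h.1)]
  rw [h1]
  refine h.trans ?_
  have h4 : 0 < 4 / r := by positivity
  have h2 : (0 : ℝ) < 1 / 2 ^ n := by positivity
  nlinarith

end Pool.Agent.ANL
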