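import Pool.Agent.ANL.Stmts

/-!
# TELE: the sum over all levels
-/

set_option autoImplicit false

namespace Pool.Agent.ANL

open MeasureTheory Set

namespace TELE

theorem tel (g : ℤ → ℝ) (a : ℤ) (n : ℕ) :
    ∑ k ∈ Finset.Icc a (a + n), (g (k + 1) - g k) = g (a + n + 1) - g a := by
  induction n with
  | zero => simp
  | succ n ih =>
    have h : Finset.Icc a (a + ((n + 1 : ℕ) : ℤ)) = insert (a + n + 1) (Finset.Icc a (a + n)) := by
      ext k
      simp only [Finset.mem_Icc, Finset.mem_insert]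
      push_cast
      omega
    rw [h, Finset.sum_insert (by simp), ih]
    push_cast
    ring_nf

/-- Telescoping with bounded functions. -/
theorem tel_le (g : ℤ → ℝ) (A : ℝ) (h0 : ∀ k, g k ≤ 0) (hA : ∀ k, -A ≤ g k) (a b : ℤ) (j : ℕ) :
    ∑ k ∈ Finset.Icc a b, (g (k + j) - g k) ≤ j * A := by
  have hA0 : 0 ≤ A := by linarith [h0 0, hA 0]
  induction j with
  | zero => simp
  | succ j ih =>
    have h1 : ∑ k ∈ Finset.Icc a b, (g (k + ((j + 1 : ℕ) : ℤ)) - g k) =
        ∑ k ∈ Finset.Icc a b, ((fun l => g (l + j)) (k + 1) - (fun l => g (l + j)) k) +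
          ∑ k ∈ Finset.Icc a b, (g (k + j) - g k) := by
      rw [← Finset.sum_add_distrib]
      refine Finset.sum_congr rfl fun k _ => ?_
      simp only
      rw [show k + ((j + 1 : ℕ) : ℤ) = k + 1 + j from by push_cast; ring]
      ring
    rw [h1]
    have h2 : ∑ k ∈ Finset.Icc a b, ((fun l => g (l + j)) (k + 1) - (fun l => g (l + j)) k) ≤ A := by
      rcases lt_or_ge b a with hab | hab
      · rw [Finset.Icc_eq_empty (by omega)]
        simpa using hA0
      · obtain ⟨n, hn⟩ := Int.le.dest hab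
        rw [← hn, tel (fun l => g (l + j)) a n]
        linarith [h0 (a + n + 1 + j), hA (a + j)]
    push_cast
    linarith

variable {N : ℕ} {X : Finset ℂ} {m : ℂ → ℝ} {lab : ℂ → Fin N} {f : ℂ → ℤ × ℤ}

theorem Mi_pos (hm : ∀ x ∈ X, 0 < m x) {w : ℂ} (hw : w ∈ X) : 0 < Mi X m f lab w := by
  unfold Mi
  refine Finset.sum_pos (fun y hy => hm y (Finset.mem_filter.1 hy).1) ⟨w, ?_⟩
  exact Finset.mem_filter.2 ⟨hw, rfl, rfl⟩

theorem Mi_le (hm : ∀ x ∈ X, 0 < m x) (w : ℂ) : Mi X m f lab w ≤ Mc X m f w := by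
  unfold Mi Mc
  refine Finset.sum_le_sum_of_subset_of_nonneg ?_ ?_
  · intro y hy
    rw [Finset.mem_filter] at hy ⊢
    exact ⟨hy.1, hy.2.1⟩
  · intro y hy _
    exact (hm y (Finset.mem_filter.1 hy).1).le

theorem Mi_congr {w v : ℂ} (h : f w = f v) (h' : lab w = lab v) :
    Mi X m f lab w = Mi X m f lab v := by
  unfold Mi
  rw [h, h']

open Classical in
theorem inner (hm : ∀ x ∈ X, 0 < m x) (y : ℂ) :
    ∑ w ∈ X.filter (fun w => f w = f y), m w / Mi X m f lab w ≤ N := by
  rw [← Finset.sum_fiberwise (s := X.filter (fun w => f w = f y)) (g := lab)]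
  have h1 : ∀ i : Fin N, ∑ w ∈ (X.filter (fun w => f w = f y)).filter (fun w => lab w = i),
      m w / Mi X m f lab w ≤ 1 := by
    intro i
    set S := (X.filter (fun w => f w = f y)).filter (fun w => lab w = i) with hS
    rcases S.eq_empty_or_nonempty with h | ⟨v, hv⟩
    · rw [h]; simp
    · have hv1 := (Finset.mem_filter.1 hv)
      have hv2 := (Finset.mem_filter.1 hv1.1)
      have h2 : ∀ w ∈ S, m w / Mi X m f lab w = m w / Mi X m f lab v := by
        intro w hw
        have hw1 := (Finset.mem_filter.1 hw)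
        have hw2 := (Finset.mem_filter.1 hw1.1)
        rw [Mi_congr (hw2.2.trans hv2.2.symm) (hw1.2.trans hv1.2.symm)]
      rw [Finset.sum_congr rfl h2, ← Finset.sum_div]
      have h3 : ∑ w ∈ S, m w = Mi X m f lab v := by
        unfold Mi
        refine Finset.sum_congr ?_ fun _ _ => rfl
        ext w
        rw [hS, Finset.mem_filter, Finset.mem_filter, Finset.mem_filter, hv2.2, hv1.2]
        tauto
      rw [h3, div_self (Mi_pos hm hv2.1).ne']
  calc _ ≤ ∑ i : Fin N, (1 : ℝ) := Finset.sum_le_sum fun i _ => h1 i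
    _ = N := by simp

open Classical in
theorem sum_ratio (hm : ∀ x ∈ X, 0 < m x) :
    ∑ w ∈ X, m w * (Mc X m f w / Mi X m f lab w) ≤ N * ∑ x ∈ X, m x := by
  have h1 : ∀ w ∈ X, m w * (Mc X m f w / Mi X m f lab w) =
      ∑ y ∈ X, (if f y = f w then m y * (m w / Mi X m f lab w) else 0) := by
    intro w _
    rw [← Finset.sum_filter]
    unfold Mc
    rw [← Finset.sum_mul]
    ring
  rw [Finset.sum_congr rfl h1, Finset.sum_comm, Finset.mul_sum]
  refine Finset.sum_le_sum fun y hy => ?_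
  have h2 : ∑ w ∈ X, (if f y = f w then m y * (m w / Mi X m f lab w) else 0) =
      m y * ∑ w ∈ X.filter (fun w => f w = f y), m w / Mi X m f lab w := by
    rw [Finset.mul_sum, Finset.sum_filter]
    refine Finset.sum_congr rfl fun w _ => ?_
    by_cases h : f y = f w
    · rw [if_pos h, if_pos h.symm]
    · rw [if_neg h, if_neg (fun h' => h h'.symm)]
  rw [h2]
  have h3 := mul_le_mul_of_nonneg_left (inner (f := f) (lab := lab) hm y) (hm y hy).le
  linarith

/-- The information function. -/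
noncomputable def Phi (X : Finset ℂ) (m : ℂ → ℝ) (f : ℂ → ℤ × ℤ) (lab : ℂ → Fin N) : ℝ :=
  ∑ w ∈ X, m w * Real.log (Mi X m f lab w / Mc X m f w)

theorem Phi_nonpos (hm : ∀ x ∈ X, 0 < m x) : Phi X m f lab ≤ 0 := by
  unfold Phi
  refine Finset.sum_nonpos fun w hw => ?_
  have h1 := Mi_pos (f := f) (lab := lab) hm hw
  have h2 := Mi_le (f := f) (lab := lab) hm w
  refine mul_nonpos_of_nonneg_of_nonpos (hm w hw).le ?_
  exact Real.log_nonpos (div_nonneg h1.le (h1.le.trans h2)) (div_le_one_of_le₀ h2 (h1.le.trans h2))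

theorem Phi_ge (hN : 1 ≤ N) (hm : ∀ x ∈ X, 0 < m x) :
    -(Real.log N * ∑ x ∈ X, m x) ≤ Phi X m f lab := by
  have hN0 : (0 : ℝ) < N := by exact_mod_cast (by omega : 0 < N)
  have h1 : ∀ w ∈ X, m w * (Mc X m f w / Mi X m f lab w) / N - m w + Real.log N * m w ≥
      -(m w * Real.log (Mi X m f lab w / Mc X m f w)) := by
    intro w hw
    have hp := Mi_pos (f := f) (lab := lab) hm hw
    have hl := Mi_le (f := f) (lab := lab) hm w
    have hc : 0 < Mc X m f w := lt_of_lt_of_le hp hl
    set u := Mc X m f w / Mi X m f lab w with hu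
    have hu0 : 0 < u := div_pos hc hp
    have e1 : Real.log (Mi X m f lab w / Mc X m f w) = -Real.log u := by
      rw [hu, ← Real.log_inv, inv_div]
    have e2 := Real.log_le_sub_one_of_pos (div_pos hu0 hN0)
    rw [Real.log_div hu0.ne' hN0.ne'] at e2
    rw [e1]
    have hmw := hm w hw
    have e3 : m w * Real.log u ≤ m w * (u / N - 1 + Real.log N) :=
      mul_le_mul_of_nonneg_left (by linarith) hmw.le
    have e4 : m w * u / N = m w * (u / N) := by ring
    rw [e4]
    linarith
  have h2 := Finset.sum_le_sum h1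
  rw [Finset.sum_neg_distrib, Finset.sum_add_distrib, Finset.sum_sub_distrib,
    ← Finset.sum_div, ← Finset.mul_sum] at h2
  have h3 := sum_ratio (f := f) (lab := lab) hm
  have h4 : (∑ w ∈ X, m w * (Mc X m f w / Mi X m f lab w)) / N ≤ ∑ x ∈ X, m x := by
    rw [div_le_iff₀ hN0]
    linarith
  unfold Phi
  linarith

end TELE

open TELE

theorem TELE_thm : Stmt_MISS → Stmt_TELE := by
  intro hMISS N X m lab c hN hm href a b j
  have h1 : ∀ k : ℤ, Sm X m (c k) (c (k + j)) lab ≤
      Phi X m (c (k + j)) lab - Phi X m (c k) lab := by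
    intro k
    have h := hMISS N X m lab (c k) (c (k + j)) hm
      (fun x y hxy => href k (k + j) x y (by omega) hxy)
    refine h.trans (le_of_eq ?_)
    unfold Phi
    rw [← Finset.sum_sub_distrib]
    refine Finset.sum_congr rfl fun w _ => ?_
    ring
  have h2 := tel_le (fun k => Phi X m (c k) lab) (Real.log N * ∑ x ∈ X, m x)
    (fun k => Phi_nonpos hm) (fun k => Phi_ge hN hm) a b j
  calc ∑ k ∈ Finset.Icc a b, Sm X m (c k) (c (k + j)) lab
      ≤ ∑ k ∈ Finset.Icc a b, (Phi X m (c (k + j)) lab - Phi X m (c k) lab) :=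
        Finset.sum_le_sum fun k _ => h1 k
    _ ≤ j * (Real.log N * ∑ x ∈ X, m x) := h2
    _ = j * Real.log N * ∑ x ∈ X, m x := by ring

end Pool.Agent.ANL
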